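import Pool.Agent.H984R4.NP.Model

/-!
D1: piecewise linear curves.
-/

namespace H984N

open H974 Finset H342P H984P MeasureTheory

theorem pl_apply' (N : ℕ) (p : ℕ → ℂ) (s : unitInterval) :
    pl N p s = p 0 + ∑ k ∈ Finset.range N,
      ((clamp ((s : ℝ) * N - k) : ℝ) : ℂ) * (p (k + 1) - p k) := rfl

theorem pl_clamp_zero {x : ℝ} (h : x ≤ 0) : clamp x = 0 := by
  unfold clamp
  rw [min_eq_right (by linarith), max_eq_left h]

theorem pl_clamp_one {x : ℝ} (h : 1 ≤ x) : clamp x = 1 := by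
  unfold clamp
  rw [min_eq_left h, max_eq_right (by norm_num)]

theorem pl_clamp_id {x : ℝ} (h0 : 0 ≤ x) (h1 : x ≤ 1) : clamp x = x := by
  unfold clamp
  rw [min_eq_right h1, max_eq_right h0]

theorem pl_zero (N : ℕ) (p : ℕ → ℂ) : pl N p 0 = p 0 := by
  rw [pl_apply', Finset.sum_eq_zero, add_zero]
  intro k _
  have : clamp (((0 : unitInterval) : ℝ) * N - k) = 0 := by
    apply pl_clamp_zero
    have : (0 : ℝ) ≤ k := Nat.cast_nonneg k
    simp
  rw [this]
  simp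

theorem pl_one (N : ℕ) (p : ℕ → ℂ) : pl N p 1 = p N := by
  rw [pl_apply']
  have h : ∀ k ∈ Finset.range N,
      ((clamp (((1 : unitInterval) : ℝ) * N - k) : ℝ) : ℂ) * (p (k + 1) - p k) =
        p (k + 1) - p k := by
    intro k hk
    rw [Finset.mem_range] at hk
    have : clamp (((1 : unitInterval) : ℝ) * N - k) = 1 := by
      apply pl_clamp_one
      have : (k : ℝ) + 1 ≤ N := by exact_mod_cast hk
      simp
      linarith
    rw [this]
    simp
  rw [Finset.sum_congr rfl h, Finset.sum_range_sub]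
  ring

theorem pl_seg {N : ℕ} {p : ℕ → ℂ} {k : ℕ} (hk : k < N) {s : unitInterval}
    (h1 : (k : ℝ) ≤ s * N) (h2 : (s : ℝ) * N ≤ k + 1) :
    pl N p s = p k + (((s : ℝ) * N - k : ℝ) : ℂ) * (p (k + 1) - p k) := by
  rw [pl_apply']
  obtain ⟨r, rfl⟩ : ∃ r, N = k + 1 + r := ⟨N - (k + 1), by omega⟩
  set x : ℝ := (s : ℝ) * ((k + 1 + r : ℕ) : ℝ) with hx
  rw [Finset.sum_range_add, Finset.sum_range_succ]
  have e1 : ∑ j ∈ Finset.range k, ((clamp (x - j) : ℝ) : ℂ) * (p (j + 1) - p j) = p k - p 0 := by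
    rw [← Finset.sum_range_sub]
    refine Finset.sum_congr rfl fun j hj => ?_
    rw [Finset.mem_range] at hj
    have : clamp (x - j) = 1 := by
      apply pl_clamp_one
      have : (j : ℝ) + 1 ≤ k := by exact_mod_cast hj
      linarith
    rw [this]
    simp
  have e2 : ∑ j ∈ Finset.range r, ((clamp (x - ((k + 1 + j : ℕ) : ℝ)) : ℝ) : ℂ) *
      (p (k + 1 + j + 1) - p (k + 1 + j)) = 0 := by
    refine Finset.sum_eq_zero fun j _ => ?_
    have : clamp (x - ((k + 1 + j : ℕ) : ℝ)) = 0 := by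
      apply pl_clamp_zero
      push_cast
      have : (0 : ℝ) ≤ j := Nat.cast_nonneg j
      linarith
    rw [this]
    simp
  have e3 : clamp (x - k) = x - k := pl_clamp_id (by linarith) (by linarith)
  rw [e1, e2, e3]
  ring

theorem pl_exists_seg {N : ℕ} (hN : 0 < N) (s : unitInterval) :
    ∃ k < N, (k : ℝ) ≤ s * N ∧ (s : ℝ) * N ≤ k + 1 := by
  have h0 : 0 ≤ (s : ℝ) * N := mul_nonneg s.2.1 (Nat.cast_nonneg N)
  have hle : (s : ℝ) * N ≤ N := by
    have := s.2.2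
    have hN' : (0 : ℝ) ≤ N := Nat.cast_nonneg N
    nlinarith
  rcases lt_or_ge ⌊(s : ℝ) * N⌋₊ N with h | h
  · exact ⟨_, h, Nat.floor_le h0, (Nat.lt_floor_add_one _).le⟩
  · refine ⟨N - 1, by omega, ?_, ?_⟩
    · have h1 := Nat.floor_le h0
      have h2 : (N : ℝ) ≤ ⌊(s : ℝ) * N⌋₊ := by exact_mod_cast h
      rw [Nat.cast_sub (by omega)]
      push_cast
      linarith
    · rw [Nat.cast_sub (by omega)]
      push_cast
      linarith

/-- Every point of the curve is close to a node. -/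
theorem pl_close {N : ℕ} {p : ℕ → ℂ} {δ : ℝ} (hδ : 0 ≤ δ)
    (h : ∀ k < N, dist (p k) (p (k + 1)) ≤ δ) (s : unitInterval) :
    ∃ k ≤ N, dist (pl N p s) (p k) ≤ δ := by
  rcases Nat.eq_zero_or_pos N with rfl | hN
  · refine ⟨0, le_rfl, ?_⟩
    rw [pl_apply']
    simpa using hδ
  · obtain ⟨k, hk, h1, h2⟩ := pl_exists_seg hN s
    refine ⟨k, hk.le, ?_⟩
    rw [pl_seg hk h1 h2, dist_eq_norm]
    have e : p k + (((s : ℝ) * N - k : ℝ) : ℂ) * (p (k + 1) - p k) - p k =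
        (((s : ℝ) * N - k : ℝ) : ℂ) * (p (k + 1) - p k) := by ring
    rw [e, norm_mul, Complex.norm_real, Real.norm_eq_abs, abs_of_nonneg (by linarith)]
    have h3 := h k hk
    rw [dist_comm, dist_eq_norm] at h3
    have h4 := norm_nonneg (p (k + 1) - p k)
    nlinarith

theorem pl_aux {Λ τ β u v D : ℝ} (hβ : 0 < β) (hβ1 : β ≤ 1) (hτ : 0 ≤ τ) (hΛ : 0 ≤ Λ)
    (hu : 0 ≤ u) (hu1 : u ≤ 1) (huv : u ≤ v) (hD : D ≤ Λ * (τ * 1) ^ β) :
    u * D ≤ Λ * (τ * v) ^ β := by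
  rw [mul_one] at hD
  have h1 : u ≤ u ^ β := by
    rcases hu.eq_or_lt with rfl | hu0
    · rw [Real.zero_rpow hβ.ne']
    · calc u = u ^ (1 : ℝ) := (Real.rpow_one u).symm
        _ ≤ u ^ β := Real.rpow_le_rpow_of_exponent_ge hu0 hu1 hβ1
  have h2 : (τ * u) ^ β ≤ (τ * v) ^ β :=
    Real.rpow_le_rpow (mul_nonneg hτ hu) (mul_le_mul_of_nonneg_left huv hτ) hβ.le
  calc u * D ≤ u * (Λ * τ ^ β) := mul_le_mul_of_nonneg_left hD hu
    _ ≤ u ^ β * (Λ * τ ^ β) := mul_le_mul_of_nonneg_right h1 (by positivity)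
    _ = Λ * (τ * u) ^ β := by rw [Real.mul_rpow hτ hu]; ring
    _ ≤ Λ * (τ * v) ^ β := mul_le_mul_of_nonneg_left h2 hΛ

/-- Hölder continuity. -/
theorem pl_holder {N : ℕ} {p : ℕ → ℂ} {τ β Λ : ℝ} (hβ : 0 < β) (hβ1 : β ≤ 1) (hτ : 0 ≤ τ)
    (hΛ : 0 ≤ Λ) (h : ∀ k l : ℕ, k < l → l ≤ N →
      dist (p k) (p l) ≤ Λ * (τ * ((l - k : ℕ) : ℝ)) ^ β) (s t : unitInterval) :
    dist (pl N p s) (pl N p t) ≤ 3 * Λ * (τ * N * |(s : ℝ) - t|) ^ β := by
  have hN0 : (0 : ℝ) ≤ N := Nat.cast_nonneg N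
  wlog hst : s ≤ t generalizing s t with H
  · have := H t s (le_of_not_ge hst)
    rwa [dist_comm, abs_sub_comm]
  have hst' : (s : ℝ) ≤ t := hst
  have hRHS : τ * N * |(s : ℝ) - t| = τ * ((t : ℝ) * N - s * N) := by
    rw [abs_sub_comm, abs_of_nonneg (by linarith)]; ring
  rw [hRHS]
  have hxy : (s : ℝ) * N ≤ t * N := mul_le_mul_of_nonneg_right hst' hN0
  have hR0 : 0 ≤ Λ * (τ * ((t : ℝ) * N - s * N)) ^ β :=
    mul_nonneg hΛ (Real.rpow_nonneg (mul_nonneg hτ (by linarith)) _)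
  rcases Nat.eq_zero_or_pos N with rfl | hN
  · rw [pl_apply', pl_apply']
    simp only [Finset.range_zero, Finset.sum_empty, dist_self]
    linarith
  obtain ⟨k, hk, hk1, hk2⟩ := pl_exists_seg hN s
  obtain ⟨l, hl, hl1, hl2⟩ := pl_exists_seg hN t
  have hstep : ∀ j < N, dist (p j) (p (j + 1)) ≤ Λ * (τ * 1) ^ β := by
    intro j hj
    have := h j (j + 1) (by omega) (by omega)
    simpa using this
  rcases lt_trichotomy k l with hkl | hkl | hkl
  · -- different segments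
    have hkl' : (k : ℝ) + 1 ≤ l := by exact_mod_cast hkl
    have a1 : dist (pl N p s) (p (k + 1)) ≤ Λ * (τ * ((t : ℝ) * N - s * N)) ^ β := by
      rw [pl_seg hk hk1 hk2, dist_eq_norm]
      have e : p k + (((s : ℝ) * N - k : ℝ) : ℂ) * (p (k + 1) - p k) - p (k + 1) =
          (((k : ℝ) + 1 - (s : ℝ) * N : ℝ) : ℂ) * (p k - p (k + 1)) := by push_cast; ring
      rw [e, norm_mul, Complex.norm_real, Real.norm_eq_abs, abs_of_nonneg (by linarith),
        ← dist_eq_norm]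
      exact pl_aux hβ hβ1 hτ hΛ (by linarith) (by linarith) (by linarith) (hstep k hk)
    have a2 : dist (p (k + 1)) (p l) ≤ Λ * (τ * ((t : ℝ) * N - s * N)) ^ β := by
      rcases Nat.lt_or_ge (k + 1) l with hlt | hge
      · refine (h (k + 1) l hlt hl.le).trans (mul_le_mul_of_nonneg_left ?_ hΛ)
        refine Real.rpow_le_rpow (by positivity) (mul_le_mul_of_nonneg_left ?_ hτ) hβ.le
        rw [Nat.cast_sub hlt.le]
        push_cast
        linarith
      · have : k + 1 = l := by omega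
        rw [this, dist_self]
        exact hR0
    have a3 : dist (p l) (pl N p t) ≤ Λ * (τ * ((t : ℝ) * N - s * N)) ^ β := by
      rw [pl_seg hl hl1 hl2, dist_comm, dist_eq_norm]
      have e : p l + (((t : ℝ) * N - l : ℝ) : ℂ) * (p (l + 1) - p l) - p l =
          (((t : ℝ) * N - l : ℝ) : ℂ) * (p (l + 1) - p l) := by ring
      rw [e, norm_mul, Complex.norm_real, Real.norm_eq_abs, abs_of_nonneg (by linarith),
        ← dist_eq_norm, dist_comm (p (l + 1))]
      exact pl_aux hβ hβ1 hτ hΛ (by linarith) (by linarith) (by linarith) (hstep l hl)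
    calc dist (pl N p s) (pl N p t)
        ≤ dist (pl N p s) (p (k + 1)) + dist (p (k + 1)) (p l) + dist (p l) (pl N p t) :=
          dist_triangle4 _ _ _ _
      _ ≤ 3 * Λ * (τ * ((t : ℝ) * N - s * N)) ^ β := by linarith
  · subst hkl
    rw [pl_seg hk hk1 hk2, pl_seg hl hl1 hl2, dist_comm, dist_eq_norm]
    have e : p k + (((t : ℝ) * N - k : ℝ) : ℂ) * (p (k + 1) - p k) -
        (p k + (((s : ℝ) * N - k : ℝ) : ℂ) * (p (k + 1) - p k)) =
        (((t : ℝ) * N - s * N : ℝ) : ℂ) * (p (k + 1) - p k) := by push_cast; ring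
    rw [e, norm_mul, Complex.norm_real, Real.norm_eq_abs, abs_of_nonneg (by linarith),
      ← dist_eq_norm, dist_comm (p (k + 1))]
    have := pl_aux hβ hβ1 hτ hΛ (u := (t : ℝ) * N - s * N) (v := (t : ℝ) * N - s * N)
      (by linarith) (by linarith) le_rfl (hstep k hk)
    linarith
  · -- then `s = t`
    have hlk : (l : ℝ) + 1 ≤ k := by exact_mod_cast hkl
    have hN' : (0 : ℝ) < N := by exact_mod_cast hN
    have heq : (s : ℝ) * N = t * N := by linarith
    have : s = t := Subtype.ext (mul_right_cancel₀ hN'.ne' heq)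
    rw [this, dist_self]
    rw [this] at hR0
    linarith

end H984N
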