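import Pool.Agent.H984R4.NP.ModelLem
import Pool.Agent.H984R4.NP.PL

/-!
D2: the truncated energy of the exploration path as a curve is bounded by the discrete energy.
-/

namespace H984N

open H974 Finset H342P H984P MeasureTheory

/-- Truncated energy of a curve. -/
noncomputable def En (α ρ : ℝ) (f : C(unitInterval, ℂ)) : ℝ :=
  ∫ s : unitInterval, ∫ t : unitInterval, (max (dist (f s) (f t)) ρ) ^ (-α)

/-- The times of the `i`-th step. -/
def EnergyC_I (N i : ℕ) : Set unitInterval := {s | (i : ℝ) ≤ s * N ∧ (s : ℝ) * N ≤ i + 1}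

theorem EnergyC_meas (N i : ℕ) : MeasurableSet (EnergyC_I N i) := by
  have h1 : IsClosed {s : unitInterval | (i : ℝ) ≤ s * N} :=
    isClosed_le (by fun_prop) (by fun_prop)
  have h2 : IsClosed {s : unitInterval | (s : ℝ) * N ≤ i + 1} :=
    isClosed_le (by fun_prop) (by fun_prop)
  exact (h1.inter h2).measurableSet

theorem EnergyC_vol {N : ℕ} (i : ℕ) (hN : 0 < N) :
    (volume : Measure unitInterval).real (EnergyC_I N i) ≤ 1 / N := by
  have hN' : (0 : ℝ) < N := Nat.cast_pos.mpr hN
  have h : (volume : Measure unitInterval) (EnergyC_I N i) ≤ ENNReal.ofReal (1 / N) := by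
    rw [unitInterval.volume_apply]
    have hsub : Subtype.val '' (EnergyC_I N i) ⊆ Set.Icc ((i : ℝ) / N) (((i : ℝ) + 1) / N) := by
      rintro _ ⟨s, ⟨h1, h2⟩, rfl⟩
      exact ⟨(div_le_iff₀ hN').mpr h1, (le_div_iff₀ hN').mpr h2⟩
    refine (measure_mono hsub).trans ?_
    rw [Real.volume_Icc]
    apply le_of_eq
    congr 1
    ring
  unfold Measure.real
  calc ((volume : Measure unitInterval) (EnergyC_I N i)).toReal
      ≤ (ENNReal.ofReal (1 / N)).toReal := ENNReal.toReal_mono ENNReal.ofReal_ne_top h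
    _ = 1 / N := ENNReal.toReal_ofReal (by positivity)

theorem EnergyC_cover {N : ℕ} (hN : 0 < N) (s : unitInterval) : ∃ i < N, s ∈ EnergyC_I N i := by
  have hN' : (0 : ℝ) < N := Nat.cast_pos.mpr hN
  have hs0 : 0 ≤ (s : ℝ) * N := mul_nonneg s.2.1 hN'.le
  have hs1 : (s : ℝ) * N ≤ N := by
    have := mul_le_mul_of_nonneg_right s.2.2 hN'.le
    simpa using this
  by_cases h : ⌊(s : ℝ) * N⌋₊ < N
  · exact ⟨_, h, Nat.floor_le hs0, (Nat.lt_floor_add_one _).le⟩
  · push Not at h
    have h1 : (N : ℝ) ≤ (s : ℝ) * N := (Nat.cast_le.mpr h).trans (Nat.floor_le hs0)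
    have h2 : (s : ℝ) * N = N := le_antisymm hs1 h1
    refine ⟨N - 1, by omega, ?_, ?_⟩
    · rw [h2]; exact Nat.cast_le.mpr (by omega)
    · rw [h2, Nat.cast_sub hN]; simp

theorem EnergyC_near {N : ℕ} {p : ℕ → ℂ} {δ : ℝ} (h : ∀ k < N, dist (p k) (p (k + 1)) ≤ δ)
    {i : ℕ} (hi : i < N) {s : unitInterval} (hs : s ∈ EnergyC_I N i) :
    dist (pl N p s) (p i) ≤ δ := by
  rw [pl_seg hi hs.1 hs.2]
  have h1 : dist (p i + (((s : ℝ) * N - i : ℝ) : ℂ) * (p (i + 1) - p i)) (p i) =
      |(s : ℝ) * N - i| * dist (p i) (p (i + 1)) := by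
    rw [dist_eq_norm, add_sub_cancel_left, norm_mul, Complex.norm_real, Real.norm_eq_abs,
      dist_comm, dist_eq_norm]
  rw [h1]
  have h2 : |(s : ℝ) * N - i| ≤ 1 := by
    rw [abs_of_nonneg (by linarith [hs.1])]
    linarith [hs.2]
  calc |(s : ℝ) * N - i| * dist (p i) (p (i + 1)) ≤ 1 * dist (p i) (p (i + 1)) :=
        mul_le_mul_of_nonneg_right h2 dist_nonneg
    _ ≤ δ := by rw [one_mul]; exact h i hi

theorem energy_curve (R : Rect) {δ ρ α : ℝ} (hδ : 0 < δ) (hδρ : δ ≤ ρ) (hα : 0 ≤ α)
    (F : Finset Edg) :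
    (R.time δ F) ^ 2 * En α ρ (R.curve δ F) ≤
      4 ^ α * (δ ^ (7/2 - α) * energy (R.dm δ) α F) := by
  set N : ℕ := (R.dm δ).len F with hNdef
  set w : ℕ → St := fun k => (R.dm δ).walk F k with hw
  set m : ℕ → ℕ → ℝ := fun i j => ((max (sd (w i).1 (w j).1) 1 : ℤ) : ℝ) with hm
  have hm1 : ∀ i j, 1 ≤ m i j := by
    intro i j
    simp only [hm]
    exact_mod_cast le_max_right _ _
  have hmα : ∀ i j, 0 ≤ m i j ^ (-α) := fun i j =>
    Real.rpow_nonneg (by linarith [hm1 i j]) _
  have hen : energy (R.dm δ) α F =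
      ∑ i ∈ Finset.range (N + 1), ∑ j ∈ Finset.range (N + 1), m i j ^ (-α) := rfl
  have hen0 : 0 ≤ energy (R.dm δ) α F := by
    rw [hen]
    exact Finset.sum_nonneg fun i _ => Finset.sum_nonneg fun j _ => hmα i j
  have h4 : (0 : ℝ) < 4 ^ α := Real.rpow_pos_of_pos (by norm_num) _
  have hδp : (0 : ℝ) < δ ^ (7/2 - α) := Real.rpow_pos_of_pos hδ _
  rcases Nat.eq_zero_or_pos N with hN0 | hN
  · have ht : R.time δ F = 0 := by
      unfold Rect.time
      rw [← hNdef, hN0]; simp
    rw [ht]
    have : (0 : ℝ) ≤ 4 ^ α * (δ ^ (7/2 - α) * energy (R.dm δ) α F) := by positivity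
    simpa using this
  have hN' : (0 : ℝ) < N := Nat.cast_pos.mpr hN
  set f : C(unitInterval, ℂ) := R.curve δ F with hf
  have hfp : f = pl N (fun k => pos δ (w k)) := rfl
  have hstep : ∀ k < N, dist (pos δ (w k)) (pos δ (w (k + 1))) ≤ δ / 2 := by
    intro k _
    have e : w (k + 1) = nxt ((R.dm δ).cfg F) (w k) := orb_succ _ _ _
    rw [e]
    exact pos_nxt hδ.le _ _
  set c : ℝ := 4 ^ α * δ ^ (-α) with hc
  have hc0 : 0 < c := mul_pos h4 (Real.rpow_pos_of_pos hδ _)
  -- the pointwise bound
  have hpt : ∀ i < N, ∀ j < N, ∀ s ∈ EnergyC_I N i, ∀ t ∈ EnergyC_I N j,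
      (max (dist (f s) (f t)) ρ) ^ (-α) ≤ c * m i j ^ (-α) := by
    intro i hi j hj s hs t ht
    have h1 : dist (f s) (pos δ (w i)) ≤ δ / 2 := by
      rw [hfp]; exact EnergyC_near hstep hi hs
    have h2 : dist (f t) (pos δ (w j)) ≤ δ / 2 := by
      rw [hfp]; exact EnergyC_near hstep hj ht
    have h3 := le_dist_pos hδ.le (w i) (w j)
    have h5 : dist (pos δ (w i)) (pos δ (w j)) ≤ δ / 2 + dist (f s) (f t) + δ / 2 := by
      have a1 := dist_triangle4 (pos δ (w i)) (f s) (f t) (pos δ (w j))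
      rw [dist_comm (pos δ (w i)) (f s)] at a1
      linarith
    have h6 : δ * m i j / 4 ≤ max (dist (f s) (f t)) ρ := by
      by_cases hsd : sd (w i).1 (w j).1 ≤ 1
      · have : m i j = 1 := by
          simp only [hm]
          rw [max_eq_right hsd]; norm_num
        rw [this]
        refine le_trans ?_ (le_max_right _ _)
        linarith
      · have hsd2 : 2 ≤ sd (w i).1 (w j).1 := by omega
        have : m i j = (sd (w i).1 (w j).1 : ℝ) := by
          simp only [hm]
          rw [max_eq_left (by omega)]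
        rw [this]
        refine le_trans ?_ (le_max_left _ _)
        have hsd3 : (2 : ℝ) ≤ (sd (w i).1 (w j).1 : ℝ) := by exact_mod_cast hsd2
        nlinarith
    have h7 : 0 < δ * m i j / 4 := by
      have := hm1 i j
      positivity
    calc (max (dist (f s) (f t)) ρ) ^ (-α) ≤ (δ * m i j / 4) ^ (-α) :=
          Real.rpow_le_rpow_of_nonpos h7 h6 (by linarith)
      _ = c * m i j ^ (-α) := by
          have hm0 : 0 ≤ m i j := by linarith [hm1 i j]
          rw [Real.div_rpow (by positivity) (by norm_num), Real.mul_rpow hδ.le hm0, hc,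
            Real.rpow_neg (by norm_num : (0:ℝ) ≤ 4)]
          rw [div_inv_eq_mul]
          ring
  -- the inner integral
  have hρ : 0 < ρ := hδ.trans_le hδρ
  have hpos : ∀ s t, 0 ≤ (max (dist (f s) (f t)) ρ) ^ (-α) := fun s t =>
    Real.rpow_nonneg (le_trans hρ.le (le_max_right _ _)) _
  have hind : ∀ (i : ℕ) (e : ℝ), Integrable ((EnergyC_I N i).indicator (fun _ => e))
      (volume : Measure unitInterval) := fun i e =>
    (integrable_const e).indicator (EnergyC_meas N i)
  have hinner : ∀ i < N, ∀ s ∈ EnergyC_I N i,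
      ∫ t : unitInterval, (max (dist (f s) (f t)) ρ) ^ (-α) ≤
        ∑ j ∈ Finset.range N, (1 / N) * (c * m i j ^ (-α)) := by
    intro i hi s hs
    have hI : Integrable (fun t : unitInterval => ∑ j ∈ Finset.range N,
        (EnergyC_I N j).indicator (fun _ => c * m i j ^ (-α)) t) volume :=
      integrable_finsetSum _ fun j _ => hind j _
    calc ∫ t : unitInterval, (max (dist (f s) (f t)) ρ) ^ (-α)
        ≤ ∫ t : unitInterval, ∑ j ∈ Finset.range N,
            (EnergyC_I N j).indicator (fun _ => c * m i j ^ (-α)) t := by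
          refine integral_mono_of_nonneg (Filter.Eventually.of_forall fun t => hpos s t) hI
            (Filter.Eventually.of_forall fun t => ?_)
          obtain ⟨j, hj, ht⟩ := EnergyC_cover hN t
          refine (hpt i hi j hj s hs t ht).trans ?_
          have h0 : c * m i j ^ (-α) =
              (EnergyC_I N j).indicator (fun _ => c * m i j ^ (-α)) t := by
            rw [Set.indicator_of_mem ht]
          rw [h0]
          refine Finset.single_le_sum (f := fun j =>
            (EnergyC_I N j).indicator (fun _ => c * m i j ^ (-α)) t) (fun k _ => ?_)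
            (Finset.mem_range.mpr hj)
          exact Set.indicator_nonneg (fun _ _ => mul_nonneg hc0.le (hmα i k)) _
      _ = ∑ j ∈ Finset.range N, (volume : Measure unitInterval).real (EnergyC_I N j) *
            (c * m i j ^ (-α)) := by
          rw [integral_finsetSum _ fun j _ => hind j _]
          refine Finset.sum_congr rfl fun j _ => ?_
          rw [integral_indicator_const _ (EnergyC_meas N j), smul_eq_mul]
      _ ≤ ∑ j ∈ Finset.range N, (1 / N) * (c * m i j ^ (-α)) :=
          Finset.sum_le_sum fun j _ => mul_le_mul_of_nonneg_right (EnergyC_vol j hN)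
            (mul_nonneg hc0.le (hmα i j))
  -- the outer integral
  have hinner0 : ∀ i, 0 ≤ ∑ j ∈ Finset.range N, (1 / N : ℝ) * (c * m i j ^ (-α)) := fun i =>
    Finset.sum_nonneg fun j _ => mul_nonneg (by positivity) (mul_nonneg hc0.le (hmα i j))
  have houter : En α ρ f ≤
      ∑ i ∈ Finset.range N, (1 / N) * ∑ j ∈ Finset.range N, (1 / N) * (c * m i j ^ (-α)) := by
    unfold En
    have hI : Integrable (fun s : unitInterval => ∑ i ∈ Finset.range N,
        (EnergyC_I N i).indicator
          (fun _ => ∑ j ∈ Finset.range N, (1 / N) * (c * m i j ^ (-α))) s) volume :=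
      integrable_finsetSum _ fun i _ => hind i _
    calc ∫ s : unitInterval, ∫ t : unitInterval, (max (dist (f s) (f t)) ρ) ^ (-α)
        ≤ ∫ s : unitInterval, ∑ i ∈ Finset.range N, (EnergyC_I N i).indicator
            (fun _ => ∑ j ∈ Finset.range N, (1 / N) * (c * m i j ^ (-α))) s := by
          refine integral_mono_of_nonneg (Filter.Eventually.of_forall fun s =>
            integral_nonneg fun t => hpos s t) hI (Filter.Eventually.of_forall fun s => ?_)
          obtain ⟨i, hi, hs⟩ := EnergyC_cover hN s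
          refine (hinner i hi s hs).trans ?_
          have h0 : ∑ j ∈ Finset.range N, (1 / N) * (c * m i j ^ (-α)) =
              (EnergyC_I N i).indicator
                (fun _ => ∑ j ∈ Finset.range N, (1 / N) * (c * m i j ^ (-α))) s := by
            rw [Set.indicator_of_mem hs]
          rw [h0]
          refine Finset.single_le_sum (f := fun i => (EnergyC_I N i).indicator
            (fun _ => ∑ j ∈ Finset.range N, (1 / N : ℝ) * (c * m i j ^ (-α))) s) (fun k _ => ?_)
            (Finset.mem_range.mpr hi)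
          exact Set.indicator_nonneg (fun _ _ => hinner0 k) _
      _ = ∑ i ∈ Finset.range N, (volume : Measure unitInterval).real (EnergyC_I N i) *
            ∑ j ∈ Finset.range N, (1 / N) * (c * m i j ^ (-α)) := by
          rw [integral_finsetSum _ fun i _ => hind i _]
          refine Finset.sum_congr rfl fun i _ => ?_
          rw [integral_indicator_const _ (EnergyC_meas N i), smul_eq_mul]
      _ ≤ _ := Finset.sum_le_sum fun i _ => mul_le_mul_of_nonneg_right (EnergyC_vol i hN)
            (hinner0 i)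
  have hsum : ∑ i ∈ Finset.range N, (1 / N : ℝ) *
      ∑ j ∈ Finset.range N, (1 / N) * (c * m i j ^ (-α)) =
      c / (N : ℝ) ^ 2 * ∑ i ∈ Finset.range N, ∑ j ∈ Finset.range N, m i j ^ (-α) := by
    simp only [Finset.mul_sum]
    refine Finset.sum_congr rfl fun i _ => Finset.sum_congr rfl fun j _ => ?_
    field_simp
  have hle : ∑ i ∈ Finset.range N, ∑ j ∈ Finset.range N, m i j ^ (-α) ≤
      energy (R.dm δ) α F := by
    rw [hen]
    have hsub : Finset.range N ⊆ Finset.range (N + 1) := Finset.range_mono (Nat.le_succ N)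
    calc ∑ i ∈ Finset.range N, ∑ j ∈ Finset.range N, m i j ^ (-α)
        ≤ ∑ i ∈ Finset.range N, ∑ j ∈ Finset.range (N + 1), m i j ^ (-α) :=
          Finset.sum_le_sum fun i _ => Finset.sum_le_sum_of_subset_of_nonneg hsub
            fun j _ _ => hmα i j
      _ ≤ _ := Finset.sum_le_sum_of_subset_of_nonneg hsub fun i _ _ =>
            Finset.sum_nonneg fun j _ => hmα i j
  have htime : (R.time δ F) ^ 2 = δ ^ (7/2 : ℝ) * (N : ℝ) ^ 2 := by
    unfold Rect.time
    rw [mul_pow, ← hNdef]
    congr 1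
    rw [← Real.rpow_natCast, ← Real.rpow_mul hδ.le]
    norm_num
  rw [htime]
  have hδ72 : (0 : ℝ) < δ ^ (7/2 : ℝ) := Real.rpow_pos_of_pos hδ _
  calc δ ^ (7/2 : ℝ) * (N : ℝ) ^ 2 * En α ρ f
      ≤ δ ^ (7/2 : ℝ) * (N : ℝ) ^ 2 * (c / (N : ℝ) ^ 2 * energy (R.dm δ) α F) := by
        refine mul_le_mul_of_nonneg_left ?_ (by positivity)
        refine houter.trans ?_
        rw [hsum]
        exact mul_le_mul_of_nonneg_left hle (by positivity)
    _ = 4 ^ α * ((δ ^ (7/2 : ℝ) * δ ^ (-α)) * energy (R.dm δ) α F) := by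
        rw [hc]
        field_simp
    _ = 4 ^ α * (δ ^ (7/2 - α) * energy (R.dm δ) α F) := by
        rw [← Real.rpow_add hδ, sub_eq_add_neg]

end H984N
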