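import Pool.Agent.H984R4.NP.EnergyC

/-!
D9: the limits have finite energy.
-/

namespace H984N

open H974 Finset H342P H984P MeasureTheory Filter Topology

/-- Energy of a curve. -/
noncomputable def EnI (α : ℝ) (f : C(unitInterval, ℂ)) : ENNReal :=
  ∫⁻ s : unitInterval, ∫⁻ t : unitInterval, (edist (f s) (f t)) ^ (-α)

/-- Bounded expected discrete energy. -/
def Rect.EnB (R : Rect) (α : ℝ) : Prop := ∃ C δ0 : ℝ, 0 < δ0 ∧ ∀ δ : ℝ, 0 < δ → δ ≤ δ0 →
  E (R.dm δ).edges (fun F => δ ^ (7/2 - α) * energy (R.dm δ) α F) ≤ C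

/-! ### the truncated kernel -/

/-- the truncated kernel -/
noncomputable def EnLimit_k (α ρ : ℝ) (x y : ℂ) : ℝ := (max (dist x y) ρ) ^ (-α)

theorem EnLimit_k_nonneg {α ρ : ℝ} (hρ : 0 < ρ) (x y : ℂ) : 0 ≤ EnLimit_k α ρ x y :=
  Real.rpow_nonneg (le_max_of_le_right hρ.le) _

theorem EnLimit_k_le {α ρ : ℝ} (hα : 0 ≤ α) (hρ : 0 < ρ) (x y : ℂ) :
    EnLimit_k α ρ x y ≤ ρ ^ (-α) :=
  Real.rpow_le_rpow_of_nonpos hρ (le_max_right _ _) (by linarith)

theorem EnLimit_k_anti {α ρ ρ' : ℝ} (hα : 0 ≤ α) (hρ : 0 < ρ) (h : ρ ≤ ρ') (x y : ℂ) :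
    EnLimit_k α ρ' x y ≤ EnLimit_k α ρ x y :=
  Real.rpow_le_rpow_of_nonpos (lt_max_of_lt_right hρ) (max_le_max le_rfl h) (by linarith)

theorem EnLimit_k_cont {α ρ : ℝ} (hρ : 0 < ρ) {Y : Type*} [TopologicalSpace Y] {u v : Y → ℂ}
    (hu : Continuous u) (hv : Continuous v) : Continuous fun y => EnLimit_k α ρ (u y) (v y) := by
  unfold EnLimit_k
  apply Continuous.rpow_const
  · exact (hu.dist hv).max continuous_const
  · intro y
    left
    exact (lt_max_of_lt_right hρ).ne'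

theorem EnLimit_k_norm {α ρ : ℝ} (hα : 0 ≤ α) (hρ : 0 < ρ) (x y : ℂ) :
    ‖EnLimit_k α ρ x y‖ ≤ ρ ^ (-α) := by
  rw [Real.norm_eq_abs, abs_of_nonneg (EnLimit_k_nonneg hρ x y)]
  exact EnLimit_k_le hα hρ x y

/-- inner integral -/
noncomputable def EnLimit_in (α ρ : ℝ) (f : C(unitInterval, ℂ)) (s : unitInterval) : ℝ :=
  ∫ t : unitInterval, EnLimit_k α ρ (f s) (f t)

theorem EnLimit_En (α ρ : ℝ) (f : C(unitInterval, ℂ)) :
    En α ρ f = ∫ s : unitInterval, EnLimit_in α ρ f s := rfl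

theorem EnLimit_in_cont {α ρ : ℝ} (hα : 0 ≤ α) (hρ : 0 < ρ) :
    Continuous fun q : C(unitInterval, ℂ) × unitInterval => EnLimit_in α ρ q.1 q.2 := by
  unfold EnLimit_in
  refine continuous_of_dominated (F := fun (q : C(unitInterval, ℂ) × unitInterval)
    (t : unitInterval) => EnLimit_k α ρ (q.1 q.2) (q.1 t)) (bound := fun _ => ρ ^ (-α)) ?_ ?_ ?_ ?_
  · intro q
    exact (EnLimit_k_cont hρ continuous_const q.1.continuous).aestronglyMeasurable
  · intro q
    exact Eventually.of_forall fun t => EnLimit_k_norm hα hρ _ _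
  · exact integrable_const _
  · refine Eventually.of_forall fun t => ?_
    apply EnLimit_k_cont hρ
    · exact continuous_fst.eval continuous_snd
    · exact continuous_fst.eval continuous_const

theorem EnLimit_in_nonneg {α ρ : ℝ} (hρ : 0 < ρ) (f : C(unitInterval, ℂ)) (s : unitInterval) :
    0 ≤ EnLimit_in α ρ f s := integral_nonneg fun _ => EnLimit_k_nonneg hρ _ _

theorem EnLimit_in_norm {α ρ : ℝ} (hα : 0 ≤ α) (hρ : 0 < ρ) (f : C(unitInterval, ℂ))
    (s : unitInterval) : ‖EnLimit_in α ρ f s‖ ≤ ρ ^ (-α) := by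
  unfold EnLimit_in
  have h := norm_integral_le_of_norm_le_const (μ := (volume : Measure unitInterval))
    (f := fun t => EnLimit_k α ρ (f s) (f t)) (C := ρ ^ (-α))
    (Eventually.of_forall fun t => EnLimit_k_norm hα hρ _ _)
  simpa using h

theorem EnLimit_En_cont {α ρ : ℝ} (hα : 0 ≤ α) (hρ : 0 < ρ) : Continuous (En α ρ) := by
  have h := EnLimit_in_cont hα hρ
  refine continuous_of_dominated (F := fun (f : C(unitInterval, ℂ))
    (s : unitInterval) => EnLimit_in α ρ f s) (bound := fun _ => ρ ^ (-α)) ?_ ?_ ?_ ?_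
  · intro f
    exact (h.comp (Continuous.prodMk_right f)).aestronglyMeasurable
  · intro f
    exact Eventually.of_forall fun s => EnLimit_in_norm hα hρ _ _
  · exact integrable_const _
  · exact Eventually.of_forall fun s => h.comp (Continuous.prodMk_left s)

theorem EnLimit_En_nonneg {α ρ : ℝ} (hρ : 0 < ρ) (f : C(unitInterval, ℂ)) : 0 ≤ En α ρ f :=
  integral_nonneg fun s => EnLimit_in_nonneg hρ f s

theorem EnLimit_En_le {α ρ : ℝ} (hα : 0 ≤ α) (hρ : 0 < ρ) (f : C(unitInterval, ℂ)) :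
    En α ρ f ≤ ρ ^ (-α) := by
  have h := norm_integral_le_of_norm_le_const (μ := (volume : Measure unitInterval))
    (f := fun s => EnLimit_in α ρ f s) (C := ρ ^ (-α))
    (Eventually.of_forall fun s => EnLimit_in_norm hα hρ f s)
  rw [← EnLimit_En] at h
  refine (le_abs_self _).trans ?_
  simpa using h

/-- the lintegral version of the truncated energy -/
theorem EnLimit_ofReal {α ρ : ℝ} (hα : 0 ≤ α) (hρ : 0 < ρ) (f : C(unitInterval, ℂ)) :
    ENNReal.ofReal (En α ρ f) = ∫⁻ s : unitInterval, ∫⁻ t : unitInterval,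
      ENNReal.ofReal (EnLimit_k α ρ (f s) (f t)) := by
  have hc := EnLimit_in_cont hα hρ
  rw [EnLimit_En, ofReal_integral_eq_lintegral_ofReal]
  · refine lintegral_congr fun s => ?_
    unfold EnLimit_in
    rw [ofReal_integral_eq_lintegral_ofReal]
    · refine Integrable.mono' (integrable_const (ρ ^ (-α)))
        (EnLimit_k_cont hρ continuous_const f.continuous).aestronglyMeasurable ?_
      exact Eventually.of_forall fun t => EnLimit_k_norm hα hρ _ _
    · exact Eventually.of_forall fun t => EnLimit_k_nonneg hρ _ _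
  · refine Integrable.mono' (integrable_const (ρ ^ (-α)))
        (hc.comp (Continuous.prodMk_right f)).aestronglyMeasurable ?_
    exact Eventually.of_forall fun s => EnLimit_in_norm hα hρ f s
  · exact Eventually.of_forall fun s => EnLimit_in_nonneg hρ f s

/-! ### the integral with respect to the law -/

theorem EnLimit_int (R : Rect) (δ : ℝ) (g : X → ℝ) (hg : StronglyMeasurable g) :
    ∫ p, g p ∂(R.lawM δ) = E (R.dm δ).edges (fun F => g (R.curve δ F, R.time δ F)) := by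
  rw [Ex_half]
  unfold Rect.lawM
  have h0 : ENNReal.ofReal ((1/2) ^ (R.dm δ).edges.card) ≠ ⊤ := ENNReal.ofReal_ne_top
  rw [integral_finsetSum_measure]
  · rw [Finset.mul_sum]
    apply Finset.sum_congr rfl
    intro F _
    rw [integral_smul_measure, integral_dirac' _ _ hg, ENNReal.toReal_ofReal (by positivity),
      smul_eq_mul]
  · intro F _
    exact (integrable_dirac' hg (by simp)).smul_measure h0

/-- the test function -/
noncomputable def EnLimit_Phi (α ρ : ℝ) (p : X) : ℝ := (min |p.2| 1) ^ 2 * En α ρ p.1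

theorem EnLimit_Phi_cont {α ρ : ℝ} (hα : 0 ≤ α) (hρ : 0 < ρ) :
    Continuous (EnLimit_Phi α ρ) := by
  unfold EnLimit_Phi
  have h1 : Continuous fun p : X => (min |p.2| 1) ^ 2 := by fun_prop
  exact h1.mul ((EnLimit_En_cont hα hρ).comp continuous_fst)

theorem EnLimit_min_sq (x : ℝ) : 0 ≤ (min |x| 1) ^ 2 ∧ (min |x| 1) ^ 2 ≤ 1 ∧
    (min |x| 1) ^ 2 ≤ x ^ 2 := by
  have h0 : 0 ≤ min |x| 1 := le_min (abs_nonneg x) zero_le_one
  refine ⟨by positivity, ?_, ?_⟩
  · exact pow_le_one₀ h0 (min_le_right _ _)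
  · rw [← sq_abs x]
    exact pow_le_pow_left₀ h0 (min_le_left _ _) 2

theorem EnLimit_Phi_nonneg {α ρ : ℝ} (hρ : 0 < ρ) (p : X) : 0 ≤ EnLimit_Phi α ρ p :=
  mul_nonneg (EnLimit_min_sq _).1 (EnLimit_En_nonneg hρ _)

theorem EnLimit_Phi_le {α ρ : ℝ} (hα : 0 ≤ α) (hρ : 0 < ρ) (p : X) :
    EnLimit_Phi α ρ p ≤ ρ ^ (-α) := by
  unfold EnLimit_Phi
  calc (min |p.2| 1) ^ 2 * En α ρ p.1 ≤ 1 * ρ ^ (-α) := by
        apply mul_le_mul (EnLimit_min_sq _).2.1 (EnLimit_En_le hα hρ _) (EnLimit_En_nonneg hρ _)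
          zero_le_one
    _ = _ := one_mul _

theorem EnLimit_Phi_bound (R : Rect) {α : ℝ} (hα : 0 ≤ α) {C δ0 : ℝ}
    (hE : ∀ δ : ℝ, 0 < δ → δ ≤ δ0 →
      E (R.dm δ).edges (fun F => δ ^ (7/2 - α) * energy (R.dm δ) α F) ≤ C)
    {δ ρ : ℝ} (hδ : 0 < δ) (hδρ : δ ≤ ρ) (hδ0 : δ ≤ δ0) :
    ∫ p, EnLimit_Phi α ρ p ∂(R.law δ : Measure X) ≤ 4 ^ α * C := by
  have hρ : 0 < ρ := hδ.trans_le hδρ
  have h1 : ∫ p, EnLimit_Phi α ρ p ∂(R.law δ : Measure X) =
      E (R.dm δ).edges (fun F => EnLimit_Phi α ρ (R.curve δ F, R.time δ F)) :=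
    EnLimit_int R δ _ (EnLimit_Phi_cont hα hρ).stronglyMeasurable
  rw [h1]
  have hOk : Ok (fun _ : Edg => (1/2 : ℝ)) := by
    intro e
    constructor <;> norm_num
  calc E (R.dm δ).edges (fun F => EnLimit_Phi α ρ (R.curve δ F, R.time δ F))
      ≤ E (R.dm δ).edges (fun F => 4 ^ α * (δ ^ (7/2 - α) * energy (R.dm δ) α F)) := by
        apply Ex_mono hOk
        intro F _
        refine le_trans ?_ (energy_curve R hδ hδρ hα F)
        unfold EnLimit_Phi
        exact mul_le_mul_of_nonneg_right (EnLimit_min_sq _).2.2 (EnLimit_En_nonneg hρ _)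
    _ = 4 ^ α * E (R.dm δ).edges (fun F => δ ^ (7/2 - α) * energy (R.dm δ) α F) :=
        Ex_mul_left _ _ _ _
    _ ≤ 4 ^ α * C := mul_le_mul_of_nonneg_left (hE δ hδ hδ0) (by positivity)

theorem EnLimit_lim (R : Rect) {α : ℝ} (hα : 0 ≤ α) {C δ0 : ℝ} (hδ0 : 0 < δ0)
    (hE : ∀ δ : ℝ, 0 < δ → δ ≤ δ0 →
      E (R.dm δ).edges (fun F => δ ^ (7/2 - α) * energy (R.dm δ) α F) ≤ C) {δ : ℕ → ℝ}
    (hδ : ∀ i, 0 < δ i) (hlim : Tendsto δ atTop (𝓝 0)) {μ : ProbabilityMeasure X}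
    (hμ : Tendsto (fun i => R.law (δ i)) atTop (𝓝 μ)) {ρ : ℝ} (hρ : 0 < ρ) :
    ∫⁻ p, ENNReal.ofReal (EnLimit_Phi α ρ p) ∂(μ : Measure X) ≤ ENNReal.ofReal (4 ^ α * C) := by
  have hc := EnLimit_Phi_cont hα hρ
  have hnorm : ∀ p, ‖EnLimit_Phi α ρ p‖ ≤ ρ ^ (-α) := by
    intro p
    rw [Real.norm_eq_abs, abs_of_nonneg (EnLimit_Phi_nonneg hρ p)]
    exact EnLimit_Phi_le hα hρ p
  let g : BoundedContinuousFunction X ℝ :=
    BoundedContinuousFunction.ofNormedAddCommGroup (EnLimit_Phi α ρ) hc (ρ ^ (-α)) hnorm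
  have h1 := (ProbabilityMeasure.tendsto_iff_forall_integral_tendsto.mp hμ) g
  have h2 : ∫ p, g p ∂(μ : Measure X) ≤ 4 ^ α * C := by
    refine le_of_tendsto h1 ?_
    have h3 : ∀ᶠ i in atTop, δ i ≤ min ρ δ0 :=
      hlim.eventually (Iic_mem_nhds (lt_min hρ hδ0))
    filter_upwards [h3] with i hi
    exact EnLimit_Phi_bound R hα hE (hδ i) (hi.trans (min_le_left _ _))
      (hi.trans (min_le_right _ _))
  have h4 : ∫ p, EnLimit_Phi α ρ p ∂(μ : Measure X) ≤ 4 ^ α * C := h2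
  rw [← ofReal_integral_eq_lintegral_ofReal]
  · exact ENNReal.ofReal_le_ofReal h4
  · refine Integrable.mono' (integrable_const (ρ ^ (-α))) hc.stronglyMeasurable.aestronglyMeasurable
      (Eventually.of_forall hnorm)
  · exact Eventually.of_forall fun p => EnLimit_Phi_nonneg hρ p

/-- the radii -/
noncomputable def EnLimit_r (n : ℕ) : ℝ := 1 / ((n : ℝ) + 1)

theorem EnLimit_r_pos (n : ℕ) : 0 < EnLimit_r n := by unfold EnLimit_r; positivity

theorem EnLimit_r_anti {m n : ℕ} (h : m ≤ n) : EnLimit_r n ≤ EnLimit_r m := by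
  unfold EnLimit_r
  have : (m : ℝ) ≤ n := by exact_mod_cast h
  apply one_div_le_one_div_of_le (by positivity)
  linarith

theorem EnLimit_k_sup {α : ℝ} (hα : 0 < α) (x y : ℂ) :
    (edist x y) ^ (-α) ≤ ⨆ n, ENNReal.ofReal (EnLimit_k α (EnLimit_r n) x y) := by
  rcases eq_or_lt_of_le (dist_nonneg (x := x) (y := y)) with h0 | h0
  · -- the supremum is infinite
    have hsup : (⨆ n, ENNReal.ofReal (EnLimit_k α (EnLimit_r n) x y)) = ⊤ := by
      rw [iSup_eq_top]
      intro b hb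
      obtain ⟨n, hn⟩ := exists_nat_gt (b.toReal ^ (1 / α))
      refine ⟨n, ?_⟩
      have hk : EnLimit_k α (EnLimit_r n) x y = ((n : ℝ) + 1) ^ α := by
        unfold EnLimit_k
        rw [← h0, max_eq_right (EnLimit_r_pos n).le]
        unfold EnLimit_r
        rw [one_div, Real.inv_rpow (by positivity), Real.rpow_neg (by positivity), inv_inv]
      rw [hk, ENNReal.lt_ofReal_iff_toReal_lt hb.ne]
      have hb0 : 0 ≤ b.toReal := ENNReal.toReal_nonneg
      calc b.toReal = (b.toReal ^ (1 / α)) ^ α := by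
            rw [← Real.rpow_mul hb0, one_div, inv_mul_cancel₀ hα.ne', Real.rpow_one]
        _ < ((n : ℝ) + 1) ^ α := by
            apply Real.rpow_lt_rpow (Real.rpow_nonneg hb0 _) _ hα
            linarith
    rw [hsup]
    exact le_top
  · obtain ⟨n, hn⟩ := exists_nat_one_div_lt h0
    refine le_trans (le_of_eq ?_) (le_iSup _ n)
    unfold EnLimit_k
    have hmax : max (dist x y) (EnLimit_r n) = dist x y := max_eq_left hn.le
    rw [hmax, edist_dist, ENNReal.ofReal_rpow_of_pos h0]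

theorem limit_energy (R : Rect) {α : ℝ} (hα : 0 < α) (hE : R.EnB α) {δ : ℕ → ℝ}
    (hδ : ∀ i, 0 < δ i) (hlim : Tendsto δ atTop (𝓝 0)) {μ : ProbabilityMeasure X}
    (hμ : Tendsto (fun i => R.law (δ i)) atTop (𝓝 μ)) :
    ∀ᵐ p ∂(μ : Measure X), 0 < p.2 → EnI α p.1 ≠ ⊤ := by
  obtain ⟨C, δ0, hδ0, hC⟩ := hE
  have hmeas : ∀ n, Measurable fun p : X => ENNReal.ofReal (EnLimit_Phi α (EnLimit_r n) p) :=
    fun n => (EnLimit_Phi_cont hα.le (EnLimit_r_pos n)).measurable.ennreal_ofReal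
  have hmono : Monotone fun (n : ℕ) (p : X) => ENNReal.ofReal (EnLimit_Phi α (EnLimit_r n) p) := by
    intro m n hmn p
    apply ENNReal.ofReal_le_ofReal
    unfold EnLimit_Phi
    apply mul_le_mul_of_nonneg_left _ (EnLimit_min_sq _).1
    rw [← ENNReal.ofReal_le_ofReal_iff (EnLimit_En_nonneg (EnLimit_r_pos n) _),
      EnLimit_ofReal hα.le (EnLimit_r_pos m), EnLimit_ofReal hα.le (EnLimit_r_pos n)]
    refine lintegral_mono fun s => lintegral_mono fun t => ENNReal.ofReal_le_ofReal ?_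
    exact EnLimit_k_anti hα.le (EnLimit_r_pos n) (EnLimit_r_anti hmn) _ _
  have hint : ∫⁻ p, ⨆ n, ENNReal.ofReal (EnLimit_Phi α (EnLimit_r n) p) ∂(μ : Measure X) ≤
      ENNReal.ofReal (4 ^ α * C) := by
    rw [lintegral_iSup hmeas hmono]
    exact iSup_le fun n => EnLimit_lim R hα.le hδ0 hC hδ hlim hμ (EnLimit_r_pos n)
  have hae := ae_lt_top (Measurable.iSup hmeas)
    (lt_of_le_of_lt hint ENNReal.ofReal_lt_top).ne
  filter_upwards [hae] with p hp hT
  set c : ℝ := (min |p.2| 1) ^ 2 with hc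
  have hc0 : 0 < c := by
    have : 0 < min |p.2| 1 := lt_min (abs_pos.mpr hT.ne') zero_lt_one
    positivity
  have h1 : ∀ n, ENNReal.ofReal (EnLimit_Phi α (EnLimit_r n) p) =
      ENNReal.ofReal c * ENNReal.ofReal (En α (EnLimit_r n) p.1) := by
    intro n
    unfold EnLimit_Phi
    rw [← hc, ENNReal.ofReal_mul hc0.le]
  simp only [h1] at hp
  rw [← ENNReal.mul_iSup] at hp
  have h2 : (⨆ n, ENNReal.ofReal (En α (EnLimit_r n) p.1)) ≠ ⊤ := by
    intro htop
    rw [htop, ENNReal.mul_top (by rw [Ne, ENNReal.ofReal_eq_zero]; linarith)] at hp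
    exact lt_irrefl _ hp
  have h3 : EnI α p.1 ≤ ⨆ n, ENNReal.ofReal (En α (EnLimit_r n) p.1) := by
    have hkm : ∀ n (s : unitInterval), Measurable fun t : unitInterval =>
        ENNReal.ofReal (EnLimit_k α (EnLimit_r n) (p.1 s) (p.1 t)) := fun n s =>
      (EnLimit_k_cont (EnLimit_r_pos n) continuous_const p.1.continuous).measurable.ennreal_ofReal
    have hkm2 : ∀ n, Measurable fun s : unitInterval => ∫⁻ t : unitInterval,
        ENNReal.ofReal (EnLimit_k α (EnLimit_r n) (p.1 s) (p.1 t)) := by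
      intro n
      apply Measurable.lintegral_prod_right' (f := fun q : unitInterval × unitInterval =>
        ENNReal.ofReal (EnLimit_k α (EnLimit_r n) (p.1 q.1) (p.1 q.2)))
      exact (EnLimit_k_cont (EnLimit_r_pos n) (p.1.continuous.comp continuous_fst)
        (p.1.continuous.comp continuous_snd)).measurable.ennreal_ofReal
    calc EnI α p.1 ≤ ∫⁻ s : unitInterval, ∫⁻ t : unitInterval,
          ⨆ n, ENNReal.ofReal (EnLimit_k α (EnLimit_r n) (p.1 s) (p.1 t)) :=
          lintegral_mono fun s => lintegral_mono fun t => EnLimit_k_sup hα _ _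
      _ = ∫⁻ s : unitInterval, ⨆ n, ∫⁻ t : unitInterval,
          ENNReal.ofReal (EnLimit_k α (EnLimit_r n) (p.1 s) (p.1 t)) := by
          refine lintegral_congr fun s => ?_
          rw [lintegral_iSup (fun n => hkm n s)]
          intro m n hmn t
          exact ENNReal.ofReal_le_ofReal
            (EnLimit_k_anti hα.le (EnLimit_r_pos n) (EnLimit_r_anti hmn) _ _)
      _ = ⨆ n, ∫⁻ s : unitInterval, ∫⁻ t : unitInterval,
          ENNReal.ofReal (EnLimit_k α (EnLimit_r n) (p.1 s) (p.1 t)) := by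
          rw [lintegral_iSup hkm2]
          intro m n hmn s
          refine lintegral_mono fun t => ENNReal.ofReal_le_ofReal ?_
          exact EnLimit_k_anti hα.le (EnLimit_r_pos n) (EnLimit_r_anti hmn) _ _
      _ = ⨆ n, ENNReal.ofReal (En α (EnLimit_r n) p.1) := by
          congr 1
          funext n
          rw [EnLimit_ofReal hα.le (EnLimit_r_pos n)]
  exact (lt_of_le_of_lt h3 (lt_top_iff_ne_top.mpr h2)).ne

end H984N
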