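import Pool.Agent.H984R4.NP.Model

/-!
D6: a compact set of curves (Arzela-Ascoli).
-/

namespace H984N

open H974 Finset H342P H984P MeasureTheory Filter Topology

/-- Curves with a given Hölder constant and natural time in a compact interval. -/
def Good (β Λ : ℝ) : Set X :=
  {p | ‖p.1 0‖ ≤ Λ ∧ (∀ s t : unitInterval, dist (p.1 s) (p.1 t) ≤ Λ * |(s : ℝ) - t| ^ β) ∧
    Λ⁻¹ ≤ p.2 ∧ p.2 ≤ Λ}

/-- the same for functions -/
def GoodFun (β Λ : ℝ) : Set (unitInterval → ℂ) :=
  {f | ‖f 0‖ ≤ Λ ∧ ∀ s t : unitInterval, dist (f s) (f t) ≤ Λ * |(s : ℝ) - t| ^ β}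

theorem good_F_cont {β Λ : ℝ} (hβ : 0 < β) {f : unitInterval → ℂ} (hf : f ∈ GoodFun β Λ) :
    Continuous f := by
  rw [continuous_iff_continuousAt]
  intro t
  rw [ContinuousAt, tendsto_iff_dist_tendsto_zero]
  have h1 : Tendsto (fun s : unitInterval => Λ * |(s : ℝ) - t| ^ β) (𝓝 t) (𝓝 0) := by
    have h2 : Continuous fun s : unitInterval => Λ * |(s : ℝ) - t| ^ β := by
      refine continuous_const.mul ?_
      refine Continuous.rpow_const ?_ (fun _ => Or.inr hβ.le)
      exact (continuous_subtype_val.sub continuous_const).abs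
    have h3 := h2.tendsto t
    simp only [sub_self, abs_zero, Real.zero_rpow hβ.ne', mul_zero] at h3
    exact h3
  exact squeeze_zero (fun _ => dist_nonneg) (fun s => hf.2 s t) h1

theorem good_F_compact {β Λ : ℝ} (hΛ : 0 ≤ Λ) (hβ : 0 < β) : IsCompact (GoodFun β Λ) := by
  have h1 : GoodFun β Λ ⊆ Set.pi Set.univ (fun _ => Metric.closedBall (0 : ℂ) (2 * Λ)) := by
    intro f hf t _
    rw [mem_closedBall_zero_iff]
    have h2 := hf.2 t 0
    have h3 : |(t : ℝ) - ((0 : unitInterval) : ℝ)| ^ β ≤ 1 := by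
      refine Real.rpow_le_one (abs_nonneg _) ?_ hβ.le
      have h0 : ((0 : unitInterval) : ℝ) = 0 := rfl
      rw [h0, sub_zero, abs_of_nonneg t.2.1]
      exact t.2.2
    have h4 : dist (f t) (f 0) ≤ Λ := h2.trans (by nlinarith)
    have h5 : ‖f t‖ ≤ dist (f t) (f 0) + ‖f 0‖ := by
      rw [dist_eq_norm]
      calc ‖f t‖ = ‖(f t - f 0) + f 0‖ := by simp
        _ ≤ _ := norm_add_le _ _
    linarith [hf.1]
  refine (isCompact_univ_pi fun _ => isCompact_closedBall (0 : ℂ) (2 * Λ)).of_isClosed_subset ?_ h1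
  have h2 : GoodFun β Λ = {f | ‖f 0‖ ≤ Λ} ∩ ⋂ s : unitInterval, ⋂ t : unitInterval,
      {f | dist (f s) (f t) ≤ Λ * |(s : ℝ) - t| ^ β} := by
    ext f
    simp only [GoodFun, Set.mem_ofPred_eq, Set.mem_inter_iff, Set.mem_iInter]
  rw [h2]
  refine (isClosed_le ((continuous_apply _).norm) continuous_const).inter ?_
  exact isClosed_iInter fun s => isClosed_iInter fun t =>
    isClosed_le ((continuous_apply s).dist (continuous_apply t)) continuous_const

theorem good_compact {β Λ : ℝ} (hβ : 0 < β) : IsCompact (Good β Λ) := by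
  rcases lt_or_ge Λ 0 with hΛ | hΛ
  · have : Good β Λ = ∅ := by
      ext p
      simp only [Good, Set.mem_ofPred_eq, Set.mem_empty_iff_false, iff_false]
      rintro ⟨h, -⟩
      linarith [norm_nonneg (p.1 0)]
    rw [this]
    exact isCompact_empty
  set S : Set C(unitInterval, ℂ) := {f | (f : unitInterval → ℂ) ∈ GoodFun β Λ} with hS
  have hSc : IsCompact S := by
    refine ArzelaAscoli.isCompact_of_equicontinuous S ?_ ?_
    · have : ContinuousMap.toFun '' S = GoodFun β Λ := by
        ext f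
        constructor
        · rintro ⟨g, hg, rfl⟩
          exact hg
        · intro hf
          exact ⟨⟨f, good_F_cont hβ hf⟩, hf, rfl⟩
      rw [this]
      exact good_F_compact hΛ hβ
    · intro t
      rw [Metric.equicontinuousAt_iff_right]
      intro ε hε
      have h2 : Continuous fun s : unitInterval => Λ * |(t : ℝ) - s| ^ β := by
        refine continuous_const.mul ?_
        refine Continuous.rpow_const ?_ (fun _ => Or.inr hβ.le)
        exact (continuous_const.sub continuous_subtype_val).abs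
      have h3 := h2.tendsto t
      simp only [sub_self, abs_zero, Real.zero_rpow hβ.ne', mul_zero] at h3
      filter_upwards [h3.eventually (gt_mem_nhds hε)] with s hs
      intro f
      exact (f.2.2 t s).trans_lt hs
  have h1 : Good β Λ = S ×ˢ Set.Icc Λ⁻¹ Λ := by
    ext p
    simp [Good, hS, GoodFun, and_assoc]
  rw [h1]
  exact hSc.prod isCompact_Icc

/-- Uniform Hölder continuity and tightness of the natural time. -/
def Rect.TightH (R : Rect) (β : ℝ) : Prop := ∀ ε : ℝ, 0 < ε → ∃ Λ δ0 : ℝ, 0 < Λ ∧ 0 < δ0 ∧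
  ∀ δ : ℝ, 0 < δ → δ ≤ δ0 → R.prob δ (fun F => (R.curve δ F, R.time δ F) ∉ Good β Λ) ≤ ε

end H984N
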