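import Pool.Agent.H984R4.NP.Final

/-!
Final form: the Hölder exponent `4/7` is optimal on every subarc, and the curve is the interface.
-/

namespace H984N

open H974 Finset H342P H984P MeasureTheory Filter Topology

theorem dimH_le_of_holderOn {f : C(unitInterval, ℂ)} {β Λ : ℝ} (hβ : 0 < β)
    {A : Set unitInterval}
    (h : ∀ s ∈ A, ∀ t ∈ A, dist (f s) (f t) ≤ Λ * |(s : ℝ) - t| ^ β) :
    dimH (f '' A) ≤ ENNReal.ofReal (1 / β) := by
  have hH : HolderOnWith Λ.toNNReal β.toNNReal f A := by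
    intro s hs t ht
    rw [edist_dist, edist_dist, Real.coe_toNNReal β hβ.le]
    have h1 : dist (f s) (f t) ≤ max Λ 0 * |(s : ℝ) - t| ^ β :=
      (h s hs t ht).trans (mul_le_mul_of_nonneg_right (le_max_left _ _) (by positivity))
    refine (ENNReal.ofReal_le_ofReal h1).trans ?_
    rw [ENNReal.ofReal_mul (le_max_right _ _)]
    have h2 : dist s t = |(s : ℝ) - t| := rfl
    rw [h2, ENNReal.ofReal_rpow_of_nonneg (abs_nonneg _) hβ.le]
    apply le_of_eq
    congr 1
    rw [ENNReal.ofReal]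
    congr 1
    simp [Real.toNNReal]
  have hβ' : 0 < β.toNNReal := Real.toNNReal_pos.2 hβ
  refine (hH.dimH_image_le hβ').trans ?_
  have hA : dimH A ≤ 1 := by
    have h1 : dimH ((Subtype.val : unitInterval → ℝ) '' A) = dimH A :=
      isometry_subtype_coe.dimH_image A
    rw [← h1, ← Real.dimH_univ]
    exact dimH_mono (Set.subset_univ _)
  refine (ENNReal.div_le_div_right hA _).trans ?_
  rw [ENNReal.ofReal_div_of_pos hβ, ENNReal.ofReal_one]
  rfl

theorem not_holderOn {f : C(unitInterval, ℂ)} {s t : unitInterval}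
    (hd : dimH (f '' Set.Icc s t) = 7 / 4) {β : ℝ} (hβ : 4/7 < β) :
    ¬ ∃ Λ : ℝ, ∀ u ∈ Set.Icc s t, ∀ v ∈ Set.Icc s t,
      dist (f u) (f v) ≤ Λ * |(u : ℝ) - v| ^ β := by
  rintro ⟨Λ, h⟩
  have h1 := dimH_le_of_holderOn (by linarith) h
  rw [hd, ← Final_74] at h1
  have h2 : (1 / β : ℝ) < 7 / 4 := by
    rw [div_lt_iff₀ (by linarith)]
    linarith
  exact absurd h1 (not_le.2 ((ENNReal.ofReal_lt_ofReal_iff (by norm_num)).2 h2))

end H984N
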