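import Pool.Agent.H984R4.NP.Defs

/-!
The exploration path of critical bond percolation on `δ ℤ²` in a rectangle, in its natural
parametrisation.
-/

namespace H984N

open H974 Finset H342P H984P MeasureTheory

/-- A rectangle `D = (-A, B) × (0, H)` with the boundary points `a = t + i H` and `b = 0`. -/
structure Rect where
  A : ℝ
  B : ℝ
  H : ℝ
  t : ℝ
  hA : 0 < A
  hB : 0 < B
  hH : 0 < H
  ht1 : -A < t
  ht2 : t < B

/-- Midpoint of the edge of the medial lattice between the vertex and the face of a state; the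
lattice vertex `(x, y)` stands for the point `δ (x + i (y + 1))` of `δ ℤ²`. -/
noncomputable def pos (δ : ℝ) (σ : St) : ℂ :=
  match σ.2 with
  | .ne => ⟨δ * (σ.1.1 + 1/4), δ * (σ.1.2 + 1 + 1/4)⟩
  | .nw => ⟨δ * (σ.1.1 - 1/4), δ * (σ.1.2 + 1 + 1/4)⟩
  | .sw => ⟨δ * (σ.1.1 - 1/4), δ * (σ.1.2 + 1 - 1/4)⟩
  | .se => ⟨δ * (σ.1.1 + 1/4), δ * (σ.1.2 + 1 - 1/4)⟩

/-- `0` for `x ≤ 0`, `x` for `0 ≤ x ≤ 1`, `1` for `1 ≤ x`. -/
noncomputable def clamp (x : ℝ) : ℝ := max 0 (min 1 x)

/-- The piecewise linear curve on `[0, 1]` which is at `p k` at time `k / N`, `0 ≤ k ≤ N`. -/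
noncomputable def pl (N : ℕ) (p : ℕ → ℂ) : C(unitInterval, ℂ) where
  toFun s := p 0 + ∑ k ∈ Finset.range N, ((clamp (s * N - k) : ℝ) : ℂ) * (p (k + 1) - p k)
  continuous_toFun := by
    unfold clamp
    fun_prop

/-- Curves with their natural time. -/
abbrev X : Type := C(unitInterval, ℂ) × ℝ

noncomputable instance instMC : MeasurableSpace C(unitInterval, ℂ) := borel _
instance instBC : BorelSpace C(unitInterval, ℂ) := ⟨rfl⟩

namespace Rect

variable (R : Rect)

/-- The domain. -/
def D : Set ℂ := {z | -R.A < z.re ∧ z.re < R.B ∧ 0 < z.im ∧ z.im < R.H}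

/-- The point `a`. -/
noncomputable def a : ℂ := ⟨R.t, R.H⟩

/-- The lattice rectangle: the vertices `(x, y)` such that `δ (x + i (y + 1))` is in `D`. -/
noncomputable def dm (δ : ℝ) : Dm := ⟨⌊-(R.A / δ)⌋ + 1, ⌈R.B / δ⌉ - 1, ⌈R.H / δ⌉ - 2, ⌊R.t / δ⌋⟩

/-- The exploration path as a curve with constant speed. -/
noncomputable def curve (δ : ℝ) (F : Finset Edg) : C(unitInterval, ℂ) :=
  pl ((R.dm δ).len F) (fun k => pos δ ((R.dm δ).walk F k))

/-- Its natural time: the number of steps times `δ ^ (7/4)`. -/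
noncomputable def time (δ : ℝ) (F : Finset Edg) : ℝ := δ ^ (7/4 : ℝ) * (R.dm δ).len F

/-- The law of the exploration path and its natural time; all sets of open edges have the same
probability. -/
noncomputable def lawM (δ : ℝ) : Measure X :=
  ∑ F ∈ (R.dm δ).edges.powerset, ENNReal.ofReal ((1/2) ^ (R.dm δ).edges.card) •
    Measure.dirac (R.curve δ F, R.time δ F)

/-- Probability at mesh `δ`. -/
noncomputable def prob (δ : ℝ) (A : Finset Edg → Prop) : ℝ := P (R.dm δ).edges A

end Rect

theorem Ex_half (S : Finset Edg) (g : Finset Edg → ℝ) :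
    E S g = (1/2) ^ S.card * ∑ F ∈ S.powerset, g F := by
  unfold E Ex
  rw [Finset.mul_sum]
  apply Finset.sum_congr rfl
  intro F hF
  rw [Finset.prod_const, Finset.prod_const, show (1 - (1/2:ℝ)) = 1/2 by norm_num, ← pow_add,
    Finset.card_sdiff_of_subset (Finset.mem_powerset.mp hF)]
  congr 2
  have := Finset.card_le_card (Finset.mem_powerset.mp hF)
  omega

namespace Rect

variable (R : Rect)

theorem lawM_apply (δ : ℝ) {G : Set X} (hG : MeasurableSet G) :
    R.lawM δ G = ENNReal.ofReal (R.prob δ (fun F => (R.curve δ F, R.time δ F) ∈ G)) := by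
  classical
  unfold lawM
  rw [Measure.finsetSum_apply]
  unfold prob P Pr
  have h := Ex_half (R.dm δ).edges (fun F => ind ((R.curve δ F, R.time δ F) ∈ G))
  unfold E at h
  rw [h, ENNReal.ofReal_mul (by positivity), ENNReal.ofReal_sum_of_nonneg
    (fun _ _ => ind_nonneg _), Finset.mul_sum]
  apply Finset.sum_congr rfl
  intro F _
  rw [Measure.smul_apply, Measure.dirac_apply' _ hG, smul_eq_mul]
  congr 1
  by_cases h : (R.curve δ F, R.time δ F) ∈ G
  · rw [ind_of h, Set.indicator_of_mem h]; simp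
  · rw [ind_not_of h, Set.indicator_of_notMem h]; simp

theorem lawM_univ (δ : ℝ) : R.lawM δ Set.univ = 1 := by
  rw [R.lawM_apply δ MeasurableSet.univ]
  have : R.prob δ (fun F => (R.curve δ F, R.time δ F) ∈ (Set.univ : Set X)) = 1 :=
    Pr_true _ (fun F _ => Set.mem_univ _)
  rw [this]
  simp

/-- The law of the exploration path and its natural time at mesh `δ`. -/
noncomputable def law (δ : ℝ) : ProbabilityMeasure X := ⟨R.lawM δ, ⟨R.lawM_univ δ⟩⟩

theorem law_apply (δ : ℝ) {G : Set X} (hG : MeasurableSet G) :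
    (R.law δ : Measure X) G =
      ENNReal.ofReal (R.prob δ (fun F => (R.curve δ F, R.time δ F) ∈ G)) := R.lawM_apply δ hG

end Rect

end H984N
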