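import Pool.Agent.H984R4.NP.Defs
import Pool.Agent.H984R3.Per.Basic

/-!
A2: up to its end the exploration path has the cluster of the wired arc on its right hand side
and the dual cluster of the complementary arc on its left hand side.
-/

namespace H984N

open H974 Finset H342P H984P

/-- Faces of the dual cluster are faces inside or faces of `outer`. -/
theorem dclu_in {D : Dm} (hD : D.Ok) {F : Finset Edg} {f : Vtx} (hf : f ∈ D.dclu F) :
    f ∈ D.outer ∨ ((D.l ≤ f.1 ∧ f.1 < D.r) ∧ 0 ≤ f.2 ∧ f.2 < D.h) := by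
  obtain ⟨h1, h2, h3, h4, h5⟩ := hD
  obtain ⟨g, hg, hr⟩ := hf
  unfold DReach at hr
  rcases Relation.ReflTransGen.cases_tail hr with h | ⟨f', _, hst⟩
  · rw [h]
    exact Or.inl hg
  · obtain ⟨⟨x, y, b⟩, ⟨he, hc⟩, hor⟩ := hst
    have hw : ((x, y, b) : Edg) ∉ D.wir := fun hh => hc (Or.inr hh)
    unfold Dm.wir at hw
    unfold Dm.edges at he
    rw [Finset.mem_coe] at he
    simp only [Set.mem_ofPred_eq, not_or, not_and] at hw
    obtain ⟨fx, fy⟩ := f
    unfold Dm.outer
    simp only [Set.mem_ofPred_eq]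
    cases b
    · rw [mem_RE_false] at he
      simp only [dsrc_false, dtgt_mk, Prod.mk.injEq] at hor
      simp at hw
      rcases hor with ⟨_, h7, h8⟩ | ⟨⟨h7, h8⟩, _⟩ <;> omega
    · rw [mem_RE_true] at he
      simp only [dsrc_true, dtgt_mk, Prod.mk.injEq] at hor
      simp at hw
      rcases hor with ⟨_, h7, h8⟩ | ⟨⟨h7, h8⟩, _⟩ <;> omega

/-- Both ends of an open edge are in the rectangle. -/
theorem clu_cfg_in {D : Dm} (hD : D.Ok) {F : Finset Edg} (hF : F ⊆ D.edges) {e : Edg}
    (he : e ∈ D.cfg F) : inR D.l D.r 0 D.h (src e) ∧ inR D.l D.r 0 D.h (tgt e) := by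
  obtain ⟨h1, h2, h3, h4, h5⟩ := hD
  obtain ⟨x, y, b⟩ := e
  unfold inR
  rcases he with he | he
  · have h6 := hF (Finset.mem_coe.1 he)
    unfold Dm.edges at h6
    cases b
    · rw [mem_RE_false] at h6
      simp only [src_mk, tgt_false]
      omega
    · rw [mem_RE_true] at h6
      simp only [src_mk, tgt_true]
      omega
  · unfold Dm.wir at he
    simp only [Set.mem_ofPred_eq] at he
    cases b
    · simp only [src_mk, tgt_false]
      simp at he
      omega
    · simp only [src_mk, tgt_true]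
      simp at he
      omega

/-- The cluster is in the rectangle. -/
theorem clu_inR {D : Dm} (hD : D.Ok) {F : Finset Edg} (hF : F ⊆ D.edges) {v : Vtx}
    (hv : v ∈ D.clu F) : inR D.l D.r 0 D.h v := by
  have hr : Reach (D.cfg F) (0, 0) v := hv
  unfold Reach at hr
  rcases Relation.ReflTransGen.cases_tail hr with h | ⟨v', _, hst⟩
  · rw [h]
    obtain ⟨h1, h2, h3, h4, h5⟩ := hD
    unfold inR
    simp only
    omega
  · obtain ⟨e, he, hor⟩ := hst
    have h1 := clu_cfg_in hD hF he
    rcases hor with ⟨_, h2⟩ | ⟨h2, _⟩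
    · rw [← h2]
      exact h1.2
    · rw [← h2]
      exact h1.1

theorem clu_bottom {D : Dm} (F : Finset Edg) : ∀ n : ℕ, (n : ℤ) ≤ -D.l →
    Reach (D.cfg F) (0, 0) (-(n : ℤ), 0)
  | 0, _ => by
    simp only [Nat.cast_zero, neg_zero]
    exact Reach.refl _ _
  | n + 1, h => by
    push_cast at h
    refine (clu_bottom F n (by omega)).trans (Adj.reach ⟨(-(n : ℤ) - 1, 0, true), ?_, ?_⟩)
    · refine Or.inr (Or.inr (Or.inr ?_))
      simp only [true_and]
      omega
    · right
      simp only [src_mk, tgt_true, Prod.mk.injEq, and_true, true_and]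
      push_cast
      omega

theorem clu_left {D : Dm} (F : Finset Edg) : ∀ n : ℕ, (n : ℤ) ≤ D.h →
    Reach (D.cfg F) (D.l, 0) (D.l, (n : ℤ))
  | 0, _ => by
    simp only [Nat.cast_zero]
    exact Reach.refl _ _
  | n + 1, h => by
    push_cast at h
    refine (clu_left F n (by omega)).trans (Adj.reach ⟨(D.l, (n : ℤ), false), ?_, ?_⟩)
    · refine Or.inr (Or.inr (Or.inl ?_))
      simp only [true_and]
      omega
    · left
      simp only [src_mk, tgt_false, Prod.mk.injEq, true_and]
      push_cast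
      omega

theorem clu_top {D : Dm} (F : Finset Edg) : ∀ n : ℕ, D.l + (n : ℤ) ≤ D.t →
    Reach (D.cfg F) (D.l, D.h) (D.l + (n : ℤ), D.h)
  | 0, _ => by
    simp only [Nat.cast_zero, add_zero]
    exact Reach.refl _ _
  | n + 1, h => by
    push_cast at h
    refine (clu_top F n (by omega)).trans (Adj.reach ⟨(D.l + (n : ℤ), D.h, true), ?_, ?_⟩)
    · refine Or.inr (Or.inl ?_)
      simp only [true_and]
      omega
    · left
      simp only [src_mk, tgt_true, Prod.mk.injEq, and_true, true_and]
      push_cast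
      omega

theorem clu_start {D : Dm} (hD : D.Ok) (F : Finset Edg) : (D.t, D.h) ∈ D.clu F := by
  obtain ⟨h1, h2, h3, h4, h5⟩ := hD
  have e1 := clu_bottom (D := D) F (-D.l).toNat (by omega)
  have e2 := clu_left (D := D) F D.h.toNat (by omega)
  have e3 := clu_top (D := D) F (D.t - D.l).toNat (by omega)
  have f1 : -(((-D.l).toNat : ℕ) : ℤ) = D.l := by omega
  have f2 : ((D.h.toNat : ℕ) : ℤ) = D.h := by omega
  have f3 : D.l + (((D.t - D.l).toNat : ℕ) : ℤ) = D.t := by omega
  rw [f1] at e1
  rw [f2] at e2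
  rw [f3] at e3
  exact (e1.trans e2).trans e3

theorem clu_walk_succ (D : Dm) (F : Finset Edg) (k : ℕ) :
    D.walk F (k + 1) = nxt (D.cfg F) (D.walk F k) := orb_succ _ _ _

theorem clu_ne_stop {D : Dm} {F : Finset Edg} {k : ℕ} (hk : k < D.len F) :
    D.walk F k ≠ Dm.stop := fun h => Nat.notMem_of_lt_sInf hk h

theorem walk_clu {D : Dm} (hD : D.Ok) {F : Finset Edg} (hF : F ⊆ D.edges) {k : ℕ}
    (hk : k ≤ D.len F) : (D.walk F k).1 ∈ D.clu F ∧ face (D.walk F k) ∈ D.dclu F := by
  induction k with
  | zero =>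
    have e : D.walk F 0 = D.start := rfl
    rw [e]
    refine ⟨clu_start hD F, (D.t, D.h), ?_, DReach.refl _ _⟩
    refine Or.inr (Or.inr ?_)
    simp only [true_and]
    exact ⟨le_rfl, hD.le_r⟩
  | succ k ih =>
    obtain ⟨ih1, ih2⟩ := ih (by omega)
    have hns := clu_ne_stop (D := D) (F := F) (k := k) (by omega)
    rw [clu_walk_succ]
    by_cases h : ae (D.walk F k) ∈ D.cfg F
    · rw [nxt_open h, p2_face_mv]
      refine ⟨?_, ih2⟩
      have hr : Reach (D.cfg F) (0, 0) (D.walk F k).1 := ih1
      refine hr.trans (Adj.reach ⟨ae (D.walk F k), h, ?_⟩)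
      exact p2_ends _
    · rw [nxt_closed h, p2_rt_fst]
      refine ⟨ih1, ?_⟩
      by_cases he : ae (D.walk F k) ∈ D.edges
      · obtain ⟨g, hg, hr⟩ := ih2
        refine ⟨g, hg, hr.trans (DAdj.reach ⟨ae (D.walk F k), ⟨he, h⟩, ?_⟩)⟩
        exact p2_dends _
      · have hv := clu_inR hD hF ih1
        have hf := dclu_in hD ih2
        have hout : face (rt (D.walk F k)) ∈ D.outer := by
          generalize D.walk F k = σ at *
          obtain ⟨⟨x, y⟩, q⟩ := σ
          obtain ⟨h1, h2, h3, h4, h5⟩ := hD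
          unfold inR at hv
          unfold Dm.outer at hf ⊢
          unfold Dm.edges at he
          unfold Dm.stop at hns
          simp only [Set.mem_ofPred_eq] at hf ⊢
          cases q
          · simp only [ae_ne, mem_RE_true, rt_ne, face_se, face_ne] at he hf hv ⊢
            omega
          · simp only [ae_nw, mem_RE_false, rt_nw, face_nw, face_ne] at he hf hv ⊢
            omega
          · simp only [ae_sw, mem_RE_true, rt_sw, face_nw, face_sw] at he hf hv ⊢
            omega
          · simp only [ae_se, mem_RE_false, rt_se, face_se, face_sw] at he hf hv ⊢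
            have h6 : ¬ (x = 0 ∧ y = 0) := by
              rintro ⟨rfl, rfl⟩
              exact hns rfl
            omega
        exact ⟨_, hout, DReach.refl _ _⟩

/-- A closed edge examined before the end is an edge of the rectangle, or both its faces are
outer faces. -/
theorem walk_closed {D : Dm} (hD : D.Ok) {F : Finset Edg} (hF : F ⊆ D.edges) {k : ℕ}
    (hk : k < D.len F) (hc : ae (D.walk F k) ∉ D.cfg F) :
    ae (D.walk F k) ∈ D.edges ∨ face (D.walk F k) ∈ D.outer := by
  obtain ⟨h1, h2⟩ := walk_clu hD hF hk.le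
  have hv := clu_inR hD hF h1
  rcases dclu_in hD h2 with hf | hf
  · exact Or.inr hf
  · left
    generalize D.walk F k = σ at *
    obtain ⟨⟨x, y⟩, q⟩ := σ
    obtain ⟨h1, h2, h3, h4, h5⟩ := hD
    unfold inR at hv
    unfold Dm.edges
    cases q
    · simp only [ae_ne, mem_RE_true, face_ne] at hf hv ⊢
      omega
    · simp only [ae_nw, mem_RE_false, face_nw] at hf hv ⊢
      omega
    · simp only [ae_sw, mem_RE_true, face_sw] at hf hv ⊢
      omega
    · simp only [ae_se, mem_RE_false, face_se] at hf hv ⊢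
      omega

end H984N
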