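import Pool.Agent.H984R4.NP.Walk
import Pool.Agent.H984R3.Per.LowSharp

/-!
C2: fast subpaths in the bulk.
-/

namespace H984N

open H974 Finset H342P H984P

/-- Translation of states. -/
def bulk_tS (s t : ℤ) (σ : St) : St := ((σ.1.1 + s, σ.1.2 + t), σ.2)

theorem bulk_ae (s t : ℤ) (σ : St) : ae (bulk_tS s t σ) = (trl s t).φ (ae σ) := by
  obtain ⟨⟨x, y⟩, c⟩ := σ
  cases c <;> simp only [bulk_tS, ae, trl_φ] <;> (congr 1 <;> ring_nf)

theorem bulk_mv (s t : ℤ) (σ : St) : mv (bulk_tS s t σ) = bulk_tS s t (mv σ) := by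
  obtain ⟨⟨x, y⟩, c⟩ := σ
  cases c <;> simp only [bulk_tS, mv] <;> (congr 2 <;> ring_nf)

theorem bulk_rt (s t : ℤ) (σ : St) : rt (bulk_tS s t σ) = bulk_tS s t (rt σ) := by
  obtain ⟨⟨x, y⟩, c⟩ := σ
  cases c <;> rfl

theorem bulk_mem (s t : ℤ) {F : Finset Edg} {e : Edg} :
    (trl s t).φ e ∈ (trl s t).mp F ↔ e ∈ F := by
  rw [LSym.mem_mp, Equiv.symm_apply_apply]

theorem bulk_nxt (s t : ℤ) (F : Finset Edg) (σ : St) :
    nxt (↑((trl s t).mp F)) (bulk_tS s t σ) = bulk_tS s t (nxt (↑F) σ) := by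
  by_cases h : ae σ ∈ (↑F : Set Edg)
  · have h1 : ae (bulk_tS s t σ) ∈ (↑((trl s t).mp F) : Set Edg) := by
      rw [bulk_ae, Finset.mem_coe, bulk_mem]
      exact h
    rw [nxt_open h, nxt_open h1, bulk_mv]
  · have h1 : ae (bulk_tS s t σ) ∉ (↑((trl s t).mp F) : Set Edg) := by
      rw [bulk_ae, Finset.mem_coe, bulk_mem]
      exact h
    rw [nxt_closed h, nxt_closed h1, bulk_rt]

theorem bulk_orb (s t : ℤ) (F : Finset Edg) (σ : St) (m : ℕ) :
    orb (↑((trl s t).mp F)) (bulk_tS s t σ) m = bulk_tS s t (orb (↑F) σ m) := by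
  induction m with
  | zero => rfl
  | succ m ih => rw [orb_succ, orb_succ, ih, bulk_nxt]

/-- The bad event in the square of side `4 L` with the lower left corner `(b, c)`. -/
def bulk_sq (M : ℕ) (R L b c : ℤ) (F : Finset Edg) : Prop :=
  ∃ (σ : St) (t : ℕ), inR (b + L) (b + 3 * L) (c + L) (c + 3 * L) σ.1 ∧
    Far σ.1 R (orb (↑(F ∩ RE b (b + 4 * L) c (c + 4 * L)) : Set Edg) σ t).1 ∧ t < M

theorem bulk_sq_pr {S : Finset Edg} {a M n : ℕ} {R L b c : ℤ} (hn : (n : ℤ) = 4 * L)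
    (hL : L = 3 * R + 60 * a) (hS : RE b (b + 4 * L) c (c + 4 * L) ⊆ S) :
    Pr (fun _ => (1/2:ℝ)) S (bulk_sq M R L b c) ≤
      Pr (fun _ => (1/2:ℝ)) (RE 0 n 0 n) (fun F => ∃ (σ : St) (t : ℕ),
      inR (3 * R + 60 * a) (n - 3 * R - 60 * a) (3 * R + 60 * a) (n - 3 * R - 60 * a) σ.1 ∧
      Far σ.1 R (orb (↑F) σ t).1 ∧ t < M) := by
  have hok2 : Ok (fun _ : Edg => (1/2:ℝ)) := okq (by norm_num) (by norm_num)
  have e1 : RE b (b + 4 * L) c (c + 4 * L) = (trl b c).mp (RE 0 n 0 n) := by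
    rw [trl_RE, hn, zero_add, zero_add, add_comm (4 * L) b, add_comm (4 * L) c]
  rw [Pr_local hS (A := bulk_sq M R L b c) (fun F _ => by
    unfold bulk_sq
    rw [Finset.inter_assoc, Finset.inter_self])]
  rw [e1, LSym.pr]
  apply Pr_mono hok2
  rintro F hF ⟨σ, t, h1, h2, h3⟩
  have h4 : (trl b c).mp F ∩ RE b (b + 4 * L) c (c + 4 * L) = (trl b c).mp F := by
    rw [Finset.inter_eq_left, e1]
    exact LSym.mp_mono _ hF
  rw [h4] at h2
  have h5 : bulk_tS b c (bulk_tS (-b) (-c) σ) = σ := by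
    unfold bulk_tS
    simp
  refine ⟨bulk_tS (-b) (-c) σ, t, ?_, ?_, h3⟩
  · unfold inR at h1 ⊢
    simp only [bulk_tS]
    omega
  · rw [← h5, bulk_orb] at h2
    generalize orb (↑F) (bulk_tS (-b) (-c) σ) t = w at h2 ⊢
    unfold Far at h2 ⊢
    simp only [bulk_tS] at h2 ⊢
    omega

theorem bulk_walk {D : Dm} {F : Finset Edg} (k t : ℕ) :
    D.walk F (k + t) = orb (D.cfg F) (D.walk F k) t := by
  unfold Dm.walk
  rw [add_comm k t, orb_add]

theorem bulk_det {D : Dm} {R L : ℤ} {M : ℕ} (hR : 1 ≤ R) (hRL : 3 * R ≤ L)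
    {F : Finset Edg} (h : D.BulkBad R (4 * L) M F) :
    ∃ i ∈ Finset.range (((D.r - D.l) / L).toNat + 1), ∃ j ∈ Finset.range ((D.h / L).toNat + 1),
      RE (D.l + i * L) (D.l + i * L + 4 * L) (j * L) (j * L + 4 * L) ⊆ D.edges ∧
        bulk_sq M R L (D.l + i * L) (j * L) F := by
  classical
  obtain ⟨k, l0, hkl, hl0, hbd, hfar, hlM⟩ := h
  have hL : 0 < L := by omega
  set v := (D.walk F k).1 with hv
  unfold Dm.bd at hbd
  rw [le_min_iff, le_min_iff, le_min_iff] at hbd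
  obtain ⟨⟨b1, b2⟩, b3, b4⟩ := hbd
  -- the square
  obtain ⟨i, hi1, hi2, hi3⟩ : ∃ i : ℕ, i ∈ Finset.range (((D.r - D.l) / L).toNat + 1) ∧
      2 * L ≤ v.1 - (D.l + i * L) ∧ v.1 - (D.l + i * L) < 3 * L := by
    have q1 : L * ((v.1 - D.l) / L) ≤ v.1 - D.l := Int.mul_ediv_self_le hL.ne'
    have q2 : v.1 - D.l < L * ((v.1 - D.l) / L) + L := Int.lt_mul_ediv_self_add hL
    have q3 : 4 ≤ (v.1 - D.l) / L := by
      rw [Int.le_ediv_iff_mul_le hL]
      omega
    have q4 : (v.1 - D.l) / L ≤ (D.r - D.l) / L := Int.ediv_le_ediv hL (by omega)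
    refine ⟨((v.1 - D.l) / L - 2).toNat, ?_, ?_, ?_⟩
    · rw [Finset.mem_range]
      omega
    · have e : ((((v.1 - D.l) / L - 2).toNat : ℕ) : ℤ) = (v.1 - D.l) / L - 2 := by omega
      rw [e]
      have : ((v.1 - D.l) / L - 2) * L = L * ((v.1 - D.l) / L) - 2 * L := by ring
      rw [this]
      omega
    · have e : ((((v.1 - D.l) / L - 2).toNat : ℕ) : ℤ) = (v.1 - D.l) / L - 2 := by omega
      rw [e]
      have : ((v.1 - D.l) / L - 2) * L = L * ((v.1 - D.l) / L) - 2 * L := by ring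
      rw [this]
      omega
  obtain ⟨j, hj1, hj2, hj3⟩ : ∃ j : ℕ, j ∈ Finset.range ((D.h / L).toNat + 1) ∧
      2 * L ≤ v.2 - j * L ∧ v.2 - j * L < 3 * L := by
    have q1 : L * (v.2 / L) ≤ v.2 := Int.mul_ediv_self_le hL.ne'
    have q2 : v.2 < L * (v.2 / L) + L := Int.lt_mul_ediv_self_add hL
    have q3 : 4 ≤ v.2 / L := by
      rw [Int.le_ediv_iff_mul_le hL]
      omega
    have q4 : v.2 / L ≤ D.h / L := Int.ediv_le_ediv hL (by omega)
    refine ⟨(v.2 / L - 2).toNat, ?_, ?_, ?_⟩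
    · rw [Finset.mem_range]
      omega
    · have e : (((v.2 / L - 2).toNat : ℕ) : ℤ) = v.2 / L - 2 := by omega
      rw [e]
      have : (v.2 / L - 2) * L = L * (v.2 / L) - 2 * L := by ring
      rw [this]
      omega
    · have e : (((v.2 / L - 2).toNat : ℕ) : ℤ) = v.2 / L - 2 := by omega
      rw [e]
      have : (v.2 / L - 2) * L = L * (v.2 / L) - 2 * L := by ring
      rw [this]
      omega
  refine ⟨i, hi1, j, hj1, ?_, ?_⟩
  · unfold Dm.edges
    have p1 : (0:ℤ) ≤ i * L := by positivity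
    have p2 : (0:ℤ) ≤ j * L := by positivity
    exact RE_subset (by omega) (by omega) (by omega) (by omega)
  · set b := D.l + i * L with hb
    set c := (j:ℤ) * L with hc
    have hex : ∃ t, Far v R (orb (D.cfg F) (D.walk F k) t).1 := by
      refine ⟨l0 - k, ?_⟩
      rw [← bulk_walk, Nat.add_sub_cancel' hkl]
      exact hfar
    have ht0 : Nat.find hex ≤ l0 - k := by
      apply Nat.find_min' hex
      rw [← bulk_walk, Nat.add_sub_cancel' hkl]
      exact hfar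
    have hcong : orb (↑(F ∩ RE b (b + 4 * L) c (c + 4 * L)) : Set Edg) (D.walk F k)
        (Nat.find hex) = orb (D.cfg F) (D.walk F k) (Nat.find hex) := by
      refine orb_congr (T := Nat.find hex) ?_ le_rfl
      intro e he
      rw [mem_Exm] at he
      obtain ⟨s, hs, rfl⟩ := he
      have hnf := Nat.find_min hex hs
      generalize orb (D.cfg F) (D.walk F k) s = w at hnf ⊢
      unfold Far at hnf
      push Not at hnf
      have hin : ae w ∈ RE b (b + 4 * L) c (c + 4 * L) := by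
        obtain ⟨⟨x, y⟩, q⟩ := w
        cases q
        · rw [ae_ne, mem_RE_true]; simp only at hnf; omega
        · rw [ae_nw, mem_RE_false]; simp only at hnf; omega
        · rw [ae_sw, mem_RE_true]; simp only at hnf; omega
        · rw [ae_se, mem_RE_false]; simp only at hnf; omega
      have hnw : ae w ∉ D.wir := by
        intro hw
        unfold Dm.wir at hw
        obtain ⟨⟨x, y⟩, q⟩ := w
        simp only at hnf
        cases q
        · rw [ae_ne] at hw
          rcases hw with ⟨-, h2, -⟩ | ⟨h1, -⟩ | ⟨-, h2, -⟩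
          · simp only at h2; omega
          · simp at h1
          · simp only at h2; omega
        · rw [ae_nw] at hw
          rcases hw with ⟨h1, -⟩ | ⟨-, h2, -⟩ | ⟨h1, -⟩
          · simp at h1
          · simp only at h2; omega
          · simp at h1
        · rw [ae_sw] at hw
          rcases hw with ⟨-, h2, -⟩ | ⟨h1, -⟩ | ⟨-, h2, -⟩
          · simp only at h2; omega
          · simp at h1
          · simp only at h2; omega
        · rw [ae_se] at hw
          rcases hw with ⟨h1, -⟩ | ⟨-, h2, -⟩ | ⟨h1, -⟩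
          · simp at h1
          · simp only at h2; omega
          · simp at h1
      unfold Dm.cfg
      rw [Finset.coe_inter]
      constructor
      · rintro (h | h)
        · exact ⟨h, hin⟩
        · exact absurd h hnw
      · rintro ⟨h, -⟩
        exact Or.inl h
    refine ⟨D.walk F k, Nat.find hex, ?_, ?_, by omega⟩
    · unfold inR
      rw [← hv]
      omega
    · rw [hcong, ← hv]
      exact Nat.find_spec hex

theorem bulk_card {x L : ℤ} (hx : 0 < x) (hL : 0 < L) :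
    (((x / L).toNat + 1 : ℕ) : ℝ) ≤ (x : ℝ) / L + 2 := by
  have h1 : 0 ≤ x / L := Int.ediv_nonneg hx.le hL.le
  have h2 : (((x / L).toNat : ℕ) : ℤ) = x / L := Int.toNat_of_nonneg h1
  have h3 : (((x / L).toNat : ℕ) : ℝ) = ((x / L : ℤ) : ℝ) := by exact_mod_cast h2
  have h4 : ((x / L : ℤ) : ℝ) ≤ (x : ℝ) / L := by
    rw [le_div_iff₀ (by exact_mod_cast hL)]
    have := Int.ediv_mul_le x hL.ne'
    exact_mod_cast this
  push_cast
  rw [h3]
  linarith

theorem bulk : ∃ C : ℝ, 0 < C ∧ ∀ (D : Dm) (a K M : ℕ) (δ : ℝ) (R L : ℤ), D.Ok → 5 ≤ a →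
    1 ≤ K → 0 ≤ δ → δ ≤ 1 → 121 * a * K + a + 2 ≤ R → L = 3 * R + 60 * a →
    AllOk (4 * L).toNat a M δ →
    P D.edges (fun F => D.BulkBad R (4 * L) M F) ≤
      C * (((D.r - D.l : ℤ) : ℝ) / L + 2) * ((D.h : ℝ) / L + 2) * ((L : ℝ) / a + 1) ^ 2 *
        (1 - δ) ^ (K - 1) := by
  obtain ⟨C, hC, hlow⟩ := low_steps
  refine ⟨16 * C, by positivity, ?_⟩
  intro D a K M δ R L hD ha hK hδ0 hδ1 hR hL hok
  have hok2 : Ok (fun _ : Edg => (1/2:ℝ)) := okq (by norm_num) (by norm_num)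
  have hR1 : 1 ≤ R := by
    have : (0:ℤ) ≤ 121 * a * K := by positivity
    omega
  have hL0 : 0 < L := by omega
  have hn : (((4 * L).toNat : ℕ) : ℤ) = 4 * L := by omega
  have hl := hlow (4 * L).toNat a K M δ R ha hK hδ0 hδ1 hok hR
  have hw : 0 ≤ (1 - δ) ^ (K - 1) := pow_nonneg (by linarith) _
  have ha0 : (0:ℝ) < a := by
    have : 0 < a := by omega
    exact_mod_cast this
  have hLr : (0:ℝ) < (L:ℝ) := by exact_mod_cast hL0
  have hnr : (((4 * L).toNat : ℕ) : ℝ) = 4 * (L:ℝ) := by exact_mod_cast hn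
  set B := C * ((((4 * L).toNat : ℕ) : ℝ) / a + 1) ^ 2 * (1 - δ) ^ (K - 1) with hB
  have hB0 : 0 ≤ B := by positivity
  have hB1 : B ≤ 16 * C * ((L:ℝ) / a + 1) ^ 2 * (1 - δ) ^ (K - 1) := by
    rw [hB, hnr]
    have h1 : 4 * (L:ℝ) / a + 1 ≤ 4 * ((L:ℝ) / a + 1) := by
      have : 4 * (L:ℝ) / a = 4 * ((L:ℝ) / a) := by ring
      rw [this]; linarith
    have h2 : (4 * (L:ℝ) / a + 1) ^ 2 ≤ (4 * ((L:ℝ) / a + 1)) ^ 2 :=
      pow_le_pow_left₀ (by positivity) h1 2
    have h3 : (4 * ((L:ℝ) / a + 1)) ^ 2 = 16 * ((L:ℝ) / a + 1) ^ 2 := by ring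
    rw [h3] at h2
    calc C * (4 * (L:ℝ) / a + 1) ^ 2 * (1 - δ) ^ (K - 1)
        ≤ C * (16 * ((L:ℝ) / a + 1) ^ 2) * (1 - δ) ^ (K - 1) :=
          mul_le_mul_of_nonneg_right (mul_le_mul_of_nonneg_left h2 hC.le) hw
      _ = _ := by ring
  have key : P D.edges (fun F => D.BulkBad R (4 * L) M F) ≤
      ((((D.r - D.l) / L).toNat + 1 : ℕ) : ℝ) * (((((D.h) / L).toNat + 1 : ℕ) : ℝ) * B) := by
    refine le_trans (Pr_mono hok2 (fun F _ h => bulk_det hR1 (by omega) h)) ?_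
    refine le_trans (Pr_exists_le hok2 _ _ _) ?_
    have h1 : ∀ i ∈ Finset.range (((D.r - D.l) / L).toNat + 1),
        Pr (fun _ => (1/2:ℝ)) D.edges (fun F => ∃ j ∈ Finset.range ((D.h / L).toNat + 1),
          RE (D.l + i * L) (D.l + i * L + 4 * L) (j * L) (j * L + 4 * L) ⊆ D.edges ∧
          bulk_sq M R L (D.l + i * L) (j * L) F) ≤ ((((D.h) / L).toNat + 1 : ℕ) : ℝ) * B := by
      intro i _
      refine le_trans (Pr_exists_le hok2 _ _ _) ?_
      have h2 : ∀ j ∈ Finset.range ((D.h / L).toNat + 1),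
          Pr (fun _ => (1/2:ℝ)) D.edges (fun F =>
            RE (D.l + i * L) (D.l + i * L + 4 * L) (j * L) (j * L + 4 * L) ⊆ D.edges ∧
            bulk_sq M R L (D.l + i * L) (j * L) F) ≤ B := by
        intro j _
        by_cases hS : RE (D.l + i * L) (D.l + i * L + 4 * L) (j * L) (j * L + 4 * L) ⊆ D.edges
        · refine le_trans (Pr_mono hok2 (B := bulk_sq M R L (D.l + i * L) (j * L))
            (fun F _ h => h.2)) ?_
          exact (bulk_sq_pr hn hL hS).trans hl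
        · have h0 : Pr (fun _ => (1/2:ℝ)) D.edges (fun F =>
              RE (D.l + i * L) (D.l + i * L + 4 * L) (j * L) (j * L + 4 * L) ⊆ D.edges ∧
              bulk_sq M R L (D.l + i * L) (j * L) F) = 0 := by
            unfold Pr
            rw [Ex_congr (g := fun _ => 0) (fun F _ => ind_not_of (fun h => hS h.1)), Ex_const]
          rw [h0]
          exact hB0
      refine le_trans (Finset.sum_le_card_nsmul _ _ _ h2) ?_
      rw [nsmul_eq_mul, Finset.card_range]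
    refine le_trans (Finset.sum_le_card_nsmul _ _ _ h1) ?_
    rw [nsmul_eq_mul, Finset.card_range]
  have c1 := bulk_card (x := D.r - D.l) (L := L) (by have := hD.l_neg; have := hD.r_pos; omega) hL0
  have c2 := bulk_card (x := D.h) (L := L) hD.h_pos hL0
  have c3 : (0:ℝ) ≤ ((((D.h) / L).toNat + 1 : ℕ) : ℝ) := Nat.cast_nonneg _
  have c4 : (0:ℝ) ≤ (D.h : ℝ) / L + 2 := c3.trans c2
  have c5 : (0:ℝ) ≤ ((D.r - D.l : ℤ) : ℝ) / L + 2 := le_trans (Nat.cast_nonneg _) c1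
  refine key.trans ?_
  calc ((((D.r - D.l) / L).toNat + 1 : ℕ) : ℝ) * (((((D.h) / L).toNat + 1 : ℕ) : ℝ) * B)
      ≤ (((D.r - D.l : ℤ) : ℝ) / L + 2) * (((D.h : ℝ) / L + 2) *
          (16 * C * ((L:ℝ) / a + 1) ^ 2 * (1 - δ) ^ (K - 1))) := by
        apply mul_le_mul c1 _ (mul_nonneg c3 hB0) c5
        exact mul_le_mul c2 hB1 hB0 c4
    _ = _ := by ring

end H984N
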