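import Pool.Agent.H984R4.NP.Walk
import Pool.Agent.H984R4.NP.Clu

/-!
C5: a fast subpath is fast in the bulk or stays near the boundary.
-/

namespace H984N

open H974 Finset H342P H984P

theorem det_sd_eq (u v : Vtx) : sd u v =
    max (max (u.1 - v.1) (v.1 - u.1)) (max (u.2 - v.2) (v.2 - u.2)) := by
  unfold sd
  rw [abs_eq_max_neg, abs_eq_max_neg, neg_sub, neg_sub]

theorem det_bd_lip (D : Dm) (u v : Vtx) : D.bd u ≤ D.bd v + sd u v := by
  rw [det_sd_eq]
  unfold Dm.bd
  omega

theorem det_sd_comm (u v : Vtx) : sd u v = sd v u := by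
  rw [det_sd_eq, det_sd_eq]
  omega

theorem det_sd_tri (u v z : Vtx) : sd u z ≤ sd u v + sd v z := by
  rw [det_sd_eq, det_sd_eq, det_sd_eq]
  omega

theorem det_sd_self (u : Vtx) : sd u u = 0 := by
  rw [det_sd_eq]
  omega

theorem det_far {u v : Vtx} {R : ℤ} (h : R ≤ sd u v) : Far u R v := by
  rw [det_sd_eq] at h
  unfold Far
  omega

/-- first time at distance `w` -/
theorem det_first (x : ℕ → Vtx) (hx : ∀ s, sd (x s) (x (s + 1)) ≤ 1) {w : ℤ} {j l : ℕ}
    (hjl : j ≤ l) (hd : w ≤ sd (x j) (x l)) : ∃ i, j ≤ i ∧ i ≤ l ∧ w ≤ sd (x j) (x i) ∧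
      ∀ s, j ≤ s → s ≤ i → sd (x j) (x s) ≤ max w 0 := by
  classical
  have hex : ∃ i, j ≤ i ∧ w ≤ sd (x j) (x i) := ⟨l, hjl, hd⟩
  let i := Nat.find hex
  have hi := Nat.find_spec hex
  have hil : i ≤ l := Nat.find_min' hex ⟨hjl, hd⟩
  refine ⟨i, hi.1, hil, hi.2, fun s hs hsi => ?_⟩
  rcases Nat.lt_or_ge s i with h | h
  · have := Nat.find_min hex h
    have h2 : ¬ w ≤ sd (x j) (x s) := fun h3 => this ⟨hs, h3⟩
    omega
  · have hsi' : s = i := by omega
    rcases Nat.eq_or_lt_of_le hs with h2 | h2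
    · rw [← h2, det_sd_self]
      omega
    · obtain ⟨s', rfl⟩ : ∃ s', s = s' + 1 := ⟨s - 1, by omega⟩
      have h3 := Nat.find_min hex (m := s') (by omega)
      have h4 : ¬ w ≤ sd (x j) (x s') := fun h5 => h3 ⟨by omega, h5⟩
      have h5 := det_sd_tri (x j) (x s') (x (s' + 1))
      have h6 := hx s'
      omega

/-- last time at distance `w` -/
theorem det_last (x : ℕ → Vtx) (hx : ∀ s, sd (x s) (x (s + 1)) ≤ 1) {w : ℤ} {j k : ℕ}
    (hkj : k ≤ j) (hd : w ≤ sd (x j) (x k)) : ∃ i, k ≤ i ∧ i ≤ j ∧ w ≤ sd (x j) (x i) ∧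
      ∀ s, i ≤ s → s ≤ j → sd (x j) (x s) ≤ max w 0 := by
  have h1 := det_first (fun s => x (j - s)) (fun s => ?_) (w := w) (j := 0) (l := j - k)
    (Nat.zero_le _) (by
      simp only [Nat.sub_zero]
      rwa [Nat.sub_sub_self hkj])
  · obtain ⟨i, -, hi, hwi, hs⟩ := h1
    simp only [Nat.sub_zero] at hwi hs
    refine ⟨j - i, by omega, by omega, hwi, fun s h2 h3 => ?_⟩
    have h4 := hs (j - s) (Nat.zero_le _) (by omega)
    rwa [Nat.sub_sub_self h3] at h4
  · rcases Nat.lt_or_ge s j with h | h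
    · have h2 : j - s = (j - (s + 1)) + 1 := by omega
      rw [h2, det_sd_comm]
      exact hx _
    · have h2 : j - s = 0 := by omega
      have h3 : j - (s + 1) = 0 := by omega
      rw [h2, h3, det_sd_self]
      omega

/-- a subpath of extent `w` far from `a` and `b` -/
theorem det_sub (x : ℕ → Vtx) (hx : ∀ s, sd (x s) (x (s + 1)) ≤ 1) {w : ℤ} (hw : 1 ≤ w)
    (a b : Vtx) (hab : 8 * w ≤ sd a b) {k l : ℕ} (hkl : k ≤ l)
    (hd : 4 * w + 1 ≤ sd (x k) (x l)) :
    ∃ i j, k ≤ i ∧ i ≤ j ∧ j ≤ l ∧ w ≤ sd (x i) (x j) ∧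
      ∀ s, i ≤ s → s ≤ j → w < sd (x s) a ∧ w < sd (x s) b := by
  obtain ⟨j, hkj, hjl, hja, hjb⟩ : ∃ j, k ≤ j ∧ j ≤ l ∧ 2 * w < sd (x j) a ∧
      2 * w < sd (x j) b := by
    by_contra hcon
    push Not at hcon
    -- near the same point all the time
    have key : ∀ a b : Vtx, 8 * w ≤ sd a b →
        (∀ j, k ≤ j → j ≤ l → sd (x j) a ≤ 2 * w ∨ sd (x j) b ≤ 2 * w) →
        sd (x k) a ≤ 2 * w → False := by
      intro a b hab hcon hk
      have hall : ∀ n, k + n ≤ l → sd (x (k + n)) a ≤ 2 * w := by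
        intro n
        induction n with
        | zero => intro _; exact hk
        | succ n ih =>
          intro hn
          have h1 := ih (by omega)
          rcases hcon (k + (n + 1)) (by omega) hn with h2 | h2
          · exact h2
          · exfalso
            have h3 := hx (k + n)
            have h4 := det_sd_tri a (x (k + n)) b
            have h5 := det_sd_tri (x (k + n)) (x (k + n + 1)) b
            have h6 := det_sd_comm a (x (k + n))
            have h7 : k + (n + 1) = k + n + 1 := rfl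
            rw [h7] at h2
            omega
      have h8 := hall (l - k) (by omega)
      rw [show k + (l - k) = l by omega] at h8
      have h9 := det_sd_tri (x k) a (x l)
      have h10 := det_sd_comm a (x l)
      omega
    have hor : ∀ j, k ≤ j → j ≤ l → sd (x j) a ≤ 2 * w ∨ sd (x j) b ≤ 2 * w := by
      intro j h1 h2
      by_cases h3 : 2 * w < sd (x j) a
      · exact Or.inr (hcon j h1 h2 h3)
      · exact Or.inl (not_lt.1 h3)
    rcases hor k le_rfl hkl with h | h
    · exact key a b hab hor h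
    · exact key b a (by rw [det_sd_comm]; exact hab) (fun j h1 h2 => (hor j h1 h2).symm) h
  have htri := det_sd_tri (x k) (x j) (x l)
  have hcm := det_sd_comm (x j) (x k)
  by_cases hfar : w ≤ sd (x j) (x l)
  · obtain ⟨i, hji, hil, hwi, hs⟩ := det_first x hx hjl hfar
    refine ⟨j, i, hkj, hji, hil, hwi, fun s h1 h2 => ?_⟩
    have h3 := hs s h1 h2
    have h4 := det_sd_tri (x j) (x s) a
    have h5 := det_sd_tri (x j) (x s) b
    omega
  · obtain ⟨i, hki, hij, hwi, hs⟩ := det_last x hx hkj (w := w) (by omega)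
    refine ⟨i, j, hki, hij, hjl, by rw [det_sd_comm]; exact hwi, fun s h1 h2 => ?_⟩
    have h3 := hs s h1 h2
    have h4 := det_sd_tri (x j) (x s) a
    have h5 := det_sd_tri (x j) (x s) b
    omega

/-- near the free part of the boundary -/
def detFr (D : Dm) (ρ0 w : ℤ) (v : Vtx) : Prop :=
  (v.2 < ρ0 ∧ w < v.1) ∨ (D.r - v.1 < ρ0) ∨ (D.h - v.2 < ρ0 ∧ D.t + w < v.1)

/-- near the wired part of the boundary -/
def detWi (D : Dm) (ρ0 w : ℤ) (v : Vtx) : Prop :=
  (v.2 < ρ0 ∧ v.1 < -w) ∨ (v.1 - D.l < ρ0) ∨ (D.h - v.2 < ρ0 ∧ v.1 < D.t - w)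

theorem det_or {D : Dm} {ρ0 w : ℤ} (hρw : ρ0 + 4 ≤ w) {v : Vtx}
    (hin : inR D.l D.r 0 D.h v) (hbd : D.bd v < ρ0) (ha : w < sd v (D.t, D.h))
    (hb : w < sd v (0, 0)) : detFr D ρ0 w v ∨ detWi D ρ0 w v := by
  rw [det_sd_eq] at ha hb
  unfold Dm.bd at hbd
  unfold inR at hin
  unfold detFr detWi
  simp only at ha hb
  omega

theorem det_disj {D : Dm} (hD : D.Ok) {ρ0 w : ℤ} (hρ0 : 0 ≤ ρ0) (hρw : ρ0 + 4 ≤ w)
    (hl : 8 * w ≤ -D.l) (hr : 8 * w ≤ D.r) (hh : 8 * w ≤ D.h) {u v : Vtx}
    (hu : detFr D ρ0 w u) (hv : detWi D ρ0 w v) (h1 : sd u v ≤ 1) : False := by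
  have := hD.l_le
  have := hD.le_r
  rw [det_sd_eq] at h1
  unfold detFr at hu
  unfold detWi at hv
  omega

theorem det_nwir {D : Dm} (hD : D.Ok) {ρ0 w : ℤ} (hρ0 : 0 ≤ ρ0) (hρw : ρ0 + 4 ≤ w)
    (hl : 8 * w ≤ -D.l) (hr : 8 * w ≤ D.r) (hh : 8 * w ≤ D.h) {e : Edg}
    (hu : detFr D ρ0 w (src e)) (ha : w < sd (src e) (D.t, D.h)) : e ∉ D.wir := by
  obtain ⟨x, y, c⟩ := e
  have := hD.l_le
  have := hD.le_r
  intro he
  unfold Dm.wir at he
  rw [det_sd_eq] at ha
  unfold detFr at hu
  simp only [Set.mem_ofPred_eq, src] at he hu ha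
  rcases he with h | h | h
  · omega
  · omega
  · omega

theorem det_nouter {D : Dm} (hD : D.Ok) {ρ0 w : ℤ} (hρ0 : 0 ≤ ρ0) (hρw : ρ0 + 4 ≤ w)
    (hl : 8 * w ≤ -D.l) (hr : 8 * w ≤ D.r) (hh : 8 * w ≤ D.h) {σ : St}
    (hin : inR D.l D.r 0 D.h σ.1)
    (hu : detWi D ρ0 w σ.1) (ha : w < sd σ.1 (D.t, D.h)) : face σ ∉ D.outer := by
  obtain ⟨⟨x, y⟩, c⟩ := σ
  have := hD.l_le
  have := hD.le_r
  intro he
  unfold Dm.outer at he
  rw [det_sd_eq] at ha
  unfold detWi at hu
  unfold inR at hin
  simp only at hin hu ha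
  cases c <;> simp only [face_ne, face_nw, face_sw, face_se, Set.mem_ofPred_eq] at he <;> omega

theorem det_face (σ σ' : St) : sd σ.1 σ'.1 - 1 ≤ sd (face σ) (face σ') := by
  obtain ⟨⟨x, y⟩, c⟩ := σ
  obtain ⟨⟨x', y'⟩, c'⟩ := σ'
  rw [det_sd_eq, det_sd_eq]
  cases c <;> cases c' <;> simp only [face_ne, face_nw, face_sw, face_se] <;> omega

theorem det_mv (σ : St) : sd (mv σ).1 σ.1 ≤ 1 := by
  obtain ⟨⟨x, y⟩, c⟩ := σ
  rw [det_sd_eq]
  cases c <;> simp only [mv_ne, mv_nw, mv_sw, mv_se] <;> omega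

theorem det {D : Dm} (hD : D.Ok) {F : Finset Edg} (hF : F ⊆ D.edges) {R D0 ρ w : ℤ} {M : ℕ}
    (hR : 1 ≤ R) (hD0 : 0 ≤ D0) (hρ : D0 + R + 2 ≤ ρ) (hw : ρ + 2 ≤ w) (hl : 8 * w ≤ -D.l)
    (hr : 8 * w ≤ D.r) (hh : 8 * w ≤ D.h) (hB : ¬ D.BulkBad R D0 M F)
    (hP : ¬ D.PLay ρ w F) (hQ : ¬ D.DLay ρ (w - 1) F) {k l : ℕ} (hkl : k ≤ l)
    (hl' : l ≤ D.len F) (hd : 4 * w + 1 ≤ sd (D.walk F k).1 (D.walk F l).1) : M ≤ l - k := by
  by_contra hM
  have hM' : l - k < M := by omega
  -- (1) everything is near the boundary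
  have hnear : ∀ j, k ≤ j → j ≤ l → D.bd (D.walk F j).1 < D0 + R := by
    intro j hkj hjl
    by_contra hbd
    have hbd' : D0 + R ≤ D.bd (D.walk F j).1 := not_lt.1 hbd
    apply hB
    have htri := det_sd_tri (D.walk F k).1 (D.walk F j).1 (D.walk F l).1
    by_cases h1 : R ≤ sd (D.walk F j).1 (D.walk F l).1
    · exact ⟨j, l, hjl, hl', by omega, det_far h1, by omega⟩
    · have h2 : R ≤ sd (D.walk F j).1 (D.walk F k).1 := by
        rw [det_sd_comm]
        omega
      obtain ⟨i, hki, hij, hRi, hs⟩ := det_last (fun s => (D.walk F s).1)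
        (fun s => walk_step D F s) hkj h2
      have h3 := hs i le_rfl hij
      have h4 := det_bd_lip D (D.walk F j).1 (D.walk F i).1
      refine ⟨i, j, hij, by omega, by omega, det_far ?_, by omega⟩
      rw [det_sd_comm]
      exact hRi
  -- (2) a subpath far from both marked points
  obtain ⟨i, j, hki, hij, hjl, hwij, hs⟩ := det_sub (fun s => (D.walk F s).1)
    (fun s => walk_step D F s) (w := w) (by omega) (D.t, D.h) (0, 0)
    (by rw [det_sd_eq]; simp only; omega) hkl hd
  set ρ0 : ℤ := D0 + R with hρ0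
  have hor : ∀ s, i ≤ s → s ≤ j → detFr D ρ0 w (D.walk F s).1 ∨ detWi D ρ0 w (D.walk F s).1 :=
    fun s h1 h2 => det_or (by omega) (walk_in hD hF s) (hnear s (by omega) (by omega))
      (hs s h1 h2).1 (hs s h1 h2).2
  rcases hor i le_rfl hij with h0 | h0
  · -- free side
    have hall : ∀ n, i + n ≤ j → detFr D ρ0 w (D.walk F (i + n)).1 := by
      intro n
      induction n with
      | zero => intro _; exact h0
      | succ n ih =>
        intro hn
        rcases hor (i + (n + 1)) (by omega) hn with h | h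
        · exact h
        · exact (det_disj hD (by omega) (by omega) hl hr hh (ih (by omega)) h
            (walk_step D F (i + n))).elim
    apply hP
    refine ⟨(D.walk F i).1, (D.walk F j).1, hwij, ?_⟩
    have hreach : ∀ n, i + n ≤ j → Reach (↑F ∩ {e | D.bd (src e) < ρ ∧ D.bd (tgt e) < ρ} : Set Edg)
        (D.walk F i).1 (D.walk F (i + n)).1 := by
      intro n
      induction n with
      | zero => intro _; exact Reach.refl _ _
      | succ n ih =>
        intro hn
        have ih' := ih (by omega)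
        have hsucc : D.walk F (i + (n + 1)) = nxt (D.cfg F) (D.walk F (i + n)) :=
          walk_succ D F (i + n)
        by_cases hop : ae (D.walk F (i + n)) ∈ D.cfg F
        · have hnx : D.walk F (i + (n + 1)) = mv (D.walk F (i + n)) := by
            rw [hsucc, nxt_open hop]
          have hfr1 := hall n (by omega)
          have hfr2 := hall (n + 1) hn
          have ha1 := (hs (i + n) (by omega) (by omega)).1
          have ha2 := (hs (i + (n + 1)) (by omega) hn).1
          have hb1 := hnear (i + n) (by omega) (by omega)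
          have hb2 := hnear (i + (n + 1)) (by omega) (by omega)
          rw [hnx] at hfr2 ha2 hb2
          have hends := p2_ends (D.walk F (i + n))
          have hFr : detFr D ρ0 w (src (ae (D.walk F (i + n)))) ∧
              w < sd (src (ae (D.walk F (i + n)))) (D.t, D.h) ∧
              D.bd (src (ae (D.walk F (i + n)))) < ρ0 ∧
              D.bd (tgt (ae (D.walk F (i + n)))) < ρ0 := by
            rcases hends with ⟨h1, h2⟩ | ⟨h1, h2⟩
            · rw [h1, h2]; exact ⟨hfr1, ha1, hb1, hb2⟩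
            · rw [h1, h2]; exact ⟨hfr2, ha2, hb2, hb1⟩
          have hnw := det_nwir hD (by omega) (by omega) hl hr hh hFr.1 hFr.2.1
          have hinF : ae (D.walk F (i + n)) ∈ (↑F : Set Edg) := by
            rcases hop with h | h
            · exact h
            · exact absurd h hnw
          refine ih'.trans (Adj.reach ⟨ae (D.walk F (i + n)), ⟨hinF, ?_⟩, ?_⟩)
          · exact ⟨by have := hFr.2.2.1; omega, by have := hFr.2.2.2; omega⟩
          · rw [hnx]
            exact hends
        · rw [hsucc, nxt_closed hop, p2_rt_fst]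
          exact ih'
    have h1 := hreach (j - i) (by omega)
    rwa [show i + (j - i) = j by omega] at h1
  · -- wired side
    have hall : ∀ n, i + n ≤ j → detWi D ρ0 w (D.walk F (i + n)).1 := by
      intro n
      induction n with
      | zero => intro _; exact h0
      | succ n ih =>
        intro hn
        rcases hor (i + (n + 1)) (by omega) hn with h | h
        · exact (det_disj hD (by omega) (by omega) hl hr hh h (ih (by omega))
            (by rw [det_sd_comm]; exact walk_step D F (i + n))).elim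
        · exact h
    apply hQ
    refine ⟨face (D.walk F i), face (D.walk F j), ?_, ?_⟩
    · have := det_face (D.walk F i) (D.walk F j)
      omega
    have hreach : ∀ n, i + n ≤ j →
        DReach ({e | e ∈ D.edges ∧ D.bd (src e) < ρ ∧ D.bd (tgt e) < ρ} \ ↑F : Set Edg)
        (face (D.walk F i)) (face (D.walk F (i + n))) := by
      intro n
      induction n with
      | zero => intro _; exact DReach.refl _ _
      | succ n ih =>
        intro hn
        have ih' := ih (by omega)
        have hsucc : D.walk F (i + (n + 1)) = nxt (D.cfg F) (D.walk F (i + n)) :=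
          walk_succ D F (i + n)
        by_cases hop : ae (D.walk F (i + n)) ∈ D.cfg F
        · rw [hsucc, nxt_open hop, p2_face_mv]
          exact ih'
        · have hwi := hall n (by omega)
          have ha1 := (hs (i + n) (by omega) (by omega)).1
          have hb1 := hnear (i + n) (by omega) (by omega)
          have hno := det_nouter hD (by omega) (by omega) hl hr hh
            (walk_in hD hF (i + n)) hwi ha1
          have hedge : ae (D.walk F (i + n)) ∈ D.edges := by
            rcases walk_closed hD hF (k := i + n) (by omega) hop with h | h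
            · exact h
            · exact absurd h hno
          have hb2 : D.bd (mv (D.walk F (i + n))).1 < ρ := by
            have h1 := det_bd_lip D (mv (D.walk F (i + n))).1 (D.walk F (i + n)).1
            have h2 := det_mv (D.walk F (i + n))
            omega
          have hnF : ae (D.walk F (i + n)) ∉ (↑F : Set Edg) := fun h => hop (Or.inl h)
          rw [hsucc, nxt_closed hop]
          refine ih'.trans (DAdj.reach ⟨ae (D.walk F (i + n)), ⟨⟨hedge, ?_⟩, hnF⟩, ?_⟩)
          · rcases p2_ends (D.walk F (i + n)) with ⟨h1, h2⟩ | ⟨h1, h2⟩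
            · rw [h1, h2]; exact ⟨by omega, hb2⟩
            · rw [h1, h2]; exact ⟨hb2, by omega⟩
          · exact p2_dends _
    have h1 := hreach (j - i) (by omega)
    rwa [show i + (j - i) = j by omega] at h1

end H984N
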