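import Pool.Agent.H984R4.NP.EnLimit

/-!
D10: dimension of curves.
-/

namespace H984N

open MeasureTheory Filter Topology

theorem dimLow_measurable (f : C(unitInterval, ℂ)) (α : ℝ) :
    Measurable (fun p : unitInterval × unitInterval => (edist (f p.1) (f p.2)) ^ (-α)) := by
  have h1 : Measurable (fun p : unitInterval × unitInterval => edist (f p.1) (f p.2)) := by
    have : Continuous (fun p : unitInterval × unitInterval => edist (f p.1) (f p.2)) := by
      fun_prop
    exact this.measurable
  exact h1.pow_const _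

theorem le_dimH_of_energy {f : C(unitInterval, ℂ)} {α : ℝ} (hα : 0 < α) (h : EnI α f ≠ ⊤)
    {s t : unitInterval} (hst : s < t) : ENNReal.ofReal α ≤ dimH (f '' Set.Icc s t) := by
  set ψ : unitInterval → ENNReal := fun a => ∫⁻ b : unitInterval, (edist (f a) (f b)) ^ (-α) with hψ
  have hψm : Measurable ψ := (dimLow_measurable f α).lintegral_prod_right'
  have hfin : ∀ᵐ a : unitInterval, ψ a < ⊤ := ae_lt_top hψm h
  have hIpos : 0 < volume (Set.Icc s t) := by
    rw [unitInterval.volume_Icc]
    exact ENNReal.ofReal_pos.2 (sub_pos.2 hst)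
  -- a level set of positive measure
  obtain ⟨M, hM⟩ : ∃ M : ℕ, 0 < volume (Set.Icc s t ∩ {a | ψ a ≤ M}) := by
    by_contra hcon
    push Not at hcon
    have h1 : volume (⋃ M : ℕ, (Set.Icc s t ∩ {a | ψ a ≤ M})) = 0 :=
      measure_iUnion_null fun M => le_antisymm (hcon M) bot_le
    have h2 : Set.Icc s t ≤ᵐ[volume] (⋃ M : ℕ, (Set.Icc s t ∩ {a | ψ a ≤ M}) : Set unitInterval) := by
      filter_upwards [hfin] with a ha hI
      obtain ⟨n, hn⟩ := ENNReal.exists_nat_gt ha.ne
      exact Set.mem_iUnion.2 ⟨n, hI, hn.le⟩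
    have h3 := measure_mono_ae h2
    rw [h1] at h3
    exact absurd hIpos (not_lt.2 h3)
  set A : Set unitInterval := Set.Icc s t ∩ {a | ψ a ≤ M} with hA
  have hAm : MeasurableSet A := measurableSet_Icc.inter (hψm measurableSet_Iic)
  set μ : Measure ℂ := (volume.restrict A).map f with hμ
  set N : ENNReal := (M : ENNReal) + 1 with hN
  have hN0 : N ≠ 0 := by simp [hN]
  have hNt : N ≠ ⊤ := by simp [hN]
  have hfm : Measurable f := f.continuous.measurable
  have key : ∀ B : Set ℂ, (N⁻¹ • μ) B ≤ Metric.ediam B ^ α := by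
    intro B
    rw [← Metric.ediam_closure]
    refine (measure_mono (subset_closure : B ⊆ closure B)).trans ?_
    set C := closure B with hC
    have hCm : MeasurableSet C := isClosed_closure.measurableSet
    rw [Measure.smul_apply, smul_eq_mul, hμ, Measure.map_apply hfm hCm,
      Measure.restrict_apply (hfm hCm)]
    by_cases hne : (f ⁻¹' C ∩ A).Nonempty
    · obtain ⟨a, haC, haA⟩ := hne
      have h1 : ψ a ≤ M := haA.2
      have h2 : Metric.ediam C ^ (-α) * volume (f ⁻¹' C) ≤ ψ a := by
        rw [hψ]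
        calc Metric.ediam C ^ (-α) * volume (f ⁻¹' C)
            = ∫⁻ b in f ⁻¹' C, Metric.ediam C ^ (-α) := by rw [setLIntegral_const]
          _ ≤ ∫⁻ b in f ⁻¹' C, (edist (f a) (f b)) ^ (-α) := by
              refine setLIntegral_mono' (hfm hCm) fun b hb => ?_
              rw [ENNReal.rpow_neg, ENNReal.rpow_neg]
              apply ENNReal.inv_le_inv.2
              exact ENNReal.rpow_le_rpow (Metric.edist_le_ediam_of_mem haC hb) hα.le
          _ ≤ ∫⁻ b : unitInterval, (edist (f a) (f b)) ^ (-α) := setLIntegral_le_lintegral _ _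
      have h3 : Metric.ediam C ^ (-α) * volume (f ⁻¹' C) ≤ N :=
        h2.trans (h1.trans (by rw [hN]; exact le_self_add))
      have h4 : volume (f ⁻¹' C ∩ A) ≤ volume (f ⁻¹' C) := measure_mono Set.inter_subset_left
      rw [ENNReal.rpow_neg] at h3
      rcases eq_or_ne (Metric.ediam C ^ α) ⊤ with htop | htop
      · rw [htop]; exact le_top
      rcases eq_or_ne (Metric.ediam C ^ α) 0 with h0 | h0
      · rw [h0, ENNReal.inv_zero] at h3
        have h5 : volume (f ⁻¹' C) = 0 := by
          by_contra h6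
          rw [ENNReal.top_mul h6] at h3
          exact hNt (top_le_iff.1 h3)
        have h6 : volume (f ⁻¹' C ∩ A) = 0 := le_antisymm (h4.trans h5.le) bot_le
        rw [h6, mul_zero]
        exact bot_le
      · have h5 : volume (f ⁻¹' C) ≤ Metric.ediam C ^ α * N := by
          rwa [ENNReal.inv_mul_le_iff h0 htop] at h3
        calc N⁻¹ * volume (f ⁻¹' C ∩ A) ≤ N⁻¹ * (Metric.ediam C ^ α * N) := by gcongr; exact h4.trans h5
          _ = Metric.ediam C ^ α * (N⁻¹ * N) := by ring
          _ = Metric.ediam C ^ α := by rw [ENNReal.inv_mul_cancel hN0 hNt, mul_one]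
    · rw [Set.not_nonempty_iff_eq_empty.1 hne, measure_empty, mul_zero]
      exact bot_le
  have hle : N⁻¹ • μ ≤ μH[α] :=
    Measure.le_hausdorffMeasure α (N⁻¹ • μ) 1 one_pos fun B _ => key B
  have hpos : 0 < (N⁻¹ • μ) (f '' Set.Icc s t) := by
    have hcm : MeasurableSet (f '' Set.Icc s t) :=
      (isCompact_Icc.image f.continuous).isClosed.measurableSet
    rw [Measure.smul_apply, smul_eq_mul, hμ, Measure.map_apply hfm hcm,
      Measure.restrict_apply (hfm hcm)]
    refine ENNReal.mul_pos (ENNReal.inv_ne_zero.2 hNt) ?_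
    have h1 : A ⊆ f ⁻¹' (f '' Set.Icc s t) ∩ A := fun a ha =>
      ⟨Set.mem_image_of_mem f ha.1, ha⟩
    exact (lt_of_lt_of_le hM (measure_mono h1)).ne'
  have h5 : μH[((α.toNNReal : NNReal) : ℝ)] (f '' Set.Icc s t) ≠ 0 := by
    rw [Real.coe_toNNReal α hα.le]
    exact (lt_of_lt_of_le hpos (hle _)).ne'
  exact le_dimH_of_hausdorffMeasure_ne_zero h5

end H984N
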