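import Mathlib

/-!
D10: dimension of curves.
-/

namespace H984N

open MeasureTheory Filter Topology

theorem dimH_le_of_holder {f : C(unitInterval, ℂ)} {β Λ : ℝ} (hβ : 0 < β)
    (h : ∀ s t : unitInterval, dist (f s) (f t) ≤ Λ * |(s : ℝ) - t| ^ β) (A : Set unitInterval) :
    dimH (f '' A) ≤ ENNReal.ofReal (1 / β) := by
  have hH : HolderWith Λ.toNNReal β.toNNReal f := by
    intro s t
    rw [edist_dist, edist_dist, Real.coe_toNNReal β hβ.le]
    have h1 : dist (f s) (f t) ≤ max Λ 0 * |(s : ℝ) - t| ^ β :=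
      (h s t).trans (mul_le_mul_of_nonneg_right (le_max_left _ _) (by positivity))
    refine (ENNReal.ofReal_le_ofReal h1).trans ?_
    rw [ENNReal.ofReal_mul (le_max_right _ _)]
    have h2 : dist s t = |(s : ℝ) - t| := rfl
    rw [h2, ENNReal.ofReal_rpow_of_nonneg (abs_nonneg _) hβ.le]
    apply le_of_eq
    congr 1
    rw [ENNReal.ofReal]
    congr 1
    simp [Real.toNNReal]
  have hβ' : 0 < β.toNNReal := Real.toNNReal_pos.2 hβ
  refine (hH.dimH_image_le hβ' A).trans ?_
  have hA : dimH A ≤ 1 := by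
    have h1 : dimH ((Subtype.val : unitInterval → ℝ) '' A) = dimH A :=
      isometry_subtype_coe.dimH_image A
    rw [← h1, ← Real.dimH_univ]
    exact dimH_mono (Set.subset_univ _)
  refine (ENNReal.div_le_div_right hA _).trans ?_
  rw [ENNReal.ofReal_div_of_pos hβ, ENNReal.ofReal_one]
  rfl

end H984N
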