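import Pool.Agent.H984R4.NP.Good

/-!
D7: existence of subsequential limits.
-/

namespace H984N

open H974 Finset H342P H984P MeasureTheory Filter Topology

theorem Exist_prob_mono (R : Rect) (δ : ℝ) {A B : Finset Edg → Prop}
    (h : ∀ F, F ⊆ (R.dm δ).edges → A F → B F) : R.prob δ A ≤ R.prob δ B :=
  Pr_mono (fun _ => ⟨by norm_num, by norm_num⟩) h

theorem Exist_prob_false (R : Rect) (δ : ℝ) {A : Finset Edg → Prop}
    (h : ∀ F, F ⊆ (R.dm δ).edges → ¬ A F) : R.prob δ A = 0 := by
  have h1 : R.prob δ A = R.prob δ (fun _ => False) :=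
    Pr_congr (fun F hF => iff_of_false (h F hF) (fun h => h))
  rw [h1]
  unfold Rect.prob P Pr
  have : (fun _ : Finset Edg => ind False) = fun _ => (0:ℝ) := by
    funext F; exact ind_not_of (fun h => h)
  rw [this, Ex_const]

theorem exists_limit (R : Rect) {β : ℝ} (hβ : 0 < β) (hT : R.TightH β) {δ : ℕ → ℝ}
    (hδ : ∀ i, 0 < δ i) (hlim : Tendsto δ atTop (𝓝 0)) :
    ∃ φ : ℕ → ℕ, StrictMono φ ∧ ∃ μ : ProbabilityMeasure X,
      Tendsto (fun i => R.law (δ (φ i))) atTop (𝓝 μ) := by
  classical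
  set S : Set (ProbabilityMeasure X) := Set.range (fun i => R.law (δ i)) with hS
  have htight : IsTightMeasureSet {((ν : ProbabilityMeasure X) : Measure X) | ν ∈ S} := by
    rw [isTightMeasureSet_iff_exists_isCompact_measure_compl_le]
    intro ε hε
    by_cases htop : ε = ⊤
    · exact ⟨∅, isCompact_empty, fun ν _ => by rw [htop]; exact le_top⟩
    have hε' : 0 < ε.toReal := ENNReal.toReal_pos hε.ne' htop
    obtain ⟨Λ, δ0, _, hδ0, hprob⟩ := hT ε.toReal hε'
    obtain ⟨N, hN⟩ := eventually_atTop.mp (hlim.eventually_lt_const hδ0)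
    set T : ℕ → Set X := fun i => ↑((R.dm (δ i)).edges.powerset.image
      (fun F => (R.curve (δ i) F, R.time (δ i) F))) with hTdef
    set K : Set X := Good β Λ ∪ ⋃ i ∈ Finset.range N, T i with hK
    have hKc : IsCompact K := by
      apply (good_compact hβ).union
      apply (Finset.range N).isCompact_biUnion
      intro i _
      exact (Finset.finite_toSet _).isCompact
    refine ⟨K, hKc, ?_⟩
    rintro ν ⟨ν', ⟨i, rfl⟩, rfl⟩
    rw [R.law_apply (δ i) hKc.isClosed.measurableSet.compl]
    rcases Nat.lt_or_ge i N with hi | hi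
    · rw [Exist_prob_false, ENNReal.ofReal_zero]
      · exact bot_le
      · intro F hF hcon
        apply hcon
        right
        rw [Set.mem_iUnion₂]
        refine ⟨i, Finset.mem_range.mpr hi, ?_⟩
        rw [hTdef]
        exact Finset.mem_coe.mpr (Finset.mem_image.mpr ⟨F, Finset.mem_powerset.mpr hF, rfl⟩)
    · rw [← ENNReal.ofReal_toReal htop]
      apply ENNReal.ofReal_le_ofReal
      refine (Exist_prob_mono R (δ i) ?_).trans (hprob (δ i) (hδ i) (hN i hi).le)
      intro F _ h1 h2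
      exact h1 (Or.inl h2)
  have hcomp := isCompact_closure_of_isTightMeasureSet htight
  obtain ⟨μ, _, φ, hφ, hμ⟩ := hcomp.tendsto_subseq
    (x := fun i => R.law (δ i)) (fun i => subset_closure ⟨i, rfl⟩)
  exact ⟨φ, hφ, μ, hμ⟩

end H984N
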