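import Pool.Agent.H984R4.NP.Model

/-!
D0: elementary facts about the discretisation.
-/

namespace H984N

open H974 Finset H342P H984P MeasureTheory

namespace ML

/-- horizontal offset of a corner -/
noncomputable def qx : Q4 → ℝ
  | .ne => 1/4
  | .nw => -1/4
  | .sw => -1/4
  | .se => 1/4

/-- vertical offset of a corner -/
noncomputable def qy : Q4 → ℝ
  | .ne => 1/4
  | .nw => 1/4
  | .sw => -1/4
  | .se => -1/4

theorem pos_re (δ : ℝ) (σ : St) : (pos δ σ).re = δ * (σ.1.1 + qx σ.2) := by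
  obtain ⟨v, q⟩ := σ
  cases q <;> simp only [pos, qx] <;> ring

theorem pos_im (δ : ℝ) (σ : St) : (pos δ σ).im = δ * (σ.1.2 + 1 + qy σ.2) := by
  obtain ⟨v, q⟩ := σ
  cases q <;> simp only [pos, qy] <;> ring

theorem qx_le (q : Q4) : |qx q| ≤ 1/4 := by
  cases q <;> simp only [qx] <;> rw [abs_le] <;> constructor <;> norm_num

theorem qy_le (q : Q4) : |qy q| ≤ 1/4 := by
  cases q <;> simp only [qy] <;> rw [abs_le] <;> constructor <;> norm_num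

theorem qx_sub (q q' : Q4) : |qx q - qx q'| ≤ 1/2 := by
  have h1 := abs_le.1 (qx_le q)
  have h2 := abs_le.1 (qx_le q')
  rw [abs_le]
  constructor <;> linarith [h1.1, h1.2, h2.1, h2.2]

theorem qy_sub (q q' : Q4) : |qy q - qy q'| ≤ 1/2 := by
  have h1 := abs_le.1 (qy_le q)
  have h2 := abs_le.1 (qy_le q')
  rw [abs_le]
  constructor <;> linarith [h1.1, h1.2, h2.1, h2.2]

theorem dist_le_of {z w : ℂ} {a b : ℝ} (h1 : |z.re - w.re| ≤ a) (h2 : |z.im - w.im| ≤ b) :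
    dist z w ≤ a + b := by
  rw [Complex.dist_eq]
  refine (Complex.norm_le_abs_re_add_abs_im _).trans ?_
  rw [Complex.sub_re, Complex.sub_im]
  exact add_le_add h1 h2

theorem le_dist_re (z w : ℂ) : |z.re - w.re| ≤ dist z w := by
  rw [Complex.dist_eq, ← Complex.sub_re]
  exact Complex.abs_re_le_norm _

theorem le_dist_im (z w : ℂ) : |z.im - w.im| ≤ dist z w := by
  rw [Complex.dist_eq, ← Complex.sub_im]
  exact Complex.abs_im_le_norm _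

theorem re_diff {δ : ℝ} (hδ : 0 ≤ δ) (σ τ : St) :
    |(pos δ σ).re - (pos δ τ).re| ≤ δ * (|((σ.1.1 - τ.1.1 : ℤ) : ℝ)| + 1/2) ∧
    δ * (|((σ.1.1 - τ.1.1 : ℤ) : ℝ)| - 1/2) ≤ |(pos δ σ).re - (pos δ τ).re| := by
  have e : (pos δ σ).re - (pos δ τ).re =
      δ * (((σ.1.1 - τ.1.1 : ℤ) : ℝ) + (qx σ.2 - qx τ.2)) := by
    rw [pos_re, pos_re]
    push_cast
    ring
  rw [e, abs_mul, abs_of_nonneg hδ]
  have h1 := qx_sub σ.2 τ.2
  constructor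
  · exact mul_le_mul_of_nonneg_left ((abs_add_le _ _).trans (by linarith)) hδ
  · refine mul_le_mul_of_nonneg_left ?_ hδ
    have h2 := abs_sub_abs_le_abs_add (((σ.1.1 - τ.1.1 : ℤ) : ℝ)) (qx σ.2 - qx τ.2)
    linarith

theorem im_diff {δ : ℝ} (hδ : 0 ≤ δ) (σ τ : St) :
    |(pos δ σ).im - (pos δ τ).im| ≤ δ * (|((σ.1.2 - τ.1.2 : ℤ) : ℝ)| + 1/2) ∧
    δ * (|((σ.1.2 - τ.1.2 : ℤ) : ℝ)| - 1/2) ≤ |(pos δ σ).im - (pos δ τ).im| := by
  have e : (pos δ σ).im - (pos δ τ).im =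
      δ * (((σ.1.2 - τ.1.2 : ℤ) : ℝ) + (qy σ.2 - qy τ.2)) := by
    rw [pos_im, pos_im]
    push_cast
    ring
  rw [e, abs_mul, abs_of_nonneg hδ]
  have h1 := qy_sub σ.2 τ.2
  constructor
  · exact mul_le_mul_of_nonneg_left ((abs_add_le _ _).trans (by linarith)) hδ
  · refine mul_le_mul_of_nonneg_left ?_ hδ
    have h2 := abs_sub_abs_le_abs_add (((σ.1.2 - τ.1.2 : ℤ) : ℝ)) (qy σ.2 - qy τ.2)
    linarith

theorem sd_cast (u v : Vtx) : ((sd u v : ℤ) : ℝ) =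
    max |((u.1 - v.1 : ℤ) : ℝ)| |((u.2 - v.2 : ℤ) : ℝ)| := by
  unfold sd
  rw [Int.cast_max, Int.cast_abs, Int.cast_abs]

end ML

open ML

theorem dist_pos_le {δ : ℝ} (hδ : 0 ≤ δ) (σ τ : St) :
    dist (pos δ σ) (pos δ τ) ≤ δ * (2 * ((sd σ.1 τ.1 : ℤ) : ℝ) + 1) := by
  have h1 := (re_diff hδ σ τ).1
  have h2 := (im_diff hδ σ τ).1
  refine (dist_le_of h1 h2).trans ?_
  rw [sd_cast]
  have h3 := le_max_left |((σ.1.1 - τ.1.1 : ℤ) : ℝ)| |((σ.1.2 - τ.1.2 : ℤ) : ℝ)|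
  have h4 := le_max_right |((σ.1.1 - τ.1.1 : ℤ) : ℝ)| |((σ.1.2 - τ.1.2 : ℤ) : ℝ)|
  rw [← mul_add]
  exact mul_le_mul_of_nonneg_left (by linarith) hδ

theorem le_dist_pos {δ : ℝ} (hδ : 0 ≤ δ) (σ τ : St) :
    δ * (((sd σ.1 τ.1 : ℤ) : ℝ) - 1/2) ≤ dist (pos δ σ) (pos δ τ) := by
  rw [sd_cast]
  rcases max_choice |((σ.1.1 - τ.1.1 : ℤ) : ℝ)| |((σ.1.2 - τ.1.2 : ℤ) : ℝ)| with h | h
  · rw [h]
    exact (re_diff hδ σ τ).2.trans (le_dist_re _ _)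
  · rw [h]
    exact (im_diff hδ σ τ).2.trans (le_dist_im _ _)

/-- One step has length `δ / 2`. -/
theorem pos_nxt {δ : ℝ} (hδ : 0 ≤ δ) (G : Set Edg) (σ : St) :
    dist (pos δ σ) (pos δ (nxt G σ)) ≤ δ / 2 := by
  obtain ⟨⟨x, y⟩, q⟩ := σ
  have key : ∀ τ : St, (|(pos δ ((x, y), q)).re - (pos δ τ).re| ≤ δ / 2 ∧
      |(pos δ ((x, y), q)).im - (pos δ τ).im| ≤ 0) ∨
      (|(pos δ ((x, y), q)).re - (pos δ τ).re| ≤ 0 ∧
      |(pos δ ((x, y), q)).im - (pos δ τ).im| ≤ δ / 2) →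
      dist (pos δ ((x, y), q)) (pos δ τ) ≤ δ / 2 := by
    rintro τ (⟨h1, h2⟩ | ⟨h1, h2⟩)
    · exact (dist_le_of h1 h2).trans (by linarith)
    · exact (dist_le_of h1 h2).trans (by linarith)
  apply key
  rw [pos_re, pos_im, pos_re, pos_im]
  by_cases h : ae ((x, y), q) ∈ G
  · rw [nxt_open h]
    cases q
    · left
      simp only [mv_ne, qx, qy]
      push_cast
      constructor <;> rw [abs_le] <;> constructor <;> ring_nf <;> linarith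
    · right
      simp only [mv_nw, qx, qy]
      push_cast
      constructor <;> rw [abs_le] <;> constructor <;> ring_nf <;> linarith
    · left
      simp only [mv_sw, qx, qy]
      push_cast
      constructor <;> rw [abs_le] <;> constructor <;> ring_nf <;> linarith
    · right
      simp only [mv_se, qx, qy]
      push_cast
      constructor <;> rw [abs_le] <;> constructor <;> ring_nf <;> linarith
  · rw [nxt_closed h]
    cases q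
    · right
      simp only [rt_ne, qx, qy]
      constructor <;> rw [abs_le] <;> constructor <;> ring_nf <;> linarith
    · left
      simp only [rt_nw, qx, qy]
      constructor <;> rw [abs_le] <;> constructor <;> ring_nf <;> linarith
    · right
      simp only [rt_sw, qx, qy]
      constructor <;> rw [abs_le] <;> constructor <;> ring_nf <;> linarith
    · left
      simp only [rt_se, qx, qy]
      constructor <;> rw [abs_le] <;> constructor <;> ring_nf <;> linarith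

namespace Rect

variable (R : Rect)

theorem shape : ∃ κ S δ0 : ℝ, 0 < κ ∧ 0 < S ∧ 0 < δ0 ∧ δ0 ≤ 1 ∧ ∀ δ : ℝ, 0 < δ → δ ≤ δ0 →
    (R.dm δ).Shape κ (S / δ) := by
  have hA := R.hA
  have hB := R.hB
  have hH := R.hH
  have ht1 : 0 < R.t + R.A := by linarith [R.ht1]
  have ht2 : 0 < R.B - R.t := by linarith [R.ht2]
  obtain ⟨S, hS⟩ : ∃ S, S = R.A + R.B + R.H := ⟨_, rfl⟩
  have hS0 : 0 < S := by rw [hS]; positivity
  obtain ⟨m, hm⟩ : ∃ m, m = min R.A (min R.B R.H) := ⟨_, rfl⟩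
  have hm0 : 0 < m := by
    rw [hm]
    exact lt_min hA (lt_min hB hH)
  have hmA : m ≤ R.A := by rw [hm]; exact min_le_left _ _
  have hmB : m ≤ R.B := by rw [hm]; exact (min_le_right _ _).trans (min_le_left _ _)
  have hmH : m ≤ R.H := by rw [hm]; exact (min_le_right _ _).trans (min_le_right _ _)
  obtain ⟨δ0, hδ0⟩ : ∃ δ0, δ0 = min 1 (min (m / 8) (min (R.t + R.A) (R.B - R.t))) := ⟨_, rfl⟩
  have hd0 : 0 < δ0 := by
    rw [hδ0]
    exact lt_min one_pos (lt_min (by positivity) (lt_min ht1 ht2))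
  refine ⟨m / (2 * S), S, δ0, by positivity, hS0, hd0, by rw [hδ0]; exact min_le_left _ _,
    fun δ hδ hle => ?_⟩
  have h1 : δ ≤ m / 8 := hle.trans (by
    rw [hδ0]
    exact (min_le_right _ _).trans (min_le_left _ _))
  have h2 : δ ≤ R.t + R.A := hle.trans (by
    rw [hδ0]
    exact (min_le_right _ _).trans ((min_le_right _ _).trans (min_le_left _ _)))
  have h3 : δ ≤ R.B - R.t := hle.trans (by
    rw [hδ0]
    exact (min_le_right _ _).trans ((min_le_right _ _).trans (min_le_right _ _)))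
  have hml : 8 ≤ m / δ := by
    rw [le_div_iff₀ hδ]
    linarith
  have hAl : m / δ ≤ R.A / δ := div_le_div_of_nonneg_right hmA hδ.le
  have hBl : m / δ ≤ R.B / δ := div_le_div_of_nonneg_right hmB hδ.le
  have hHl : m / δ ≤ R.H / δ := div_le_div_of_nonneg_right hmH hδ.le
  have hkn : m / (2 * S) * (S / δ) = m / δ / 2 := by
    field_simp
  have hSn : S / δ = R.A / δ + R.B / δ + R.H / δ := by
    rw [hS]
    ring
  have fl : ((⌊-(R.A / δ)⌋ : ℤ) : ℝ) ≤ -(R.A / δ) := Int.floor_le _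
  have fl' : -(R.A / δ) < ((⌊-(R.A / δ)⌋ : ℤ) : ℝ) + 1 := Int.lt_floor_add_one _
  have cB : R.B / δ ≤ ((⌈R.B / δ⌉ : ℤ) : ℝ) := Int.le_ceil _
  have cB' : ((⌈R.B / δ⌉ : ℤ) : ℝ) < R.B / δ + 1 := Int.ceil_lt_add_one _
  have cH : R.H / δ ≤ ((⌈R.H / δ⌉ : ℤ) : ℝ) := Int.le_ceil _
  have cH' : ((⌈R.H / δ⌉ : ℤ) : ℝ) < R.H / δ + 1 := Int.ceil_lt_add_one _
  have ft : ((⌊R.t / δ⌋ : ℤ) : ℝ) ≤ R.t / δ := Int.floor_le _
  have ft' : R.t / δ < ((⌊R.t / δ⌋ : ℤ) : ℝ) + 1 := Int.lt_floor_add_one _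
  have ht1' : -(R.A / δ) + 1 ≤ R.t / δ := by
    have : 1 ≤ (R.t + R.A) / δ := by
      rw [le_div_iff₀ hδ]
      linarith
    rw [add_div] at this
    linarith
  have ht2' : R.t / δ + 1 ≤ R.B / δ := by
    have : 1 ≤ (R.B - R.t) / δ := by
      rw [le_div_iff₀ hδ]
      linarith
    rw [sub_div] at this
    linarith
  refine ⟨⟨?_, ?_, ?_, ?_, ?_⟩, ?_, ?_, ?_, ?_, ?_⟩
  · show ⌊-(R.A / δ)⌋ + 1 < 0
    have : ((⌊-(R.A / δ)⌋ : ℤ) : ℝ) + 1 < 0 := by linarith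
    exact_mod_cast this
  · show 0 < ⌈R.B / δ⌉ - 1
    have : (0 : ℝ) < ((⌈R.B / δ⌉ : ℤ) : ℝ) - 1 := by linarith
    exact_mod_cast this
  · show 0 < ⌈R.H / δ⌉ - 2
    have : (0 : ℝ) < ((⌈R.H / δ⌉ : ℤ) : ℝ) - 2 := by linarith
    exact_mod_cast this
  · show ⌊-(R.A / δ)⌋ + 1 ≤ ⌊R.t / δ⌋
    rw [Int.le_floor]
    push_cast
    linarith
  · show ⌊R.t / δ⌋ ≤ ⌈R.B / δ⌉ - 1
    have : ((⌊R.t / δ⌋ : ℤ) : ℝ) ≤ ((⌈R.B / δ⌉ : ℤ) : ℝ) - 1 := by linarith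
    exact_mod_cast this
  · show m / (2 * S) * (S / δ) ≤ -(((⌊-(R.A / δ)⌋ + 1 : ℤ)) : ℝ)
    rw [hkn]
    push_cast
    linarith
  · show m / (2 * S) * (S / δ) ≤ (((⌈R.B / δ⌉ - 1 : ℤ)) : ℝ)
    rw [hkn]
    push_cast
    linarith
  · show m / (2 * S) * (S / δ) ≤ (((⌈R.H / δ⌉ - 2 : ℤ)) : ℝ)
    rw [hkn]
    push_cast
    linarith
  · show (((⌈R.B / δ⌉ - 1) - (⌊-(R.A / δ)⌋ + 1) : ℤ) : ℝ) ≤ S / δ
    rw [hSn]
    push_cast
    linarith
  · show (((⌈R.H / δ⌉ - 2 : ℤ)) : ℝ) ≤ S / δ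
    rw [hSn]
    push_cast
    linarith

theorem pos_near {δ : ℝ} (hδ : 0 < δ) {σ : St}
    (h : inR (R.dm δ).l (R.dm δ).r 0 (R.dm δ).h σ.1) : ∃ z ∈ R.D, dist (pos δ σ) z ≤ δ := by
  obtain ⟨⟨h1, h2⟩, h3, h4⟩ := h
  have h1' : ⌊-(R.A / δ)⌋ + 1 ≤ σ.1.1 := h1
  have h2' : σ.1.1 ≤ ⌈R.B / δ⌉ - 1 := h2
  have h4' : σ.1.2 ≤ ⌈R.H / δ⌉ - 2 := h4
  have g1 : ((⌊-(R.A / δ)⌋ : ℤ) : ℝ) + 1 ≤ σ.1.1 := by exact_mod_cast h1'
  have g2 : (σ.1.1 : ℝ) ≤ ((⌈R.B / δ⌉ : ℤ) : ℝ) - 1 := by exact_mod_cast h2'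
  have g3 : (0 : ℝ) ≤ σ.1.2 := by exact_mod_cast h3
  have g4 : (σ.1.2 : ℝ) ≤ ((⌈R.H / δ⌉ : ℤ) : ℝ) - 2 := by exact_mod_cast h4'
  have fl' : -(R.A / δ) < ((⌊-(R.A / δ)⌋ : ℤ) : ℝ) + 1 := Int.lt_floor_add_one _
  have cB' : ((⌈R.B / δ⌉ : ℤ) : ℝ) < R.B / δ + 1 := Int.ceil_lt_add_one _
  have cH' : ((⌈R.H / δ⌉ : ℤ) : ℝ) < R.H / δ + 1 := Int.ceil_lt_add_one _
  refine ⟨⟨δ * σ.1.1, δ * (σ.1.2 + 1)⟩, ⟨?_, ?_, ?_, ?_⟩, ?_⟩
  · show -R.A < δ * σ.1.1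
    have : -(R.A / δ) < σ.1.1 := by linarith
    have h5 := mul_lt_mul_of_pos_left this hδ
    have e : δ * -(R.A / δ) = -R.A := by field_simp
    linarith
  · show δ * σ.1.1 < R.B
    have : (σ.1.1 : ℝ) < R.B / δ := by linarith
    have h5 := mul_lt_mul_of_pos_left this hδ
    have e : δ * (R.B / δ) = R.B := by field_simp
    linarith
  · show 0 < δ * (σ.1.2 + 1)
    positivity
  · show δ * (σ.1.2 + 1) < R.H
    have : (σ.1.2 : ℝ) + 1 < R.H / δ := by linarith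
    have h5 := mul_lt_mul_of_pos_left this hδ
    have e : δ * (R.H / δ) = R.H := by field_simp
    linarith
  · have k1 : |(pos δ σ).re - δ * σ.1.1| ≤ δ / 2 := by
      rw [pos_re]
      have e : δ * ((σ.1.1 : ℝ) + qx σ.2) - δ * σ.1.1 = δ * qx σ.2 := by ring
      rw [e, abs_mul, abs_of_pos hδ]
      have := mul_le_mul_of_nonneg_left (qx_le σ.2) hδ.le
      linarith
    have k2 : |(pos δ σ).im - δ * (σ.1.2 + 1)| ≤ δ / 2 := by
      rw [pos_im]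
      have e : δ * ((σ.1.2 : ℝ) + 1 + qy σ.2) - δ * (σ.1.2 + 1) = δ * qy σ.2 := by ring
      rw [e, abs_mul, abs_of_pos hδ]
      have := mul_le_mul_of_nonneg_left (qy_le σ.2) hδ.le
      linarith
    refine (dist_le_of (w := ⟨δ * σ.1.1, δ * (σ.1.2 + 1)⟩) k1 k2).trans ?_
    linarith

theorem pos_start {δ : ℝ} (hδ : 0 < δ) : dist (pos δ (R.dm δ).start) R.a ≤ 3 * δ := by
  have cH : R.H / δ ≤ ((⌈R.H / δ⌉ : ℤ) : ℝ) := Int.le_ceil _
  have cH' : ((⌈R.H / δ⌉ : ℤ) : ℝ) < R.H / δ + 1 := Int.ceil_lt_add_one _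
  have ft : ((⌊R.t / δ⌋ : ℤ) : ℝ) ≤ R.t / δ := Int.floor_le _
  have ft' : R.t / δ < ((⌊R.t / δ⌋ : ℤ) : ℝ) + 1 := Int.lt_floor_add_one _
  have eH : δ * (R.H / δ) = R.H := by field_simp
  have et : δ * (R.t / δ) = R.t := by field_simp
  have m1 := mul_le_mul_of_nonneg_left cH hδ.le
  have m2 := mul_le_mul_of_nonneg_left cH'.le hδ.le
  have m3 := mul_le_mul_of_nonneg_left ft hδ.le
  have m4 := mul_le_mul_of_nonneg_left ft'.le hδ.le
  have k1 : |(pos δ (R.dm δ).start).re - R.a.re| ≤ δ := by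
    rw [pos_re]
    show |δ * (((⌊R.t / δ⌋ : ℤ) : ℝ) + 1 / 4) - R.t| ≤ δ
    rw [abs_le]
    constructor <;> nlinarith
  have k2 : |(pos δ (R.dm δ).start).im - R.a.im| ≤ δ := by
    rw [pos_im]
    show |δ * (((⌈R.H / δ⌉ - 2 : ℤ) : ℝ) + 1 + 1 / 4) - R.H| ≤ δ
    push_cast
    rw [abs_le]
    constructor <;> nlinarith
  refine (dist_le_of k1 k2).trans ?_
  linarith

theorem pos_stop {δ : ℝ} (hδ : 0 < δ) : dist (pos δ Dm.stop) 0 ≤ 3 * δ := by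
  have k1 : |(pos δ Dm.stop).re - (0 : ℂ).re| ≤ δ := by
    rw [pos_re]
    show |δ * (((0 : ℤ) : ℝ) + 1 / 4) - 0| ≤ δ
    push_cast
    rw [abs_le]
    constructor <;> nlinarith
  have k2 : |(pos δ Dm.stop).im - (0 : ℂ).im| ≤ δ := by
    rw [pos_im]
    show |δ * (((0 : ℤ) : ℝ) + 1 + -1 / 4) - 0| ≤ δ
    push_cast
    rw [abs_le]
    constructor <;> nlinarith
  refine (dist_le_of k1 k2).trans ?_
  linarith

end Rect

end H984N
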