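import Pool.Agent.H984R4.NP.Good
import Pool.Agent.H984R4.NP.ModelLem
import Pool.Agent.H984R4.NP.PL
import Pool.Agent.H984R4.NP.Walk

/-!
D8: almost sure properties of the limits which follow from closed sets.
-/

namespace H984N

open H974 Finset H342P H984P MeasureTheory Filter Topology

variable (R : Rect) {δ : ℕ → ℝ} (hδ : ∀ i, 0 < δ i) (hlim : Tendsto δ atTop (𝓝 0))
  {μ : ProbabilityMeasure X} (hμ : Tendsto (fun i => R.law (δ i)) atTop (𝓝 μ))

include hδ hlim hμ

/-- Closed sets of large probability. -/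
theorem limit_closed {G : Set X} (hG : IsClosed G) {ε δ0 : ℝ} (hε : 0 ≤ ε) (hδ0 : 0 < δ0)
    (h : ∀ d : ℝ, 0 < d → d ≤ δ0 → R.prob d (fun F => (R.curve d F, R.time d F) ∉ G) ≤ ε) :
    (μ : Measure X) Gᶜ ≤ ENNReal.ofReal ε := by
  have h1 := ProbabilityMeasure.le_liminf_measure_open_of_tendsto hμ hG.isOpen_compl
  refine h1.trans ?_
  have h2 : ∀ᶠ i in atTop, (R.law (δ i) : Measure X) Gᶜ ≤ ENNReal.ofReal ε := by
    filter_upwards [hlim.eventually (ge_mem_nhds hδ0)] with i hi
    rw [R.law_apply (δ i) hG.isOpen_compl.measurableSet]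
    exact ENNReal.ofReal_le_ofReal (h (δ i) (hδ i) hi)
  calc liminf (fun i => (R.law (δ i) : Measure X) Gᶜ) atTop ≤
        liminf (fun _ : ℕ => ENNReal.ofReal ε) atTop := liminf_le_liminf h2
    _ = ENNReal.ofReal ε := liminf_const _

omit hδ hlim hμ in
theorem Limit_prob_false {d : ℝ} {A : Finset Edg → Prop}
    (h : ∀ F, F ⊆ (R.dm d).edges → ¬ A F) : R.prob d A ≤ 0 := by
  unfold Rect.prob P Pr
  rw [Ex_congr (g := fun _ => (0 : ℝ)) (fun F hF => ind_not_of (h F hF)), Ex_const]

theorem limit_good {β : ℝ} (hβ : 0 < β) (hT : R.TightH β) :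
    ∀ᵐ p ∂(μ : Measure X), ∃ Λ : ℝ, 0 < Λ ∧ p ∈ Good β Λ := by
  rw [ae_iff]
  rw [← nonpos_iff_eq_zero]
  apply ENNReal.le_of_forall_pos_le_add
  intro ε hε _
  obtain ⟨Λ, δ0, hΛ, hδ0, h⟩ := hT ε (by exact_mod_cast hε)
  have h1 := limit_closed R hδ hlim hμ (good_compact (Λ := Λ) hβ).isClosed
    (NNReal.coe_nonneg ε) hδ0 h
  rw [zero_add]
  refine (measure_mono ?_).trans (h1.trans ?_)
  · intro p hp hp2
    exact hp ⟨Λ, hΛ, hp2⟩
  · rw [ENNReal.ofReal_coe_nnreal]

theorem limit_ends : ∀ᵐ p ∂(μ : Measure X), p.1 0 = R.a ∧ p.1 1 = 0 := by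
  obtain ⟨κ, S, δ0, hκ, hS, hδ0, _, hshape⟩ := R.shape
  have key : ∀ n : ℕ, ∀ᵐ p ∂(μ : Measure X),
      dist (p.1 0) R.a ≤ 1 / ((n : ℝ) + 1) ∧ dist (p.1 1) 0 ≤ 1 / ((n : ℝ) + 1) := by
    intro n
    set η : ℝ := 1 / ((n : ℝ) + 1) with hη
    have hη0 : 0 < η := by positivity
    have c0 : Continuous (fun p : X => p.1 (0 : unitInterval)) := by fun_prop
    have c1 : Continuous (fun p : X => p.1 (1 : unitInterval)) := by fun_prop
    have hG : IsClosed {p : X | dist (p.1 0) R.a ≤ η ∧ dist (p.1 1) 0 ≤ η} :=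
      (isClosed_le (c0.dist continuous_const) continuous_const).inter
        (isClosed_le (c1.dist continuous_const) continuous_const)
    have h1 := limit_closed R hδ hlim hμ hG le_rfl (lt_min hδ0 (show 0 < η / 3 by positivity))
      (fun d hd hd2 => Limit_prob_false R (fun F hF hcon => hcon ?_))
    · rw [ENNReal.ofReal_zero] at h1
      rw [ae_iff]
      exact le_antisymm h1 bot_le
    · have hdη : 3 * d ≤ η := by
        have := hd2.trans (min_le_right _ _)
        linarith
      have hok := (hshape d hd (hd2.trans (min_le_left _ _))).ok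
      constructor
      · change dist (pl ((R.dm d).len F) (fun k => pos d ((R.dm d).walk F k)) 0) R.a ≤ η
        rw [pl_zero, walk_zero]
        exact (R.pos_start hd).trans hdη
      · change dist (pl ((R.dm d).len F) (fun k => pos d ((R.dm d).walk F k)) 1) 0 ≤ η
        rw [pl_one, walk_len hok hF]
        exact (Rect.pos_stop hd).trans hdη
  filter_upwards [ae_all_iff.2 key] with p hp
  have hlim0 : Tendsto (fun n : ℕ => 1 / ((n : ℝ) + 1)) atTop (𝓝 0) :=
    tendsto_one_div_add_atTop_nhds_zero_nat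
  constructor
  · exact dist_le_zero.1 (ge_of_tendsto' hlim0 (fun n => (hp n).1))
  · exact dist_le_zero.1 (ge_of_tendsto' hlim0 (fun n => (hp n).2))

theorem limit_closure : ∀ᵐ p ∂(μ : Measure X), ∀ s : unitInterval, p.1 s ∈ closure R.D := by
  obtain ⟨κ, S, δ0, hκ, hS, hδ0, _, hshape⟩ := R.shape
  have hne : R.D.Nonempty := by
    refine ⟨⟨0, R.H / 2⟩, ?_⟩
    have h1 := R.hA
    have h2 := R.hB
    have h3 := R.hH
    refine ⟨?_, ?_, ?_, ?_⟩ <;> simp only <;> linarith
  have key : ∀ n : ℕ, ∀ᵐ p ∂(μ : Measure X), ∀ s : unitInterval,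
      Metric.infDist (p.1 s) R.D ≤ 1 / ((n : ℝ) + 1) := by
    intro n
    set η : ℝ := 1 / ((n : ℝ) + 1) with hη
    have hη0 : 0 < η := by positivity
    have hG : IsClosed {p : X | ∀ s : unitInterval, Metric.infDist (p.1 s) R.D ≤ η} := by
      rw [Set.ofPred_forall]
      refine isClosed_iInter fun s => isClosed_le ?_ continuous_const
      exact (Metric.continuous_infDist_pt _).comp (by fun_prop)
    have h1 := limit_closed R hδ hlim hμ hG le_rfl (lt_min hδ0 (show 0 < η / 2 by positivity))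
      (fun d hd hd2 => Limit_prob_false R (fun F hF hcon => hcon ?_))
    · rw [ENNReal.ofReal_zero] at h1
      rw [ae_iff]
      exact le_antisymm h1 bot_le
    · have hdη : 2 * d ≤ η := by
        have := hd2.trans (min_le_right _ _)
        linarith
      have hok := (hshape d hd (hd2.trans (min_le_left _ _))).ok
      intro s
      change Metric.infDist (pl ((R.dm d).len F) (fun k => pos d ((R.dm d).walk F k)) s) R.D ≤ η
      obtain ⟨k, _, hk⟩ := pl_close (N := (R.dm d).len F)
        (p := fun k => pos d ((R.dm d).walk F k)) (δ := d / 2) (by positivity) (fun k _ => by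
          have := pos_nxt hd.le ((R.dm d).cfg F) ((R.dm d).walk F k)
          rwa [← walk_succ] at this) s
      obtain ⟨z, hz, hz2⟩ := R.pos_near hd (walk_in hok hF k)
      refine (Metric.infDist_le_dist_of_mem hz).trans ?_
      refine (dist_triangle _ (pos d ((R.dm d).walk F k)) _).trans ?_
      linarith
  filter_upwards [ae_all_iff.2 key] with p hp s
  have hlim0 : Tendsto (fun n : ℕ => 1 / ((n : ℝ) + 1)) atTop (𝓝 0) :=
    tendsto_one_div_add_atTop_nhds_zero_nat
  rw [Metric.mem_closure_iff_infDist_zero hne]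
  exact le_antisymm (ge_of_tendsto' hlim0 (fun n => hp n s)) Metric.infDist_nonneg

end H984N
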