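import Pool.Agent.H984R4.NP.MeshB
import Pool.Agent.H984R4.NP.Limit
import Pool.Agent.H984R4.NP.DimLow
import Pool.Agent.H984R4.NP.DimUp
import Pool.Agent.H984R4.NP.Exist

/-!
D11: the theorem, from the three inputs.
-/

namespace H984N

open H974 Finset H342P H984P MeasureTheory Filter Topology

/-- exponents approaching 4/7 -/
theorem Final_beta (m : ℕ) : (0:ℝ) < 4/7 - 1/((m:ℝ)+2) ∧ (4/7 - 1/((m:ℝ)+2) : ℝ) < 4/7 := by
  have h1 : (0:ℝ) < 1/((m:ℝ)+2) := by positivity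
  have h2 : 1/((m:ℝ)+2) ≤ 1/2 := by
    apply one_div_le_one_div_of_le (by norm_num)
    have : (0:ℝ) ≤ m := Nat.cast_nonneg m
    linarith
  constructor <;> linarith

theorem Final_alpha (m : ℕ) : (0:ℝ) < 7/4 - 1/((m:ℝ)+2) ∧ (7/4 - 1/((m:ℝ)+2) : ℝ) < 7/4 := by
  have h1 : (0:ℝ) < 1/((m:ℝ)+2) := by positivity
  have h2 : 1/((m:ℝ)+2) ≤ 1/2 := by
    apply one_div_le_one_div_of_le (by norm_num)
    have : (0:ℝ) ≤ m := Nat.cast_nonneg m
    linarith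
  constructor <;> linarith

theorem Final_tend : Tendsto (fun m : ℕ => 1/((m:ℝ)+2)) atTop (𝓝 0) := by
  have h : Tendsto (fun m : ℕ => (m:ℝ)+2) atTop atTop :=
    tendsto_atTop_add_const_right _ _ tendsto_natCast_atTop_atTop
  refine h.inv_tendsto_atTop.congr fun m => ?_
  rw [Pi.inv_apply, one_div]

theorem Final_74 : ENNReal.ofReal (7/4 : ℝ) = 7/4 := by
  rw [ENNReal.ofReal_div_of_pos (by norm_num)]
  norm_num

/-- the deterministic part -/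
theorem Final_det {f : C(unitInterval, ℂ)}
    (hH : ∀ m : ℕ, ∃ Λ : ℝ, ∀ s t : unitInterval,
      dist (f s) (f t) ≤ Λ * |(s : ℝ) - t| ^ (4/7 - 1/((m:ℝ)+2)))
    (hE : ∀ m : ℕ, EnI (7/4 - 1/((m:ℝ)+2)) f ≠ ⊤) {s t : unitInterval} (hst : s < t) :
    dimH (f '' Set.Icc s t) = 7 / 4 := by
  rw [← Final_74]
  apply le_antisymm
  · have h1 : Tendsto (fun m : ℕ => ENNReal.ofReal (1 / (4/7 - 1/((m:ℝ)+2)))) atTop
        (𝓝 (ENNReal.ofReal (7/4))) := by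
      apply ENNReal.tendsto_ofReal
      have h2 : Tendsto (fun m : ℕ => (4/7 - 1/((m:ℝ)+2) : ℝ)) atTop (𝓝 (4/7 - 0)) :=
        tendsto_const_nhds.sub Final_tend
      have h3 := (tendsto_const_nhds (x := (1:ℝ))).div h2 (by norm_num)
      rwa [show (1 / (4/7 - 0) : ℝ) = 7/4 by norm_num] at h3
    refine ge_of_tendsto' h1 fun m => ?_
    obtain ⟨Λ, hΛ⟩ := hH m
    exact dimH_le_of_holder (Final_beta m).1 hΛ _
  · have h1 : Tendsto (fun m : ℕ => ENNReal.ofReal (7/4 - 1/((m:ℝ)+2))) atTop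
        (𝓝 (ENNReal.ofReal (7/4))) := by
      apply ENNReal.tendsto_ofReal
      have h2 : Tendsto (fun m : ℕ => (7/4 - 1/((m:ℝ)+2) : ℝ)) atTop (𝓝 (7/4 - 0)) :=
        tendsto_const_nhds.sub Final_tend
      rwa [sub_zero] at h2
    refine le_of_tendsto' h1 fun m => ?_
    exact le_dimH_of_energy (Final_alpha m).1 (hE m) hst

theorem final_of {c C C2 : ℝ} (hc : 0 < c) (hC : 0 < C) (hL : LowA c (1/4))
    (hU : TwoUp C (1/4)) (hC2 : 0 < C2) (hA : AnnUp C2) (R : Rect) :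
    (∀ β ε : ℝ, 0 < β → β < 4/7 → 0 < ε → ∃ Λ δ0 : ℝ, 0 < Λ ∧ 0 < δ0 ∧
      ∀ δ : ℝ, 0 < δ → δ ≤ δ0 → 1 - ε ≤ R.prob δ (fun F =>
        (1 / Λ ≤ R.time δ F ∧ R.time δ F ≤ Λ) ∧
        ∀ s t : unitInterval, dist (R.curve δ F s) (R.curve δ F t) ≤
          Λ * |(s : ℝ) - t| ^ β)) ∧
    (∀ δ : ℕ → ℝ, (∀ i, 0 < δ i) → Tendsto δ atTop (𝓝 0) →
      ∃ φ : ℕ → ℕ, StrictMono φ ∧ ∃ μ : ProbabilityMeasure X,
        Tendsto (fun i => R.law (δ (φ i))) atTop (𝓝 μ)) ∧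
    (∀ δ : ℕ → ℝ, (∀ i, 0 < δ i) → Tendsto δ atTop (𝓝 0) → ∀ μ : ProbabilityMeasure X,
      Tendsto (fun i => R.law (δ i)) atTop (𝓝 μ) →
      ∀ᵐ p ∂(μ : Measure X), 0 < p.2 ∧ p.1 0 = R.a ∧ p.1 1 = 0 ∧
        (∀ s : unitInterval, p.1 s ∈ closure R.D) ∧
        (∀ β : ℝ, 0 < β → β < 4/7 → ∃ Λ : ℝ, ∀ s t : unitInterval,
          dist (p.1 s) (p.1 t) ≤ Λ * |(s : ℝ) - t| ^ β) ∧
        ∀ s t : unitInterval, s < t → dimH (p.1 '' Set.Icc s t) = 7 / 4) := by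
  refine ⟨?_, ?_, ?_⟩
  · intro β ε hβ hβ1 hε
    obtain ⟨Λ, δ0, hΛ, hδ0, h⟩ := tightH_of hc hC hL hU R hβ hβ1 ε hε
    refine ⟨Λ, δ0, hΛ, hδ0, fun δ hδ hδ' => ?_⟩
    have h1 := h δ hδ hδ'
    have h2 : R.prob δ (fun F => (R.curve δ F, R.time δ F) ∉ Good β Λ) =
        1 - R.prob δ (fun F => (R.curve δ F, R.time δ F) ∈ Good β Λ) := Pr_not _ _
    have h3 : R.prob δ (fun F => (R.curve δ F, R.time δ F) ∈ Good β Λ) ≤ R.prob δ (fun F =>
        (1 / Λ ≤ R.time δ F ∧ R.time δ F ≤ Λ) ∧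
        ∀ s t : unitInterval, dist (R.curve δ F s) (R.curve δ F t) ≤
          Λ * |(s : ℝ) - t| ^ β) := by
      apply Pr_mono
      · intro e; norm_num
      · intro F _ hF
        obtain ⟨-, g2, g3, g4⟩ := hF
        refine ⟨⟨?_, g4⟩, g2⟩
        rw [one_div]
        exact g3
    linarith
  · intro δ hδ hlim
    exact exists_limit R (β := 1/2) (by norm_num)
      (tightH_of hc hC hL hU R (by norm_num) (by norm_num)) hδ hlim
  · intro δ hδ hlim μ hμ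
    have hG : ∀ᵐ p ∂(μ : Measure X), ∀ m : ℕ, ∃ Λ : ℝ, 0 < Λ ∧
        p ∈ Good (4/7 - 1/((m:ℝ)+2)) Λ := by
      rw [ae_all_iff]
      intro m
      exact limit_good R hδ hlim hμ (Final_beta m).1
        (tightH_of hc hC hL hU R (Final_beta m).1 (Final_beta m).2)
    have hEn : ∀ᵐ p ∂(μ : Measure X), ∀ m : ℕ, 0 < p.2 → EnI (7/4 - 1/((m:ℝ)+2)) p.1 ≠ ⊤ := by
      rw [ae_all_iff]
      intro m
      exact limit_energy R (Final_alpha m).1
        (enB_of hC hU hC2 hA R (Final_alpha m).1 (Final_alpha m).2) hδ hlim hμ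
    filter_upwards [hG, hEn, limit_ends R hδ hlim hμ, limit_closure R hδ hlim hμ]
      with p h1 h2 h3 h4
    have hpos : 0 < p.2 := by
      obtain ⟨Λ, hΛ, -, -, h5, -⟩ := h1 0
      exact lt_of_lt_of_le (inv_pos.mpr hΛ) h5
    refine ⟨hpos, h3.1, h3.2, h4, ?_, ?_⟩
    · intro β hβ hβ1
      have hev : ∀ᶠ m : ℕ in atTop, 1/((m:ℝ)+2) < 4/7 - β :=
        Final_tend.eventually (gt_mem_nhds (by linarith))
      obtain ⟨m, hm⟩ := hev.exists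
      obtain ⟨Λ, hΛ, -, h5, -⟩ := h1 m
      refine ⟨Λ, fun s t => (h5 s t).trans ?_⟩
      have h6 : |(s : ℝ) - t| ≤ 1 := by
        rw [abs_le]
        have a1 := s.2.1
        have a2 := s.2.2
        have a3 := t.2.1
        have a4 := t.2.2
        constructor <;> linarith
      have h7 := Real.rpow_le_rpow_of_exponent_ge' (abs_nonneg ((s : ℝ) - t)) h6 hβ.le
        (show β ≤ 4/7 - 1/((m:ℝ)+2) by linarith)
      exact mul_le_mul_of_nonneg_left h7 hΛ.le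
    · intro s t hst
      refine Final_det (fun m => ?_) (fun m => h2 m hpos) hst
      obtain ⟨Λ, -, -, h5, -⟩ := h1 m
      exact ⟨Λ, h5⟩

end H984N
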