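import Pool.Agent.H984R4.NP.Scale

/-!
C7: all scales together.
-/

namespace H984N

open H974 Finset H342P H984P

/-- The real scale `κ n / (4 · 2^j)`. -/
noncomputable def ho_y (κ n : ℝ) (j : ℕ) : ℝ := κ * n / (4 * 2 ^ j)

theorem ho_floor {y : ℝ} (hy : 2 ≤ y) : y / 2 ≤ (⌊y⌋ : ℝ) := by
  have := Int.sub_one_lt_floor y
  linarith

theorem ho_y_pos {κ n : ℝ} (hκ : 0 < κ) (hn : 0 < n) (j : ℕ) : 0 < ho_y κ n j := by
  unfold ho_y
  positivity

theorem ho_y_succ (κ n : ℝ) (j : ℕ) : ho_y κ n j = 2 * ho_y κ n (j + 1) := by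
  unfold ho_y
  rw [pow_succ]
  field_simp

theorem ho_y_eq (κ n : ℝ) (j : ℕ) : ho_y κ n j = κ / 4 * n * (1 / 2 : ℝ) ^ j := by
  unfold ho_y
  rw [one_div, inv_pow]
  field_simp

/-- Deterministic part. -/
theorem ho_det {κ γ n c1 η Λ B : ℝ} {K0 Q : ℕ} (hκ : 0 < κ) (hκ1 : κ ≤ 1) (hγ : 7/4 < γ)
    (hη : η * (γ - 1) = γ - 7/4) (hη0 : 0 ≤ η) (hn : 1 ≤ n) (hg0 : 2 * n ^ η ≤ ho_y κ n 0)
    (hc1 : 0 < c1) (hK0 : 1 ≤ K0)
    (hB : ∀ j : ℕ, ((K0 + j * Q : ℕ) : ℝ) ^ 4 * ((1/2 : ℝ) ^ (γ - 7/4)) ^ j ≤ B)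
    (hΛ1 : B ≤ Λ * c1 * (κ / 8) ^ (7/4 : ℝ)) (hΛ2 : (4:ℝ) ^ (γ - 1) ≤ Λ) (hΛ0 : 0 ≤ Λ)
    {D : Dm} (hD : D.Shape κ n) {F : Finset Edg} (hF : F ⊆ D.edges)
    (hno : ∀ j : ℕ, 2 * n ^ η ≤ ho_y κ n j → ¬ D.Fast ⌊ho_y κ n j⌋
      (c1 * (((⌊ho_y κ n j⌋ : ℤ) : ℝ) / ((K0 + j * Q : ℕ) : ℝ) ^ 2) ^ (7/4 : ℝ)) F) :
    Hol D γ Λ n F := by
  classical
  have hn0 : 0 < n := by linarith
  have hnη : 1 ≤ n ^ η := Real.one_le_rpow hn hη0
  intro k l hkl hl
  set x : ℤ := sd (D.walk F k).1 (D.walk F l).1 with hx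
  have hx0 : 0 ≤ x := by
    rw [hx]
    unfold sd
    exact le_max_of_le_left (abs_nonneg _)
  have hx0' : (0:ℝ) ≤ x := by exact_mod_cast hx0
  have hxn : (x:ℝ) ≤ n := by
    have h1 := walk_in hD.ok hF k
    have h2 := walk_in hD.ok hF l
    have h3 := hD.w_le
    have h4 := hD.h_le
    have h5 : x ≤ D.r - D.l ∨ x ≤ D.h := by
      rw [hx]
      unfold sd
      obtain ⟨⟨a1, a2⟩, a3, a4⟩ := h1
      obtain ⟨⟨b1, b2⟩, b3, b4⟩ := h2
      rcases le_total |(D.walk F k).1.2 - (D.walk F l).1.2|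
        |(D.walk F k).1.1 - (D.walk F l).1.1| with h | h
      · left
        rw [max_eq_left h, abs_le]
        constructor <;> linarith
      · right
        rw [max_eq_right h, abs_le]
        constructor <;> linarith
    rcases h5 with h5 | h5
    · have : (x:ℝ) ≤ ((D.r - D.l : ℤ) : ℝ) := by exact_mod_cast h5
      linarith
    · have : (x:ℝ) ≤ ((D.h : ℤ) : ℝ) := by exact_mod_cast h5
      linarith
  have hn74 : 0 < n ^ (7/4 : ℝ) := Real.rpow_pos_of_pos hn0 _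
  by_cases hex : ∃ j : ℕ, 2 * n ^ η ≤ ho_y κ n j ∧ ⌊ho_y κ n j⌋ ≤ x
  · obtain ⟨hg, hw⟩ := Nat.find_spec hex
    set j := Nat.find hex with hj
    -- `x ≤ n 2^{-j}`
    have hxj : (x:ℝ) ≤ n * (1 / 2 : ℝ) ^ j := by
      rcases Nat.eq_zero_or_pos j with h0 | h0
      · rw [h0]
        simpa using hxn
      · obtain ⟨i, hi⟩ : ∃ i, j = i + 1 := ⟨j - 1, by omega⟩
        have hmin := Nat.find_min hex (m := i) (by omega)
        have hgi : 2 * n ^ η ≤ ho_y κ n i := by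
          rw [hi] at hg
          have := ho_y_succ κ n i
          have := ho_y_pos hκ hn0 (i + 1)
          linarith
        have hlt : x < ⌊ho_y κ n i⌋ := by
          by_contra hcon
          push Not at hcon
          exact hmin ⟨hgi, hcon⟩
        have h1 : (x:ℝ) ≤ ho_y κ n i := by
          have h2 : (x:ℝ) < (⌊ho_y κ n i⌋ : ℝ) := by exact_mod_cast hlt
          exact h2.le.trans (Int.floor_le _)
        rw [ho_y_eq] at h1
        rw [hi, pow_succ]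
        have h3 : 0 < n * (1 / 2 : ℝ) ^ i := by positivity
        nlinarith
    set w : ℤ := ⌊ho_y κ n j⌋ with hwdef
    set K : ℝ := ((K0 + j * Q : ℕ) : ℝ) with hK
    have hK1 : 1 ≤ K := by
      rw [hK]
      exact_mod_cast (by omega : 1 ≤ K0 + j * Q)
    set u : ℝ := (1 / 2 : ℝ) ^ j with hu
    have hu0 : 0 < u := by positivity
    have hwy : κ / 8 * (n * u) ≤ w := by
      have h1 := ho_floor (y := ho_y κ n j) (by linarith)
      rw [ho_y_eq] at h1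
      rw [hwdef]
      have : ho_y κ n j = κ / 4 * n * (1 / 2 : ℝ) ^ j := ho_y_eq _ _ _
      rw [this]
      linarith
    have hfast : c1 * ((w : ℝ) / K ^ 2) ^ (7/4 : ℝ) ≤ ((l - k : ℕ) : ℝ) := by
      have := hno j hg
      unfold Dm.Fast at this
      push Not at this
      exact this k l hkl hl hw
    -- lower bound
    have hpow : (κ / 8) ^ (7/4 : ℝ) * n ^ (7/4 : ℝ) * u ^ (7/4 : ℝ) / K ^ 4 ≤
        ((w : ℝ) / K ^ 2) ^ (7/4 : ℝ) := by
      have h1 : (κ / 8 * (n * u) / K ^ 2) ^ (7/4 : ℝ) ≤ ((w : ℝ) / K ^ 2) ^ (7/4 : ℝ) := by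
        apply Real.rpow_le_rpow (by positivity) _ (by norm_num)
        gcongr
      refine le_trans ?_ h1
      rw [Real.div_rpow (by positivity : (0:ℝ) ≤ κ / 8 * (n * u)) (by positivity : (0:ℝ) ≤ K ^ 2),
        Real.mul_rpow (by positivity : (0:ℝ) ≤ κ / 8) (by positivity : (0:ℝ) ≤ n * u),
        Real.mul_rpow (by positivity : (0:ℝ) ≤ n) (by positivity : (0:ℝ) ≤ u), ← mul_assoc]
      have h2 : (K ^ 2) ^ (7/4 : ℝ) ≤ K ^ 4 := by
        calc (K ^ 2) ^ (7/4 : ℝ) ≤ (K ^ 2) ^ (2 : ℝ) := by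
              apply Real.rpow_le_rpow_of_exponent_le _ (by norm_num)
              nlinarith
          _ = K ^ 4 := by
              rw [Real.rpow_two]
              ring
      have h3 : 0 < (K ^ 2) ^ (7/4 : ℝ) := by positivity
      exact div_le_div_of_nonneg_left (by positivity) h3 h2
    have hmain : u ^ (7/4 : ℝ) * ((1/2 : ℝ) ^ (γ - 7/4)) ^ j ≤
        Λ * (((l - k : ℕ) : ℝ) / n ^ (7/4 : ℝ)) := by
      have hBj := hB j
      rw [← hK] at hBj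
      have hK4 : 0 < K ^ 4 := by positivity
      have h1 : ((1/2 : ℝ) ^ (γ - 7/4)) ^ j ≤ B / K ^ 4 := by
        rw [le_div_iff₀ hK4]
        linarith
      calc u ^ (7/4 : ℝ) * ((1/2 : ℝ) ^ (γ - 7/4)) ^ j ≤ u ^ (7/4 : ℝ) * (B / K ^ 4) :=
            mul_le_mul_of_nonneg_left h1 (by positivity)
        _ ≤ u ^ (7/4 : ℝ) * (Λ * c1 * (κ / 8) ^ (7/4 : ℝ) / K ^ 4) := by
            apply mul_le_mul_of_nonneg_left _ (by positivity)
            gcongr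
        _ = Λ * (c1 * ((κ / 8) ^ (7/4 : ℝ) * n ^ (7/4 : ℝ) * u ^ (7/4 : ℝ) / K ^ 4) /
              n ^ (7/4 : ℝ)) := by
            field_simp
        _ ≤ Λ * (((l - k : ℕ) : ℝ) / n ^ (7/4 : ℝ)) := by
            apply mul_le_mul_of_nonneg_left _ hΛ0
            apply div_le_div_of_nonneg_right _ hn74.le
            exact (mul_le_mul_of_nonneg_left hpow hc1.le).trans hfast
    refine le_trans ?_ hmain
    have h1 : (x:ℝ) / n ≤ u := by
      rw [div_le_iff₀ hn0]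
      linarith
    calc ((x:ℝ) / n) ^ γ ≤ u ^ γ :=
          Real.rpow_le_rpow (by positivity) h1 (by linarith)
      _ = u ^ (7/4 : ℝ) * u ^ (γ - 7/4) := by
          rw [← Real.rpow_add hu0]
          congr 1
          ring
      _ = u ^ (7/4 : ℝ) * ((1/2 : ℝ) ^ (γ - 7/4)) ^ j := by
          congr 1
          rw [hu, ← Real.rpow_natCast, ← Real.rpow_natCast, ← Real.rpow_mul (by norm_num),
            ← Real.rpow_mul (by norm_num)]
          congr 1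
          ring
  · push Not at hex
    have hnb : ∃ j : ℕ, ho_y κ n j < 2 * n ^ η := by
      obtain ⟨j, hj⟩ := exists_pow_lt_of_lt_one (show (0:ℝ) < 2 * n ^ η / (κ / 4 * n) by positivity)
        (show (1/2:ℝ) < 1 by norm_num)
      refine ⟨j, ?_⟩
      rw [ho_y_eq]
      rw [lt_div_iff₀ (by positivity)] at hj
      linarith
    have hfs := Nat.find_spec hnb
    set j := Nat.find hnb with hj
    have hj0 : j ≠ 0 := by
      intro h0
      rw [h0] at hfs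
      linarith
    obtain ⟨i, hi⟩ : ∃ i, j = i + 1 := ⟨j - 1, by omega⟩
    have hmin := Nat.find_min hnb (m := i) (by omega)
    push Not at hmin
    have hxi := hex i hmin
    rw [hi] at hfs
    have h1 : (x:ℝ) ≤ 4 * n ^ η := by
      have h2 : (x:ℝ) < (⌊ho_y κ n i⌋ : ℝ) := by exact_mod_cast hxi
      have h3 := Int.floor_le (ho_y κ n i)
      have h4 := ho_y_succ κ n i
      linarith
    have hxl : (x:ℝ) ≤ ((l - k : ℕ) : ℝ) := by
      have := walk_sd D F hkl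
      exact_mod_cast this
    rcases hx0'.eq_or_lt with h0 | h0
    · rw [← h0, zero_div, Real.zero_rpow (by linarith)]
      positivity
    · have e1 : ((x:ℝ) / n) ^ γ = (x:ℝ) ^ (γ - 1) * x / n ^ γ := by
        rw [Real.div_rpow hx0' hn0.le]
        congr 1
        rw [← Real.rpow_add_one h0.ne']
        congr 1
        ring
      rw [e1]
      have e2 : (x:ℝ) ^ (γ - 1) ≤ (4:ℝ) ^ (γ - 1) * n ^ (γ - 7/4) := by
        calc (x:ℝ) ^ (γ - 1) ≤ (4 * n ^ η) ^ (γ - 1) :=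
              Real.rpow_le_rpow hx0' h1 (by linarith)
          _ = (4:ℝ) ^ (γ - 1) * n ^ (γ - 7/4) := by
              rw [Real.mul_rpow (by norm_num) (by positivity), ← Real.rpow_mul hn0.le, hη]
      have e3 : n ^ γ = n ^ (γ - 7/4) * n ^ (7/4 : ℝ) := by
        rw [← Real.rpow_add hn0]
        congr 1
        ring
      have hp : 0 < n ^ (γ - 7/4) := Real.rpow_pos_of_pos hn0 _
      calc (x:ℝ) ^ (γ - 1) * x / n ^ γ
          ≤ ((4:ℝ) ^ (γ - 1) * n ^ (γ - 7/4)) * ((l - k : ℕ) : ℝ) / n ^ γ := by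
            apply div_le_div_of_nonneg_right _ (by positivity)
            exact mul_le_mul e2 hxl hx0' (by positivity)
        _ = (4:ℝ) ^ (γ - 1) * (((l - k : ℕ) : ℝ) / n ^ (7/4 : ℝ)) := by
            rw [e3]
            field_simp
        _ ≤ Λ * (((l - k : ℕ) : ℝ) / n ^ (7/4 : ℝ)) :=
            mul_le_mul_of_nonneg_right hΛ2 (by positivity)

/-- Union bound. -/
theorem ho_union {S : Finset Edg} {A : Finset Edg → Prop} {B : ℕ → Finset Edg → Prop} (J : ℕ)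
    (h : ∀ F, F ⊆ S → A F → ∃ j < J, B j F) : P S A ≤ ∑ j ∈ range J, P S (B j) := by
  unfold P Pr
  rw [← Ex_sum]
  apply Ex_mono (fun _ => ⟨by norm_num, by norm_num⟩)
  intro F hF
  by_cases hA : A F
  · obtain ⟨j, hj, hB⟩ := h F hF hA
    rw [ind_of hA, ← ind_of hB]
    exact Finset.single_le_sum (f := fun j => ind (B j F)) (fun i _ => ind_nonneg _)
      (Finset.mem_range.2 hj)
  · rw [ind_not_of hA]
    exact Finset.sum_nonneg fun i _ => ind_nonneg _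

theorem ho_Kle {K0 Q : ℕ} (h0 : 1 ≤ K0) (hQ : 1 ≤ Q) (j : ℕ) :
    ((K0 + j * Q : ℕ) : ℝ) ≤ (K0 * Q : ℕ) * ((j:ℝ) + 1) := by
  have : K0 + j * Q ≤ K0 * Q * (j + 1) := by
    have h1 : K0 ≤ K0 * Q := Nat.le_mul_of_pos_right _ hQ
    have h2 : j * Q ≤ K0 * Q * j := by
      calc j * Q = 1 * (j * Q) := (one_mul _).symm
        _ ≤ K0 * (j * Q) := Nat.mul_le_mul_right _ h0
        _ = K0 * Q * j := by ring
    calc K0 + j * Q ≤ K0 * Q + K0 * Q * j := Nat.add_le_add h1 h2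
      _ = K0 * Q * (j + 1) := by ring
  exact_mod_cast this

theorem holder {c C : ℝ} (hc : 0 < c) (hC : 0 < C) (hL : LowA c (1/4)) (hU : TwoUp C (1/4))
    {κ γ ε : ℝ} (hκ : 0 < κ) (hγ : 7/4 < γ) (hε : 0 < ε) :
    ∃ Λ n0 : ℝ, 0 < Λ ∧ 1 ≤ n0 ∧ ∀ (n : ℝ) (D : Dm), n0 ≤ n → D.Shape κ n →
      P D.edges (fun F => ¬ Hol D γ Λ n F) ≤ ε := by
  classical
  obtain ⟨c1, C1, q, hc1, hC1, hq0, hq1, hS⟩ := scale_one hc hC hL hU
  -- reduction to `κ ≤ 1`
  wlog hκ1 : κ ≤ 1 generalizing κ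
  · obtain ⟨Λ, n0, h1, h2, h3⟩ := this (κ := 1) one_pos le_rfl
    refine ⟨Λ, n0, h1, h2, fun n D hn hD => h3 n D hn ?_⟩
    have hn0 : 0 ≤ n := by linarith
    have hk : 1 * n ≤ κ * n := mul_le_mul_of_nonneg_right (le_of_not_ge hκ1) hn0
    exact ⟨hD.ok, hk.trans hD.l_ge, hk.trans hD.r_ge, hk.trans hD.h_ge, hD.w_le, hD.h_le⟩
  -- exponents
  set η : ℝ := (γ - 7/4) / (γ - 1) with hηd
  have hγ1 : 0 < γ - 1 := by linarith
  have hη : η * (γ - 1) = γ - 7/4 := div_mul_cancel₀ _ hγ1.ne'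
  have hη0 : 0 < η := div_pos (by linarith) hγ1
  have hη1 : η < 1 := by
    rw [hηd, div_lt_one hγ1]
    linarith
  -- `Q`
  obtain ⟨Q, hQ1, hQ⟩ : ∃ Q : ℕ, 1 ≤ Q ∧ q ^ Q ≤ 1 / 8 := by
    obtain ⟨Q, hQ⟩ := exists_pow_lt_of_lt_one (show (0:ℝ) < 1 / 8 by norm_num) hq1
    refine ⟨Q + 1, by omega, ?_⟩
    rw [pow_succ]
    have : q ^ Q * q ≤ q ^ Q * 1 := mul_le_mul_of_nonneg_left hq1.le (by positivity)
    linarith
  -- the sum
  have hsum : Summable (fun j : ℕ => ((j:ℝ) + 1) ^ 4 * (1 / 2 : ℝ) ^ j) := by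
    have h1 : Summable (fun j : ℕ => (j:ℝ) ^ 4 * (1 / 2 : ℝ) ^ j) :=
      summable_pow_mul_geometric_of_norm_lt_one 4 (by norm_num)
    have h2 := (summable_nat_add_iff 1).2 h1
    refine (h2.mul_left 2).congr fun j => ?_
    push_cast
    rw [pow_succ (1 / 2 : ℝ) j]
    ring
  set T := ∑' j : ℕ, ((j:ℝ) + 1) ^ 4 * (1 / 2 : ℝ) ^ j with hT
  have hT0 : 0 ≤ T := tsum_nonneg fun j => by positivity
  -- `K0`
  obtain ⟨K0, hK0, hK0e⟩ : ∃ K0 : ℕ, 1 ≤ K0 ∧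
      C1 * (64 / κ ^ 2) * ((K0:ℝ) ^ 4 * (Q:ℝ) ^ 4) * q ^ K0 * T ≤ ε := by
    have h1 : Filter.Tendsto (fun K : ℕ => (C1 * (64 / κ ^ 2) * (Q:ℝ) ^ 4 * T) *
        ((K:ℝ) ^ 4 * q ^ K)) Filter.atTop (nhds ((C1 * (64 / κ ^ 2) * (Q:ℝ) ^ 4 * T) * 0)) :=
      (tendsto_pow_const_mul_const_pow_of_abs_lt_one 4
        (by rw [abs_of_pos hq0]; exact hq1)).const_mul _
    rw [mul_zero] at h1
    obtain ⟨K0, h2, h3⟩ := ((h1.eventually (gt_mem_nhds hε)).and
      (Filter.eventually_ge_atTop 1)).exists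
    refine ⟨K0, h3, ?_⟩
    refine le_trans (le_of_eq ?_) h2.le
    ring
  -- `B`
  set ρ : ℝ := (1/2 : ℝ) ^ (γ - 7/4) with hρ
  have hρ0 : 0 < ρ := Real.rpow_pos_of_pos (by norm_num) _
  have hρ1 : ρ < 1 := Real.rpow_lt_one (by norm_num) (by norm_num) (by linarith)
  obtain ⟨B, hB⟩ : ∃ B : ℝ, ∀ j : ℕ, ((K0 + j * Q : ℕ) : ℝ) ^ 4 * ρ ^ j ≤ B := by
    have h1 : Filter.Tendsto (fun j : ℕ => ((j:ℝ)) ^ 4 * ρ ^ j) Filter.atTop (nhds 0) :=
      tendsto_pow_const_mul_const_pow_of_abs_lt_one 4 (by rw [abs_of_pos hρ0]; exact hρ1)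
    have h2 := h1.comp (Filter.tendsto_add_atTop_nat 1)
    obtain ⟨B0, hB0⟩ := h2.bddAbove_range
    refine ⟨((K0 * Q : ℕ) : ℝ) ^ 4 * (B0 / ρ), fun j => ?_⟩
    have h3 : (((j + 1 : ℕ)) : ℝ) ^ 4 * ρ ^ (j + 1) ≤ B0 := hB0 ⟨j, rfl⟩
    push_cast at h3
    have h4 : ((j:ℝ) + 1) ^ 4 * ρ ^ j ≤ B0 / ρ := by
      rw [le_div_iff₀ hρ0]
      refine le_trans (le_of_eq ?_) h3
      rw [pow_succ ρ j]
      ring
    calc ((K0 + j * Q : ℕ) : ℝ) ^ 4 * ρ ^ j
        ≤ ((K0 * Q : ℕ) * ((j:ℝ) + 1)) ^ 4 * ρ ^ j := by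
          apply mul_le_mul_of_nonneg_right _ (by positivity)
          exact pow_le_pow_left₀ (by positivity) (ho_Kle hK0 hQ1 j) 4
      _ = ((K0 * Q : ℕ) : ℝ) ^ 4 * (((j:ℝ) + 1) ^ 4 * ρ ^ j) := by ring
      _ ≤ ((K0 * Q : ℕ) : ℝ) ^ 4 * (B0 / ρ) := mul_le_mul_of_nonneg_left h4 (by positivity)
  have hB0 : 0 ≤ B := le_trans (by positivity) (hB 0)
  -- `Λ`
  set Λ : ℝ := B / (c1 * (κ / 8) ^ (7/4 : ℝ)) + (4:ℝ) ^ (γ - 1) with hΛ
  have h4p : 0 < (4:ℝ) ^ (γ - 1) := Real.rpow_pos_of_pos (by norm_num) _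
  have hcκ : 0 < c1 * (κ / 8) ^ (7/4 : ℝ) := by positivity
  have hΛ0 : 0 < Λ := by positivity
  have hΛ1 : B ≤ Λ * c1 * (κ / 8) ^ (7/4 : ℝ) := by
    rw [hΛ, mul_assoc, add_mul, div_mul_cancel₀ _ hcκ.ne']
    have : 0 ≤ (4:ℝ) ^ (γ - 1) * (c1 * (κ / 8) ^ (7/4 : ℝ)) := by positivity
    linarith
  have hΛ2 : (4:ℝ) ^ (γ - 1) ≤ Λ := by
    rw [hΛ]
    have : 0 ≤ B / (c1 * (κ / 8) ^ (7/4 : ℝ)) := by positivity
    linarith
  -- `n0`
  have hev : ∀ᶠ n : ℝ in Filter.atTop, 1 ≤ n ∧ 2 * n ^ η ≤ ho_y κ n 0 ∧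
      C1 * ((K0 * Q : ℕ) : ℝ) ^ 2 * (1 + 2 * Real.log n) ^ 2 ≤ n ^ η := by
    have a1 : ∀ᶠ n : ℝ in Filter.atTop, 1 ≤ n := Filter.eventually_ge_atTop 1
    have a2 : ∀ᶠ n : ℝ in Filter.atTop, 8 / κ ≤ n ^ (1 - η) :=
      (tendsto_rpow_atTop (by linarith : (0:ℝ) < 1 - η)).eventually_ge_atTop _
    set M := C1 * ((K0 * Q : ℕ) : ℝ) ^ 2 with hM
    have hM0 : 0 ≤ M := by positivity
    have a3 : ∀ᶠ n : ℝ in Filter.atTop,
        ‖Real.log n‖ ≤ (1 / (3 * (M + 1))) * ‖n ^ (η / 2)‖ :=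
      (isLittleO_log_rpow_atTop (by linarith : 0 < η / 2)).def (by positivity)
    have a4 : ∀ᶠ n : ℝ in Filter.atTop, 1 ≤ Real.log n :=
      Real.tendsto_log_atTop.eventually_ge_atTop 1
    filter_upwards [a1, a2, a3, a4] with n h1 h2 h3 h4
    have hn0 : 0 < n := by linarith
    refine ⟨h1, ?_, ?_⟩
    · unfold ho_y
      rw [pow_zero, mul_one, le_div_iff₀ (by norm_num)]
      rw [div_le_iff₀ hκ] at h2
      have e1 : n = n ^ (1 - η) * n ^ η := by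
        rw [← Real.rpow_add hn0]
        simp
      have hp : 0 < n ^ η := Real.rpow_pos_of_pos hn0 _
      calc 2 * n ^ η * 4 = 8 * n ^ η := by ring
        _ ≤ (n ^ (1 - η) * κ) * n ^ η := mul_le_mul_of_nonneg_right h2 hp.le
        _ = κ * (n ^ (1 - η) * n ^ η) := by ring
        _ = κ * n := by rw [← e1]
    · have hp : 0 < n ^ (η / 2) := Real.rpow_pos_of_pos hn0 _
      rw [Real.norm_of_nonneg (by linarith), Real.norm_of_nonneg hp.le] at h3
      have e1 : n ^ η = n ^ (η / 2) * n ^ (η / 2) := by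
        rw [← Real.rpow_add hn0]
        congr 1
        ring
      have e2 : 1 + 2 * Real.log n ≤ 3 * (1 / (3 * (M + 1)) * n ^ (η / 2)) := by linarith
      have e3 : 3 * (1 / (3 * (M + 1)) * n ^ (η / 2)) = n ^ (η / 2) / (M + 1) := by
        field_simp
      rw [e3] at e2
      have e4 : (1 + 2 * Real.log n) ^ 2 ≤ (n ^ (η / 2) / (M + 1)) ^ 2 :=
        pow_le_pow_left₀ (by linarith) e2 2
      calc M * (1 + 2 * Real.log n) ^ 2 ≤ M * (n ^ (η / 2) / (M + 1)) ^ 2 :=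
            mul_le_mul_of_nonneg_left e4 hM0
        _ = (M / (M + 1) ^ 2) * n ^ η := by
            rw [e1]
            field_simp
        _ ≤ 1 * n ^ η := by
            apply mul_le_mul_of_nonneg_right _ (by positivity)
            rw [div_le_one (by positivity)]
            nlinarith
        _ = n ^ η := one_mul _
  obtain ⟨n1, hn1⟩ := Filter.eventually_atTop.1 hev
  refine ⟨Λ, max n1 1, hΛ0, le_max_right _ _, ?_⟩
  intro n D hn hD
  obtain ⟨hn1', hg0, hKn⟩ := hn1 n ((le_max_left _ _).trans hn)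
  have hn0 : 0 < n := by linarith
  have hnη : 1 ≤ n ^ η := Real.one_le_rpow hn1' hη0.le
  -- the number of good scales
  have hnb : ∃ j : ℕ, ho_y κ n j < 2 * n ^ η := by
    obtain ⟨j, hj⟩ := exists_pow_lt_of_lt_one (show (0:ℝ) < 2 * n ^ η / (κ / 4 * n) by positivity)
      (show (1/2:ℝ) < 1 by norm_num)
    refine ⟨j, ?_⟩
    rw [ho_y_eq]
    rw [lt_div_iff₀ (by positivity)] at hj
    linarith
  have hanti : ∀ i j : ℕ, i ≤ j → ho_y κ n j ≤ ho_y κ n i := by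
    intro i j hij
    rw [ho_y_eq, ho_y_eq]
    exact mul_le_mul_of_nonneg_left
      (pow_le_pow_of_le_one (by norm_num) (by norm_num) hij) (by positivity)
  set Bd : ℕ → Finset Edg → Prop := fun j F => D.Fast ⌊ho_y κ n j⌋
      (c1 * (((⌊ho_y κ n j⌋ : ℤ) : ℝ) / ((K0 + j * Q : ℕ) : ℝ) ^ 2) ^ (7/4 : ℝ)) F with hBd
  have hgood : ∀ j, 2 * n ^ η ≤ ho_y κ n j → j < Nat.find hnb := by
    intro j hj
    by_contra hcon
    push Not at hcon
    have h1 := Nat.find_spec hnb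
    have h2 := hanti _ _ hcon
    linarith
  have hgood' : ∀ j, j < Nat.find hnb → 2 * n ^ η ≤ ho_y κ n j := by
    intro j hj
    have := Nat.find_min hnb hj
    push Not at this
    exact this
  have hunion : P D.edges (fun F => ¬ Hol D γ Λ n F) ≤
      ∑ j ∈ range (Nat.find hnb), P D.edges (Bd j) := by
    refine ho_union _ fun F hF hnot => ?_
    by_contra hcon
    push Not at hcon
    exact hnot (ho_det hκ hκ1 hγ hη hη0.le hn1' hg0 hc1 hK0 hB hΛ1 hΛ2 hΛ0.le hD hF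
      fun j hj => hcon j (hgood j hj))
  refine hunion.trans ?_
  have hterm : ∀ j ∈ range (Nat.find hnb), P D.edges (Bd j) ≤
      (C1 * (64 / κ ^ 2) * ((K0:ℝ) ^ 4 * (Q:ℝ) ^ 4) * q ^ K0) *
        (((j:ℝ) + 1) ^ 4 * (1 / 2 : ℝ) ^ j) := by
    intro j hj
    have hgj := hgood' j (Finset.mem_range.1 hj)
    set w : ℤ := ⌊ho_y κ n j⌋ with hw
    have hwy : ho_y κ n j / 2 ≤ (w:ℝ) := ho_floor (by linarith)
    have hwη : n ^ η ≤ w := by linarith
    have hwy' : (w:ℝ) ≤ ho_y κ n j := Int.floor_le _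
    have hy4 : ho_y κ n j ≤ κ * n / 4 := by
      have := hanti 0 j (Nat.zero_le _)
      unfold ho_y at this ⊢
      simpa using this
    have hw2 : 2 * (w:ℝ) ≤ κ * n := by
      have : 0 < κ * n := by positivity
      linarith
    have hw0 : (0:ℝ) < w := by linarith
    -- `C1 K^2 ≤ w`
    have hjn : (j:ℝ) ≤ 2 * Real.log n := by
      have h1 : (2:ℝ) ^ j ≤ n := by
        unfold ho_y at hgj
        rw [le_div_iff₀ (by positivity)] at hgj
        have h2 : (0:ℝ) < 2 ^ j := by positivity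
        have h3 : κ * n ≤ n := by
          calc κ * n ≤ 1 * n := mul_le_mul_of_nonneg_right hκ1 hn0.le
            _ = n := one_mul n
        have h4 : (2:ℝ) ^ j ≤ n ^ η * 2 ^ j := by
          calc (2:ℝ) ^ j = 1 * 2 ^ j := (one_mul _).symm
            _ ≤ n ^ η * 2 ^ j := mul_le_mul_of_nonneg_right hnη h2.le
        nlinarith
      have h5 := Real.log_le_log (by positivity) h1
      rw [Real.log_pow] at h5
      have h6 : (1/2:ℝ) ≤ Real.log 2 := by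
        have := Real.log_two_gt_d9
        linarith
      have h7 : (0:ℝ) ≤ j := Nat.cast_nonneg _
      nlinarith
    have hKw : C1 * ((K0 + j * Q : ℕ) : ℝ) ^ 2 ≤ w := by
      refine le_trans ?_ hwη
      refine le_trans ?_ hKn
      rw [mul_assoc]
      apply mul_le_mul_of_nonneg_left _ hC1.le
      rw [← mul_pow]
      apply pow_le_pow_left₀ (by positivity)
      refine (ho_Kle hK0 hQ1 j).trans ?_
      apply mul_le_mul_of_nonneg_left _ (by positivity)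
      linarith
    have hK1 : 1 ≤ K0 + j * Q := by omega
    have key := hS D (K0 + j * Q) w n hD.ok hK1 hKw
      (by have := hD.l_ge; exact_mod_cast (by push_cast; linarith :
        ((2 * w : ℤ) : ℝ) ≤ ((-D.l : ℤ) : ℝ)))
      (by have := hD.r_ge; exact_mod_cast (by push_cast; linarith :
        ((2 * w : ℤ) : ℝ) ≤ ((D.r : ℤ) : ℝ)))
      (by have := hD.h_ge; exact_mod_cast (by push_cast; linarith :
        ((2 * w : ℤ) : ℝ) ≤ ((D.h : ℤ) : ℝ))) hD.w_le hD.h_le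
    refine key.trans ?_
    have e1 : (n / w) ^ 2 ≤ 64 / κ ^ 2 * 4 ^ j := by
      have h1 : n / w ≤ 8 / κ * 2 ^ j := by
        rw [div_le_iff₀ hw0]
        have h2 : κ * n / (8 * 2 ^ j) ≤ w := by
          refine le_trans (le_of_eq ?_) hwy
          unfold ho_y
          field_simp
          norm_num
        calc n = 8 / κ * 2 ^ j * (κ * n / (8 * 2 ^ j)) := by field_simp
          _ ≤ 8 / κ * 2 ^ j * w := mul_le_mul_of_nonneg_left h2 (by positivity)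
      calc (n / w) ^ 2 ≤ (8 / κ * 2 ^ j) ^ 2 := pow_le_pow_left₀ (by positivity) h1 2
        _ = 64 / κ ^ 2 * 4 ^ j := by
            rw [mul_pow, div_pow, ← pow_mul, mul_comm j 2, pow_mul]
            norm_num
    have e2 : ((K0 + j * Q : ℕ) : ℝ) ^ 4 ≤ ((K0:ℝ) ^ 4 * (Q:ℝ) ^ 4) * ((j:ℝ) + 1) ^ 4 := by
      calc ((K0 + j * Q : ℕ) : ℝ) ^ 4 ≤ ((K0 * Q : ℕ) * ((j:ℝ) + 1)) ^ 4 :=
            pow_le_pow_left₀ (by positivity) (ho_Kle hK0 hQ1 j) 4
        _ = _ := by push_cast; ring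
    have e3 : q ^ (K0 + j * Q) ≤ q ^ K0 * (1 / 8 : ℝ) ^ j := by
      rw [pow_add, mul_comm j Q, pow_mul]
      exact mul_le_mul_of_nonneg_left (pow_le_pow_left₀ (by positivity) hQ j) (by positivity)
    calc C1 * (n / w) ^ 2 * ((K0 + j * Q : ℕ) : ℝ) ^ 4 * q ^ (K0 + j * Q)
        ≤ C1 * (64 / κ ^ 2 * 4 ^ j) * (((K0:ℝ) ^ 4 * (Q:ℝ) ^ 4) * ((j:ℝ) + 1) ^ 4) *
            (q ^ K0 * (1 / 8 : ℝ) ^ j) := by
          gcongr
      _ = (C1 * (64 / κ ^ 2) * ((K0:ℝ) ^ 4 * (Q:ℝ) ^ 4) * q ^ K0) *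
            (((j:ℝ) + 1) ^ 4 * (4 ^ j * (1 / 8 : ℝ) ^ j)) := by ring
      _ = _ := by
          have e4 : (4:ℝ) ^ j * (1 / 8 : ℝ) ^ j = (1 / 2 : ℝ) ^ j := by
            rw [← mul_pow]
            norm_num
          rw [e4]
  refine (Finset.sum_le_sum hterm).trans ?_
  rw [← Finset.mul_sum]
  refine le_trans ?_ hK0e
  apply mul_le_mul_of_nonneg_left _ (by positivity)
  exact hsum.sum_le_tsum _ (fun j _ => by positivity)

end H984N
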