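import Pool.Agent.H984R4.NP.Walk
import Pool.Agent.H984R4.NP.PL
import Pool.Agent.H984R4.NP.ModelLem

/-!
D4: the estimates at mesh `δ`.
-/

namespace H984N

open H974 Finset H342P H984P MeasureTheory Filter Topology

theorem meshA_ok : Ok (fun _ : Edg => (1/2 : ℝ)) := fun _ => by norm_num

/-- Hölder continuity of the curve from the Hölder continuity of the walk. -/
theorem meshA_det {D : Dm} {δ S β Λ0 : ℝ} {F : Finset Edg} (hδ : 0 < δ) (hδ1 : δ ≤ 1) (hS : 0 < S)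
    (hβ : 0 < β) (hβ1 : β < 4/7) (hΛ : 0 < Λ0) (hH : Hol D (1/β) Λ0 (S/δ) F) {k l : ℕ}
    (hkl : k < l) (hl : l ≤ D.len F) :
    dist (pos δ (D.walk F k)) (pos δ (D.walk F l)) ≤
      (2 * (S * (Λ0 / S ^ (7/4 : ℝ)) ^ β) + 1) * (δ ^ (7/4 : ℝ) * ((l - k : ℕ) : ℝ)) ^ β := by
  have h1 := hH k l hkl.le hl
  set d : ℝ := ((sd (D.walk F k).1 (D.walk F l).1 : ℤ) : ℝ) with hd
  set m : ℝ := ((l - k : ℕ) : ℝ) with hm
  have hd0 : 0 ≤ d := by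
    rw [hd]
    exact_mod_cast (abs_nonneg _).trans (le_max_left _ _)
  have hm1 : 1 ≤ m := by
    rw [hm]
    have : 1 ≤ l - k := by omega
    exact_mod_cast this
  have hSd : 0 < S / δ := div_pos hS hδ
  have hδp : 0 < δ ^ (7/4 : ℝ) := Real.rpow_pos_of_pos hδ _
  have hSp : 0 < S ^ (7/4 : ℝ) := Real.rpow_pos_of_pos hS _
  have h2 : (S / δ) ^ (7/4 : ℝ) = S ^ (7/4 : ℝ) / δ ^ (7/4 : ℝ) := Real.div_rpow hS.le hδ.le _
  rw [h2] at h1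
  have h3 : Λ0 * (m / (S ^ (7/4 : ℝ) / δ ^ (7/4 : ℝ))) =
      (Λ0 / S ^ (7/4 : ℝ)) * (δ ^ (7/4 : ℝ) * m) := by
    field_simp
  rw [h3] at h1
  have hx : 0 ≤ δ ^ (7/4 : ℝ) * m := by positivity
  have h4 : d / (S / δ) ≤ (Λ0 / S ^ (7/4 : ℝ)) ^ β * (δ ^ (7/4 : ℝ) * m) ^ β := by
    have h5 := Real.rpow_le_rpow (Real.rpow_nonneg (div_nonneg hd0 hSd.le) _) h1 hβ.le
    rw [← Real.rpow_mul (div_nonneg hd0 hSd.le), one_div, inv_mul_cancel₀ hβ.ne',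
      Real.rpow_one, Real.mul_rpow (div_nonneg hΛ.le hSp.le) hx] at h5
    exact h5
  have h5 : δ * d ≤ S * (Λ0 / S ^ (7/4 : ℝ)) ^ β * (δ ^ (7/4 : ℝ) * m) ^ β := by
    have h6 := mul_le_mul_of_nonneg_left h4 hS.le
    have h7 : S * (d / (S / δ)) = δ * d := by
      field_simp
    rw [h7] at h6
    linarith
  have h6 : δ ≤ (δ ^ (7/4 : ℝ) * m) ^ β := by
    have h7 : δ ≤ δ ^ ((7/4 : ℝ) * β) := by
      have := Real.rpow_le_rpow_of_exponent_ge hδ hδ1 (show (7/4 : ℝ) * β ≤ 1 by linarith)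
      rwa [Real.rpow_one] at this
    refine h7.trans ?_
    rw [Real.rpow_mul hδ.le]
    apply Real.rpow_le_rpow hδp.le _ hβ.le
    nlinarith
  refine (dist_pos_le hδ.le _ _).trans ?_
  rw [← hd]
  nlinarith

/-- Hölder continuity at mesh `δ` from the lattice statement. -/
theorem mesh_holder (R : Rect) {β : ℝ} (hβ : 0 < β) (hβ1 : β < 4/7)
    (hH : ∀ κ γ ε : ℝ, 0 < κ → 7/4 < γ → 0 < ε → ∃ Λ n0 : ℝ, 0 < Λ ∧ 1 ≤ n0 ∧
      ∀ (n : ℝ) (D : Dm), n0 ≤ n → D.Shape κ n → P D.edges (fun F => ¬ Hol D γ Λ n F) ≤ ε)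
    {ε : ℝ} (hε : 0 < ε) :
    ∃ Λ δ0 : ℝ, 0 < Λ ∧ 0 < δ0 ∧ ∀ δ : ℝ, 0 < δ → δ ≤ δ0 →
      R.prob δ (fun F => ¬ ∀ s t : unitInterval, dist (R.curve δ F s) (R.curve δ F t) ≤
        Λ * (R.time δ F * |(s : ℝ) - t|) ^ β) ≤ ε := by
  obtain ⟨κ, S, δ0, hκ, hS, hδ0, hδ01, hsh⟩ := R.shape
  have hγ : 7/4 < 1/β := by
    rw [lt_div_iff₀ hβ]
    linarith
  obtain ⟨Λ0, n0, hΛ0, hn0, hHol⟩ := hH κ (1/β) ε hκ hγ hε
  have hSp : 0 < S ^ (7/4 : ℝ) := Real.rpow_pos_of_pos hS _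
  refine ⟨3 * (2 * (S * (Λ0 / S ^ (7/4 : ℝ)) ^ β) + 1), min δ0 (S / n0), by positivity,
    lt_min hδ0 (by positivity), ?_⟩
  intro δ hδ hδle
  have h1 : δ ≤ δ0 := hδle.trans (min_le_left _ _)
  have h2 : δ ≤ S / n0 := hδle.trans (min_le_right _ _)
  have h3 : n0 ≤ S / δ := by
    rw [le_div_iff₀ (by linarith)] at h2
    rw [le_div_iff₀ hδ]
    linarith
  refine le_trans ?_ (hHol (S / δ) (R.dm δ) h3 (hsh δ hδ h1))
  apply Pr_mono meshA_ok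
  intro F hF hn hHolF
  apply hn
  intro s t
  exact pl_holder hβ (by linarith) (Real.rpow_nonneg hδ.le _) (by positivity)
    (fun k l hkl hl => meshA_det hδ (h1.trans hδ01) hS hβ hβ1 hΛ0 hHolF hkl hl) s t

theorem mesh_time (R : Rect) {C' : ℝ}
    (hM : ∀ (D : Dm) (n : ℝ), D.Ok → 1 ≤ n → ((D.r - D.l : ℤ) : ℝ) ≤ n →
      (D.h : ℝ) ≤ n → E D.edges (fun F => (D.len F : ℝ) + 1) ≤ C' * n ^ (7/4 : ℝ))
    {ε : ℝ} (hε : 0 < ε) :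
    ∃ Λ δ0 : ℝ, 0 < Λ ∧ 0 < δ0 ∧ ∀ δ : ℝ, 0 < δ → δ ≤ δ0 →
      R.prob δ (fun F => Λ < R.time δ F) ≤ ε := by
  obtain ⟨κ, S, δ0, hκ, hS, hδ0, hδ01, hsh⟩ := R.shape
  set Λ : ℝ := max 1 (C' * S ^ (7/4 : ℝ) / ε) with hΛ
  have hΛ1 : 1 ≤ Λ := le_max_left _ _
  have hΛ2 : C' * S ^ (7/4 : ℝ) ≤ Λ * ε := by
    have := le_max_right 1 (C' * S ^ (7/4 : ℝ) / ε)
    rw [← hΛ, div_le_iff₀ hε] at this
    exact this
  refine ⟨Λ, min δ0 S, by linarith, lt_min hδ0 hS, ?_⟩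
  intro δ hδ hδle
  have h1 : δ ≤ δ0 := hδle.trans (min_le_left _ _)
  have h2 : δ ≤ S := hδle.trans (min_le_right _ _)
  have h3 : 1 ≤ S / δ := by
    rw [le_div_iff₀ hδ]
    linarith
  have hshape := hsh δ hδ h1
  have h4 := hM (R.dm δ) (S / δ) hshape.ok h3 hshape.w_le hshape.h_le
  have hδp : 0 < δ ^ (7/4 : ℝ) := Real.rpow_pos_of_pos hδ _
  rw [Real.div_rpow hS.le hδ.le] at h4
  have h5 : Λ * R.prob δ (fun F => Λ < R.time δ F) ≤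
      δ ^ (7/4 : ℝ) * E (R.dm δ).edges (fun F => ((R.dm δ).len F : ℝ) + 1) := by
    unfold Rect.prob P Pr
    rw [← Ex_mul_left, ← Ex_mul_left]
    apply Ex_mono meshA_ok
    intro F hF
    by_cases h : Λ < R.time δ F
    · rw [ind_of h, mul_one]
      unfold Rect.time at h
      nlinarith
    · rw [ind_not_of h, mul_zero]
      positivity
  have h6 : δ ^ (7/4 : ℝ) * (C' * (S ^ (7/4 : ℝ) / δ ^ (7/4 : ℝ))) = C' * S ^ (7/4 : ℝ) := by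
    field_simp
  have h7 := mul_le_mul_of_nonneg_left h4 hδp.le
  rw [h6] at h7
  have h8 : Λ * R.prob δ (fun F => Λ < R.time δ F) ≤ Λ * ε := by linarith
  exact le_of_mul_le_mul_left h8 (by linarith)

end H984N
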