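import Pool.Agent.H984R4.NP.SumA
import Pool.Agent.H984R4.NP.SumB
import Pool.Agent.H984R4.NP.Two

/-!
B4: first moment of the length and expected energy of the exploration path.
-/

namespace H984N

open H974 Finset H342P H984P

theorem Moments_sum {D : Dm} (hD : D.Ok) {F : Finset Edg} (hF : F ⊆ D.edges) (g : St → ℝ) :
    ∑ i ∈ Finset.range (D.len F + 1), g (D.walk F i) =
      ∑ σ ∈ D.states, ind (D.Vis F σ) * g σ := by
  classical
  have hinj : ∀ i ∈ Finset.range (D.len F + 1), ∀ j ∈ Finset.range (D.len F + 1),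
      D.walk F i = D.walk F j → i = j := by
    intro i hi j hj h
    rw [Finset.mem_range] at hi hj
    rcases lt_trichotomy i j with h1 | h1 | h1
    · exact absurd h (walk_inj hD hF h1 (by omega))
    · exact h1
    · exact absurd h.symm (walk_inj hD hF h1 (by omega))
  rw [← Finset.sum_image (f := g) hinj]
  have himg : (Finset.range (D.len F + 1)).image (D.walk F) = D.states.filter (D.Vis F) := by
    ext σ
    rw [Finset.mem_image, Finset.mem_filter]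
    constructor
    · rintro ⟨i, hi, rfl⟩
      rw [Finset.mem_range] at hi
      refine ⟨?_, i, by omega, rfl⟩
      obtain ⟨h1, h2⟩ := walk_in hD hF i
      unfold Dm.states
      rw [Finset.mem_product, Finset.mem_product, Finset.mem_Icc, Finset.mem_Icc]
      exact ⟨⟨h1, h2⟩, Finset.mem_univ _⟩
    · rintro ⟨-, i, hi, h⟩
      exact ⟨i, Finset.mem_range.mpr (by omega), h⟩
  rw [himg, Finset.sum_filter]
  refine Finset.sum_congr rfl fun σ _ => ?_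
  split_ifs with h
  · rw [ind_of h, one_mul]
  · rw [ind_not_of h, zero_mul]

theorem Moments_ok : Ok (fun _ : Edg => (1/2 : ℝ)) := okq (by norm_num) (by norm_num)

theorem Moments_vis {C : ℝ} (hC : 0 < C) (hU : TwoUp C (1/4)) :
    ∃ C' : ℝ, 0 < C' ∧ ∀ (D : Dm) (n : ℝ), D.Ok → 1 ≤ n → ((D.r - D.l : ℤ) : ℝ) ≤ n →
      (D.h : ℝ) ≤ n → ∑ σ ∈ D.states, P D.edges (fun F => D.Vis F σ) ≤ C' * n ^ (7/4 : ℝ) := by
  obtain ⟨C', hC', h⟩ := sum_one hC
  refine ⟨C', hC', fun D n hD hn h1 h2 => ?_⟩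
  refine le_trans ?_ (h D n hD hn h1 h2)
  exact Finset.sum_le_sum fun σ _ => one_point hU hD σ

theorem len_moment {C : ℝ} (hC : 0 < C) (hU : TwoUp C (1/4)) :
    ∃ C' : ℝ, 0 < C' ∧ ∀ (D : Dm) (n : ℝ), D.Ok → 1 ≤ n → ((D.r - D.l : ℤ) : ℝ) ≤ n →
      (D.h : ℝ) ≤ n → E D.edges (fun F => (D.len F : ℝ) + 1) ≤ C' * n ^ (7/4 : ℝ) := by
  obtain ⟨C', hC', h⟩ := Moments_vis hC hU
  refine ⟨C', hC', fun D n hD hn h1 h2 => ?_⟩
  refine le_trans (le_of_eq ?_) (h D n hD hn h1 h2)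
  have e1 : E D.edges (fun F => (D.len F : ℝ) + 1) =
      E D.edges (fun F => ∑ σ ∈ D.states, ind (D.Vis F σ)) := by
    apply Ex_congr
    intro F hF
    have := Moments_sum hD hF (fun _ => (1 : ℝ))
    simp only [Finset.sum_const, Finset.card_range, nsmul_eq_mul, mul_one] at this
    rw [← this]
    push_cast
    ring
  rw [e1]
  exact Ex_sum _ _ _ _

theorem Moments_sdpos {u v : Vtx} (h : u ≠ v) : 1 ≤ sd u v := by
  unfold sd
  by_contra hlt
  apply h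
  have h1 : |u.1 - v.1| ≤ 0 := by
    have := le_max_left |u.1 - v.1| |u.2 - v.2|
    omega
  have h2 : |u.2 - v.2| ≤ 0 := by
    have := le_max_right |u.1 - v.1| |u.2 - v.2|
    omega
  rw [abs_nonpos_iff] at h1 h2
  ext
  · omega
  · omega

theorem Moments_energy {D : Dm} (hD : D.Ok) {F : Finset Edg} (hF : F ⊆ D.edges) (α : ℝ) :
    energy D α F ≤ ∑ σ ∈ D.states, ∑ τ ∈ D.states, (if σ.1 = τ.1 then ind (D.Vis F σ) else
      ind (D.Vis F σ ∧ D.Vis F τ) * ((sd σ.1 τ.1 : ℤ) : ℝ) ^ (-α)) := by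
  unfold energy
  have e1 : ∑ i ∈ Finset.range (D.len F + 1), ∑ j ∈ Finset.range (D.len F + 1),
      ((max (sd (D.walk F i).1 (D.walk F j).1) 1 : ℤ) : ℝ) ^ (-α) =
      ∑ σ ∈ D.states, ind (D.Vis F σ) * ∑ τ ∈ D.states, ind (D.Vis F τ) *
        ((max (sd σ.1 τ.1) 1 : ℤ) : ℝ) ^ (-α) := by
    rw [← Moments_sum hD hF (fun σ => ∑ τ ∈ D.states, ind (D.Vis F τ) *
        ((max (sd σ.1 τ.1) 1 : ℤ) : ℝ) ^ (-α))]
    refine Finset.sum_congr rfl fun i _ => ?_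
    exact Moments_sum hD hF (fun τ => ((max (sd (D.walk F i).1 τ.1) 1 : ℤ) : ℝ) ^ (-α))
  rw [e1]
  refine Finset.sum_le_sum fun σ _ => ?_
  rw [Finset.mul_sum]
  refine Finset.sum_le_sum fun τ _ => ?_
  split_ifs with h
  · have h0 : sd σ.1 τ.1 = 0 := by
      rw [h]
      unfold sd
      simp
    rw [h0, max_eq_right (by norm_num : (0 : ℤ) ≤ 1), Int.cast_one, Real.one_rpow, mul_one]
    exact mul_le_of_le_one_right (ind_nonneg _) (ind_le_one _)
  · rw [max_eq_left (Moments_sdpos h), ind_and, mul_assoc]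

theorem Moments_card : Fintype.card Q4 = 4 := rfl

theorem Moments_four (D : Dm) (g : Vtx → ℝ) : ∑ τ ∈ D.states, g τ.1 =
    4 * ∑ v ∈ Finset.Icc D.l D.r ×ˢ Finset.Icc 0 D.h, g v := by
  unfold Dm.states
  rw [Finset.sum_product, Finset.mul_sum]
  refine Finset.sum_congr rfl fun v _ => ?_
  show ∑ _q : Q4, g v = 4 * g v
  rw [Finset.sum_const, Finset.card_univ, Moments_card, nsmul_eq_mul]
  norm_num

theorem energy_moment {C C2 : ℝ} (hC : 0 < C) (hU : TwoUp C (1/4)) (hC2 : 0 < C2)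
    (hA : AnnUp C2) {α : ℝ} (h0 : 0 ≤ α) (h1 : α < 7/4) :
    ∃ C' : ℝ, 0 < C' ∧ ∀ (D : Dm) (n : ℝ), D.Ok → 1 ≤ n → ((D.r - D.l : ℤ) : ℝ) ≤ n →
      (D.h : ℝ) ≤ n → E D.edges (energy D α) ≤ C' * n ^ (7/2 - α) := by
  obtain ⟨K1, hK1, k1⟩ := Moments_vis hC hU
  obtain ⟨K2, hK2, k2⟩ := two_point hC hU hC2 hA
  obtain ⟨K3, hK3, k3⟩ := sum_two h0 h1
  refine ⟨4 * K1 + 16 * (K2 * K3), by positivity, fun D n hD hn hw hh => ?_⟩
  have s1 : E D.edges (energy D α) ≤ E D.edges (fun F => ∑ σ ∈ D.states, ∑ τ ∈ D.states,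
      (if σ.1 = τ.1 then ind (D.Vis F σ) else
      ind (D.Vis F σ ∧ D.Vis F τ) * ((sd σ.1 τ.1 : ℤ) : ℝ) ^ (-α))) :=
    Ex_mono Moments_ok fun F hF => Moments_energy hD hF α
  have s2 : E D.edges (fun F => ∑ σ ∈ D.states, ∑ τ ∈ D.states,
      (if σ.1 = τ.1 then ind (D.Vis F σ) else
      ind (D.Vis F σ ∧ D.Vis F τ) * ((sd σ.1 τ.1 : ℤ) : ℝ) ^ (-α))) ≤
      ∑ σ ∈ D.states, ∑ τ ∈ D.states, ((if σ.1 = τ.1 then P D.edges (fun F => D.Vis F σ) else 0) +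
        K2 * (if σ.1 = τ.1 then 0 else ((sd σ.1 τ.1 : ℤ) : ℝ) ^ (-α) * tpb D σ.1 τ.1)) := by
    rw [E, Ex_sum]
    refine Finset.sum_le_sum fun σ hσ => ?_
    rw [Ex_sum]
    refine Finset.sum_le_sum fun τ hτ => ?_
    by_cases h : σ.1 = τ.1
    · simp only [if_pos h, mul_zero, add_zero]
      exact le_rfl
    · simp only [if_neg h, zero_add]
      rw [Ex_mul_right]
      have hp := k2 D hD σ hσ τ hτ h
      have hsd : (0 : ℝ) ≤ ((sd σ.1 τ.1 : ℤ) : ℝ) ^ (-α) := by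
        apply Real.rpow_nonneg
        have := Moments_sdpos h
        have h' : (1 : ℝ) ≤ ((sd σ.1 τ.1 : ℤ) : ℝ) := by exact_mod_cast this
        linarith
      calc _ ≤ K2 * tpb D σ.1 τ.1 * ((sd σ.1 τ.1 : ℤ) : ℝ) ^ (-α) :=
            mul_le_mul_of_nonneg_right hp hsd
        _ = _ := by ring
  have s3 : ∑ σ ∈ D.states, ∑ τ ∈ D.states,
      (if σ.1 = τ.1 then P D.edges (fun F => D.Vis F σ) else 0) ≤
      4 * (K1 * n ^ (7/4 : ℝ)) := by
    refine le_trans ?_ (mul_le_mul_of_nonneg_left (k1 D n hD hn hw hh) (by norm_num))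
    rw [Finset.mul_sum]
    refine Finset.sum_le_sum fun σ _ => ?_
    have hp : 0 ≤ P D.edges (fun F => D.Vis F σ) := Pr_nonneg Moments_ok _ _
    rw [Moments_four D (fun v => if σ.1 = v then P D.edges (fun F => D.Vis F σ) else 0),
      Finset.sum_ite_eq]
    apply mul_le_mul_of_nonneg_left _ (by norm_num)
    split_ifs
    · exact le_rfl
    · exact hp
  have s4 : ∑ σ ∈ D.states, ∑ τ ∈ D.states,
      K2 * (if σ.1 = τ.1 then 0 else ((sd σ.1 τ.1 : ℤ) : ℝ) ^ (-α) * tpb D σ.1 τ.1) ≤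
      16 * (K2 * (K3 * n ^ (7/2 - α))) := by
    have e1 : ∀ g : Vtx → Vtx → ℝ, ∑ σ ∈ D.states, ∑ τ ∈ D.states, g σ.1 τ.1 =
        16 * ∑ u ∈ Finset.Icc D.l D.r ×ˢ Finset.Icc 0 D.h,
          ∑ v ∈ Finset.Icc D.l D.r ×ˢ Finset.Icc 0 D.h, g u v := by
      intro g
      rw [Moments_four D (fun u => ∑ τ ∈ D.states, g u τ.1)]
      have e2 : ∀ u ∈ Finset.Icc D.l D.r ×ˢ Finset.Icc 0 D.h, ∑ τ ∈ D.states, g u τ.1 =
          4 * ∑ v ∈ Finset.Icc D.l D.r ×ˢ Finset.Icc 0 D.h, g u v :=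
        fun u _ => Moments_four D (fun v => g u v)
      rw [Finset.sum_congr rfl e2, ← Finset.mul_sum]
      ring
    rw [e1 (fun u v => K2 * (if u = v then 0 else ((sd u v : ℤ) : ℝ) ^ (-α) * tpb D u v))]
    apply mul_le_mul_of_nonneg_left _ (by norm_num)
    simp only [← Finset.mul_sum]
    exact mul_le_mul_of_nonneg_left (k3 D n hD hn hw hh) hK2.le
  have s5 : n ^ (7/4 : ℝ) ≤ n ^ (7/2 - α) :=
    Real.rpow_le_rpow_of_exponent_le hn (by linarith)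
  refine s1.trans (s2.trans ?_)
  simp only [Finset.sum_add_distrib]
  calc _ ≤ 4 * (K1 * n ^ (7/4 : ℝ)) + 16 * (K2 * (K3 * n ^ (7/2 - α))) := add_le_add s3 s4
    _ ≤ 4 * (K1 * n ^ (7/2 - α)) + 16 * (K2 * (K3 * n ^ (7/2 - α))) := by
        have := mul_le_mul_of_nonneg_left s5 hK1.le
        linarith
    _ = _ := by ring

end H984N
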