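import Pool.Agent.H984R4.NP.MeshA
import Pool.Agent.H984R4.NP.Holder
import Pool.Agent.H984R4.NP.Moments
import Pool.Agent.H984R4.NP.Good
import Pool.Agent.H984R4.NP.EnLimit
import Pool.Agent.H984R4.NP.PL
import Pool.Agent.H984R4.NP.ModelLem

/-!
D5: the two inputs of the limit theory.
-/

namespace H984N

open H974 Finset H342P H984P MeasureTheory Filter Topology

theorem meshB_ok : H974.Ok (fun _ : Edg => (1/2:ℝ)) := fun _ => ⟨by norm_num, by norm_num⟩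

/-- The curve starts near `a`. -/
theorem meshB_zero (R : Rect) {δ : ℝ} (hδ : 0 < δ) (F : Finset Edg) :
    dist (R.curve δ F 0) R.a ≤ 3 * δ := by
  unfold Rect.curve
  rw [pl_zero, walk_zero]
  exact R.pos_start hδ

/-- The curve ends near `0`. -/
theorem meshB_one (R : Rect) {δ : ℝ} (hδ : 0 < δ) (hD : (R.dm δ).Ok) {F : Finset Edg}
    (hF : F ⊆ (R.dm δ).edges) : dist (R.curve δ F 1) 0 ≤ 3 * δ := by
  unfold Rect.curve
  rw [pl_one, walk_len hD hF]
  exact Rect.pos_stop hδ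

theorem meshB_norm_a (R : Rect) : R.H ≤ dist R.a 0 := by
  rw [dist_zero_right]
  have h := Complex.abs_im_le_norm R.a
  have h1 : |R.a.im| = R.H := by
    unfold Rect.a
    exact abs_of_pos R.hH
  rw [h1] at h
  exact h

/-- A curve which is Hölder continuous in its natural time needs time. -/
theorem meshB_far (R : Rect) {δ : ℝ} (hδ : 0 < δ) (hδ1 : δ ≤ R.H / 12) (hD : (R.dm δ).Ok)
    {F : Finset Edg} (hF : F ⊆ (R.dm δ).edges) :
    R.H / 2 ≤ dist (R.curve δ F 0) (R.curve δ F 1) := by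
  have h0 := meshB_zero R hδ F
  have h1 := meshB_one R hδ hD hF
  have h2 := meshB_norm_a R
  have h3 : dist R.a 0 ≤ dist R.a (R.curve δ F 0) + dist (R.curve δ F 0) (R.curve δ F 1) +
      dist (R.curve δ F 1) 0 := dist_triangle4 _ _ _ _
  rw [dist_comm R.a (R.curve δ F 0)] at h3
  linarith

theorem meshB_time_nonneg (R : Rect) {δ : ℝ} (hδ : 0 < δ) (F : Finset Edg) :
    0 ≤ R.time δ F := by
  unfold Rect.time
  exact mul_nonneg (Real.rpow_nonneg hδ.le _) (Nat.cast_nonneg _)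

theorem tightH_of {c C : ℝ} (hc : 0 < c) (hC : 0 < C) (hL : LowA c (1/4)) (hU : TwoUp C (1/4))
    (R : Rect) {β : ℝ} (hβ : 0 < β) (hβ1 : β < 4/7) : R.TightH β := by
  intro ε hε
  obtain ⟨Λ1, δ1, hΛ1, hδ1, H1⟩ := mesh_holder R hβ hβ1
    (fun κ γ ε hκ hγ hε => holder hc hC hL hU hκ hγ hε) (half_pos hε)
  obtain ⟨C', -, hM⟩ := len_moment hC hU
  obtain ⟨Λ2, δ2, hΛ2, hδ2, H2⟩ := mesh_time R hM (half_pos hε)
  obtain ⟨κ, S, δ3, -, -, hδ3, hδ31, H3⟩ := R.shape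
  have hH := R.hH
  set τ : ℝ := (R.H / (2 * Λ1)) ^ (1/β) with hτ
  have hτ0 : 0 < τ := by positivity
  set Λ : ℝ := max (max (‖R.a‖ + 3) (Λ1 * Λ2 ^ β)) (max Λ2 τ⁻¹) with hΛ
  have e1 : ‖R.a‖ + 3 ≤ Λ := le_trans (le_max_left _ _) (le_max_left _ _)
  have e2 : Λ1 * Λ2 ^ β ≤ Λ := le_trans (le_max_right _ _) (le_max_left _ _)
  have e3 : Λ2 ≤ Λ := le_trans (le_max_left _ _) (le_max_right _ _)
  have e4 : τ⁻¹ ≤ Λ := le_trans (le_max_right _ _) (le_max_right _ _)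
  have hΛ0 : 0 < Λ := lt_of_lt_of_le hΛ2 e3
  refine ⟨Λ, min (min δ1 δ2) (min δ3 (R.H / 12)), hΛ0, by positivity, ?_⟩
  intro δ hδ hδm
  have d1 : δ ≤ δ1 := le_trans hδm (le_trans (min_le_left _ _) (min_le_left _ _))
  have d2 : δ ≤ δ2 := le_trans hδm (le_trans (min_le_left _ _) (min_le_right _ _))
  have d3 : δ ≤ δ3 := le_trans hδm (le_trans (min_le_right _ _) (min_le_left _ _))
  have d4 : δ ≤ R.H / 12 := le_trans hδm (le_trans (min_le_right _ _) (min_le_right _ _))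
  have hD : (R.dm δ).Ok := (H3 δ hδ d3).ok
  have key : R.prob δ (fun F => (R.curve δ F, R.time δ F) ∉ Good β Λ) ≤
      R.prob δ (fun F => (¬ ∀ s t : unitInterval, dist (R.curve δ F s) (R.curve δ F t) ≤
        Λ1 * (R.time δ F * |(s : ℝ) - t|) ^ β) ∨ Λ2 < R.time δ F) := by
    unfold Rect.prob
    apply Pr_mono meshB_ok
    intro F hF hG
    by_contra hcon
    rw [not_or, not_not, not_lt] at hcon
    obtain ⟨g1, g2⟩ := hcon
    apply hG
    have ht0 := meshB_time_nonneg R hδ F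
    have hfar := meshB_far R hδ d4 hD hF
    have h01 := g1 0 1
    have habs : |(((0 : unitInterval) : ℝ)) - ((1 : unitInterval) : ℝ)| = 1 := by
      simp
    rw [habs, mul_one] at h01
    have hτt : τ ≤ R.time δ F := by
      have h5 : R.H / (2 * Λ1) ≤ R.time δ F ^ β := by
        rw [div_le_iff₀ (by positivity)]
        nlinarith [hfar, h01]
      have h6 : (R.H / (2 * Λ1)) ^ (1/β) ≤ (R.time δ F ^ β) ^ (1/β) :=
        Real.rpow_le_rpow (by positivity) h5 (by positivity)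
      rw [← Real.rpow_mul ht0, mul_one_div_cancel hβ.ne', Real.rpow_one] at h6
      exact h6
    refine ⟨?_, ?_, ?_, le_trans g2 e3⟩
    · have h7 := meshB_zero R hδ F
      have h8 : ‖R.curve δ F 0‖ ≤ dist (R.curve δ F 0) R.a + ‖R.a‖ := by
        have := dist_triangle (R.curve δ F 0) R.a 0
        rwa [dist_zero_right, dist_zero_right] at this
      have h9 : δ ≤ 1 := le_trans d3 hδ31
      show ‖R.curve δ F 0‖ ≤ Λ
      linarith
    · intro s t
      show dist (R.curve δ F s) (R.curve δ F t) ≤ Λ * |(s : ℝ) - t| ^ β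
      have h10 := g1 s t
      have h11 : (R.time δ F * |(s : ℝ) - t|) ^ β ≤ (Λ2 * |(s : ℝ) - t|) ^ β :=
        Real.rpow_le_rpow (by positivity) (mul_le_mul_of_nonneg_right g2 (abs_nonneg _)) hβ.le
      rw [Real.mul_rpow hΛ2.le (abs_nonneg _)] at h11
      have h12 : 0 ≤ |(s : ℝ) - t| ^ β := by positivity
      calc dist (R.curve δ F s) (R.curve δ F t) ≤ Λ1 * (R.time δ F * |(s : ℝ) - t|) ^ β := h10
        _ ≤ Λ1 * (Λ2 ^ β * |(s : ℝ) - t| ^ β) := mul_le_mul_of_nonneg_left h11 hΛ1.le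
        _ = (Λ1 * Λ2 ^ β) * |(s : ℝ) - t| ^ β := by ring
        _ ≤ Λ * |(s : ℝ) - t| ^ β := mul_le_mul_of_nonneg_right e2 h12
    · show Λ⁻¹ ≤ R.time δ F
      refine le_trans ?_ hτt
      exact inv_le_of_inv_le₀ hτ0 e4
  refine le_trans key ?_
  have hor := Pr_or_le meshB_ok (R.dm δ).edges
    (fun F => ¬ ∀ s t : unitInterval, dist (R.curve δ F s) (R.curve δ F t) ≤
        Λ1 * (R.time δ F * |(s : ℝ) - t|) ^ β) (fun F => Λ2 < R.time δ F)
  have q1 := H1 δ hδ d1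
  have q2 := H2 δ hδ d2
  unfold Rect.prob at q1 q2 ⊢
  unfold P at q1 q2 ⊢
  linarith

theorem enB_of {C C2 : ℝ} (hC : 0 < C) (hU : TwoUp C (1/4)) (hC2 : 0 < C2) (hA : AnnUp C2)
    (R : Rect) {α : ℝ} (h0 : 0 < α) (h1 : α < 7/4) : R.EnB α := by
  obtain ⟨C', hC', hM⟩ := energy_moment hC hU hC2 hA h0.le h1
  obtain ⟨κ, S, δ3, -, hS, hδ3, hδ31, H3⟩ := R.shape
  refine ⟨C' * S ^ (7/2 - α), min δ3 S, by positivity, ?_⟩
  intro δ hδ hδm
  have d3 : δ ≤ δ3 := le_trans hδm (min_le_left _ _)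
  have d4 : δ ≤ S := le_trans hδm (min_le_right _ _)
  have hSh := H3 δ hδ d3
  have hn : 1 ≤ S / δ := by rwa [le_div_iff₀ hδ, one_mul]
  have hE := hM (R.dm δ) (S / δ) hSh.ok hn hSh.w_le hSh.h_le
  unfold E at hE ⊢
  rw [Ex_mul_left]
  have hp : 0 < δ ^ (7/2 - α) := Real.rpow_pos_of_pos hδ _
  calc δ ^ (7/2 - α) * Ex (fun _ => (1/2:ℝ)) (R.dm δ).edges (energy (R.dm δ) α)
      ≤ δ ^ (7/2 - α) * (C' * (S / δ) ^ (7/2 - α)) := mul_le_mul_of_nonneg_left hE hp.le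
    _ = C' * S ^ (7/2 - α) := by
        rw [Real.div_rpow hS.le hδ.le]
        field_simp

end H984N
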