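import Pool.Agent.H984R4.NP.Arms

/-!
B1: one-point bound.
-/

namespace H984N

open H974 Finset H342P H984P

theorem one_inc (σ : St) : Inc σ.1 (face σ) := by
  obtain ⟨⟨x, y⟩, q⟩ := σ
  cases q <;> simp [Inc, face]

theorem one_box {D : Dm} {u : Vtx} {k : ℤ} (hk : k ≤ D.bd u) :
    RE (u.1 - k) (u.1 + k) (u.2 - k) (u.2 + k) ⊆ D.edges := by
  unfold Dm.bd at hk
  unfold Dm.edges
  rintro ⟨x, y, t⟩ he
  cases t
  · rw [mem_RE_false] at he ⊢; omega
  · rw [mem_RE_true] at he ⊢; omega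

theorem one_point {C : ℝ} (hU : TwoUp C (1/4)) {D : Dm} (hD : D.Ok) (σ : St) :
    P D.edges (fun F => D.Vis F σ) ≤ ph C (1/4) (D.bd σ.1) := by
  unfold ph
  split_ifs with h
  · exact Pr_le_one (fun _ => ⟨by norm_num, by norm_num⟩) _ _
  · have hm : 0 < D.bd σ.1 := by omega
    have h1 : P D.edges (fun F => D.Vis F σ) ≤
        Pr (fun _ => (1/2:ℝ)) D.edges (fun F => Two σ.1 (face σ) (D.bd σ.1) (↑F)) :=
      Pr_mono (fun _ => ⟨by norm_num, by norm_num⟩) fun F hF hv => vis_two hD hF hv hm le_rfl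
    refine h1.trans ?_
    rw [pr_two hm (one_box le_rfl)]
    exact hU _ _ _ hm (one_inc σ)

end H984N
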