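import Pool.Agent.H984R4.NP.Defs

/-!
B3a: sum of the one-point bounds over the rectangle.
-/

namespace H984N

open H974 Finset H342P H984P

/-- translation -/
theorem suma_shift (g : ℤ → ℝ) (a b : ℤ) (N : ℕ) (hN : b - a = N) :
    ∑ x ∈ Finset.Icc a b, g (x - a) = ∑ x ∈ Finset.Icc (0:ℤ) N, g x := by
  apply Finset.sum_nbij' (fun x => x - a) (fun x => x + a)
  · intro x hx; rw [Finset.mem_Icc] at hx ⊢; omega
  · intro x hx; rw [Finset.mem_Icc] at hx ⊢; omega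
  · intro x _; ring
  · intro x _; ring
  · intro x _; rfl

/-- reflection -/
theorem suma_refl (g : ℤ → ℝ) (a b : ℤ) (N : ℕ) (hN : b - a = N) :
    ∑ x ∈ Finset.Icc a b, g (b - x) = ∑ x ∈ Finset.Icc (0:ℤ) N, g x := by
  apply Finset.sum_nbij' (fun x => b - x) (fun x => b - x)
  · intro x hx; rw [Finset.mem_Icc] at hx ⊢; omega
  · intro x hx; rw [Finset.mem_Icc] at hx ⊢; omega
  · intro x _; ring
  · intro x _; ring
  · intro x _; rfl

theorem suma_line {C b : ℝ} (hC : 0 ≤ C) (hb0 : 0 ≤ b) (hb1 : b < 1) (N : ℕ) {n : ℝ} (hn : 1 ≤ n)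
    (hN : (N : ℝ) ≤ n) :
    ∑ x ∈ Finset.Icc (0:ℤ) N, ph C b x ≤ (1 + C / (1 - b)) * n ^ (1 - b) := by
  have hb2 : 0 < 1 - b := by linarith
  have h1 := sum_ph_le hC hb0 hb1 N
  have h2 : (N : ℝ) ^ (1 - b) ≤ n ^ (1 - b) := Real.rpow_le_rpow (Nat.cast_nonneg _) hN hb2.le
  have h3 : (1 : ℝ) ≤ n ^ (1 - b) := Real.one_le_rpow hn hb2.le
  have h4 : C * ((N : ℝ) ^ (1 - b) / (1 - b)) ≤ C * (n ^ (1 - b) / (1 - b)) := by gcongr
  have h5 : C * (n ^ (1 - b) / (1 - b)) = C / (1 - b) * n ^ (1 - b) := by ring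
  rw [add_mul, one_mul]
  linarith

theorem suma_min {C s : ℝ} (hC : 0 ≤ C) (D : Dm) (u : Vtx) :
    ph C s (D.bd u) ≤
      ph C s (u.1 - D.l) + ph C s (D.r - u.1) + (ph C s (u.2 - 0) + ph C s (D.h - u.2)) := by
  have h2 := ph_nonneg (s := s) hC (u.1 - D.l)
  have h3 := ph_nonneg (s := s) hC (D.r - u.1)
  have h4 := ph_nonneg (s := s) hC (u.2 - 0)
  have h5 := ph_nonneg (s := s) hC (D.h - u.2)
  rw [sub_zero] at *
  unfold Dm.bd
  rcases min_choice (min (u.1 - D.l) (D.r - u.1)) (min u.2 (D.h - u.2)) with h | h <;> rw [h]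
  · rcases min_choice (u.1 - D.l) (D.r - u.1) with h | h <;> rw [h] <;> linarith
  · rcases min_choice u.2 (D.h - u.2) with h | h <;> rw [h] <;> linarith

theorem suma_bd {C b : ℝ} (hC : 0 ≤ C) (hb0 : 0 ≤ b) (hb1 : b < 1) (D : Dm) (n : ℝ) (hD : D.Ok)
    (hn : 1 ≤ n) (h1 : ((D.r - D.l : ℤ) : ℝ) ≤ n) (h2 : (D.h : ℝ) ≤ n) :
    ∑ v ∈ Finset.Icc D.l D.r ×ˢ Finset.Icc 0 D.h, ph C b (D.bd v) ≤
      8 * (1 + C / (1 - b)) * n ^ (2 - b) := by
  have hb2 : 0 < 1 - b := by linarith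
  obtain ⟨hl, hr, hh, -, -⟩ := hD
  obtain ⟨N, hN⟩ := Int.eq_ofNat_of_zero_le (show 0 ≤ D.r - D.l by omega)
  obtain ⟨M, hM⟩ := Int.eq_ofNat_of_zero_le (show 0 ≤ D.h - 0 by omega)
  have hNn : (N : ℝ) ≤ n := by rw [hN] at h1; exact_mod_cast h1
  have hMn : (M : ℝ) ≤ n := by
    have : (D.h : ℝ) = M := by
      have : D.h = M := by omega
      rw [this]; simp
    rw [← this]; exact h2
  set S : ℝ := (1 + C / (1 - b)) * n ^ (1 - b) with hS
  have hS0 : 0 ≤ S := by positivity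
  have l1 := suma_line hC hb0 hb1 N hn hNn
  have l2 := suma_line hC hb0 hb1 M hn hMn
  have c1 : ((Finset.Icc D.l D.r).card : ℝ) ≤ 2 * n := by
    rw [Int.card_Icc]
    have : (D.r + 1 - D.l).toNat = N + 1 := by omega
    rw [this]; push_cast; linarith
  have c2 : ((Finset.Icc 0 D.h).card : ℝ) ≤ 2 * n := by
    rw [Int.card_Icc]
    have : (D.h + 1 - 0).toNat = M + 1 := by omega
    rw [this]; push_cast; linarith
  have hsum : ∑ v ∈ Finset.Icc D.l D.r ×ˢ Finset.Icc 0 D.h, ph C b (D.bd v) ≤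
      ∑ v ∈ Finset.Icc D.l D.r ×ˢ Finset.Icc 0 D.h,
        (ph C b (v.1 - D.l) + ph C b (D.r - v.1) + (ph C b (v.2 - 0) + ph C b (D.h - v.2))) :=
    Finset.sum_le_sum fun v _ => suma_min hC D v
  refine hsum.trans ?_
  rw [Finset.sum_product]
  simp only [Finset.sum_add_distrib, Finset.sum_const, nsmul_eq_mul, ← Finset.mul_sum]
  rw [suma_shift (ph C b) D.l D.r N hN, suma_refl (ph C b) D.l D.r N hN,
    suma_shift (ph C b) 0 D.h M hM, suma_refl (ph C b) 0 D.h M hM]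
  set s1 := ∑ x ∈ Finset.Icc (0:ℤ) N, ph C b x with hs1
  set s2 := ∑ x ∈ Finset.Icc (0:ℤ) M, ph C b x with hs2
  have p1 : 0 ≤ s1 := Finset.sum_nonneg fun _ _ => ph_nonneg hC _
  have p2 : 0 ≤ s2 := Finset.sum_nonneg fun _ _ => ph_nonneg hC _
  have m1 : ((Finset.Icc 0 D.h).card : ℝ) * s1 ≤ 2 * n * S :=
    mul_le_mul c2 l1 p1 (by linarith)
  have m2 : ((Finset.Icc D.l D.r).card : ℝ) * s2 ≤ 2 * n * S :=
    mul_le_mul c1 l2 p2 (by linarith)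
  have hpow : n * n ^ (1 - b) = n ^ (2 - b) := by
    rw [show (2 : ℝ) - b = 1 + (1 - b) by ring, Real.rpow_add (by linarith), Real.rpow_one]
  have hfin : 2 * n * S = 2 * ((1 + C / (1 - b)) * n ^ (2 - b)) := by
    rw [← hpow, hS]; ring
  rw [hfin] at m1 m2
  have e : 8 * (1 + C / (1 - b)) * n ^ (2 - b) = 4 * (2 * ((1 + C / (1 - b)) * n ^ (2 - b))) := by
    ring
  rw [e]
  linarith

theorem sum_one {C : ℝ} (hC : 0 < C) : ∃ C' : ℝ, 0 < C' ∧ ∀ (D : Dm) (n : ℝ), D.Ok → 1 ≤ n →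
    ((D.r - D.l : ℤ) : ℝ) ≤ n → (D.h : ℝ) ≤ n →
    ∑ σ ∈ D.states, ph C (1/4) (D.bd σ.1) ≤ C' * n ^ (7/4 : ℝ) := by
  refine ⟨32 * (1 + C / (1 - 1/4)), by positivity, ?_⟩
  intro D n hD hn h1 h2
  have key := suma_bd hC.le (by norm_num : (0:ℝ) ≤ 1/4) (by norm_num) D n hD hn h1 h2
  have e1 : ∑ σ ∈ D.states, ph C (1/4) (D.bd σ.1) =
      4 * ∑ v ∈ Finset.Icc D.l D.r ×ˢ Finset.Icc 0 D.h, ph C (1/4) (D.bd v) := by
    unfold Dm.states
    rw [Finset.sum_product, Finset.mul_sum]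
    refine Finset.sum_congr rfl fun v _ => ?_
    show ∑ q ∈ (Finset.univ : Finset Q4), ph C (1/4) (D.bd v) = _
    rw [Finset.sum_const, nsmul_eq_mul]
    rfl
  rw [e1, show (7/4 : ℝ) = 2 - 1/4 by norm_num]
  linarith

end H984N
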